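import Pool.Agent.H881R2.Mat.Defs

/-!
# From systems of elementary constraints over `ℚ` to systems of wires in general position
-/

set_option autoImplicit false

namespace Pool.Agent.H881R2.Mat

open Pool.Agent.NPC

namespace TaskA

theorem conG_one (i g : ℕ) : conG (.one i) g = oneG g i := by simp [conG, ER.Con.code]
theorem conG_add (i j k g : ℕ) : conG (.add i j k) g = addG g i j k := by
  simp [conG, ER.Con.code]
theorem conG_mul (i j k g : ℕ) : conG (.mul i j k) g = mulG g i j k := by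
  simp [conG, ER.Con.code]

theorem mem_toW {S : List ER.Con} {d : Gad} :
    d ∈ toW S ↔ ∃ c g, S[g]? = some c ∧ d ∈ conG c g := by
  simp only [toW, List.mem_flatMap, Prod.exists, List.mem_zipIdx_iff_getElem?]

theorem distinct_conG (c : ER.Con) (g : ℕ) : Distinct (conG c g) := by
  intro d hd
  cases c with
  | one i =>
    rw [conG_one] at hd
    simp only [oneG, List.mem_cons, List.not_mem_nil, or_false] at hd
    rcases hd with rfl | rfl | rfl <;> simp only [wv, wc, ne_eq] <;> refine ⟨?_, ?_, ?_⟩ <;> omega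
  | add i j k =>
    rw [conG_add] at hd
    simp only [addG, rer, List.mem_append, List.mem_cons, List.not_mem_nil, or_false] at hd
    rcases hd with (rfl | rfl) | (rfl | rfl) | (rfl | rfl) | rfl | rfl | rfl | rfl <;>
      simp only [wv, wc, ne_eq] <;> refine ⟨?_, ?_, ?_⟩ <;> omega
  | mul i j k =>
    rw [conG_mul] at hd
    simp only [mulG, rer, List.mem_append, List.mem_cons, List.not_mem_nil, or_false] at hd
    rcases hd with (rfl | rfl) | (rfl | rfl) | (rfl | rfl) | rfl | rfl | rfl | rfl | rfl | rfl |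
      rfl | rfl <;>
      simp only [wv, wc, ne_eq] <;> refine ⟨?_, ?_, ?_⟩ <;> omega

theorem gok_add {w : ℕ → ℚ} {x y z : ℕ} (h : GOk w (false, x, y, z)) : w x + w y = w z := by
  have := h.2.2.2.2
  simpa using this

theorem gok_mul {w : ℕ → ℚ} {x y z : ℕ} (h : GOk w (true, x, y, z)) : w x * w y = w z := by
  have := h.2.2.2.2
  simpa using this

theorem gok_ne {w : ℕ → ℚ} {d : Gad} (h : GOk w d) : w d.2.1 ≠ 0 := h.1.1

theorem rer_val {w : ℕ → ℚ} {g s i : ℕ} (h : ∀ d ∈ rer g s i, GOk w d) :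
    w (wc g (3 * s)) - w (wc g (3 * s + 1)) = w (wv i 0) - w (wv i 1) := by
  have h1 := gok_add (h _ (by simp [rer]; left; exact ⟨rfl, rfl, rfl⟩))
  have h2 := gok_add (h (false, wv i 0, wc g (3 * s + 1), wc g (3 * s + 2)) (by simp [rer]))
  linarith

theorem qsat_of_wsat {S : List ER.Con} (h : WSat (toW S)) : H528R2.QSat S := by
  obtain ⟨w, hw⟩ := h
  refine ⟨fun i => w (wv i 0) - w (wv i 1), fun c hc => ?_⟩
  obtain ⟨g, hg⟩ := List.mem_iff_getElem?.1 hc
  have hw' : ∀ d ∈ conG c g, GOk w d := fun d hd => hw d (mem_toW.2 ⟨c, g, hg, hd⟩)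
  cases c with
  | one i =>
    rw [conG_one] at hw'
    have h1 := gok_mul (hw' (true, wc g 9, wv i 0, wc g 10) (by simp [oneG]))
    have h2 := gok_mul (hw' (true, wc g 9, wv i 1, wc g 11) (by simp [oneG]))
    have h3 := gok_add (hw' (false, wc g 9, wc g 11, wc g 10) (by simp [oneG]))
    have h4 := gok_ne (hw' (true, wc g 9, wv i 0, wc g 10) (by simp [oneG]))
    simp only at h4
    show w (wv i 0) - w (wv i 1) = 1
    have h5 : w (wc g 9) * (w (wv i 0) - w (wv i 1)) = w (wc g 9) * 1 := by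
      linear_combination h1 - h2 - h3
    exact mul_left_cancel₀ h4 h5
  | add i j k =>
    rw [conG_add] at hw'
    have r1 := rer_val (w := w) (g := g) (s := 0) (i := i)
      fun d hd => hw' d (by simp only [addG, List.mem_append]; tauto)
    have r2 := rer_val (w := w) (g := g) (s := 1) (i := j)
      fun d hd => hw' d (by simp only [addG, List.mem_append]; tauto)
    have r3 := rer_val (w := w) (g := g) (s := 2) (i := k)
      fun d hd => hw' d (by simp only [addG, List.mem_append]; tauto)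
    have h1 := gok_add (hw' (false, wc g 0, wc g 7, wc g 9) (by simp [addG]))
    have h2 := gok_add (hw' (false, wc g 9, wc g 3, wc g 10) (by simp [addG]))
    have h3 := gok_add (hw' (false, wc g 1, wc g 4, wc g 11) (by simp [addG]))
    have h4 := gok_add (hw' (false, wc g 11, wc g 6, wc g 10) (by simp [addG]))
    show (w (wv i 0) - w (wv i 1)) + (w (wv j 0) - w (wv j 1)) = w (wv k 0) - w (wv k 1)
    norm_num at r1 r2 r3
    linarith
  | mul i j k =>
    rw [conG_mul] at hw'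
    have r1 := rer_val (w := w) (g := g) (s := 0) (i := i)
      fun d hd => hw' d (by simp only [mulG, List.mem_append]; tauto)
    have r2 := rer_val (w := w) (g := g) (s := 1) (i := j)
      fun d hd => hw' d (by simp only [mulG, List.mem_append]; tauto)
    have r3 := rer_val (w := w) (g := g) (s := 2) (i := k)
      fun d hd => hw' d (by simp only [mulG, List.mem_append]; tauto)
    have h1 := gok_mul (hw' (true, wc g 0, wc g 3, wc g 12) (by simp [mulG]))
    have h2 := gok_mul (hw' (true, wc g 1, wc g 4, wc g 13) (by simp [mulG]))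
    have h3 := gok_mul (hw' (true, wc g 0, wc g 4, wc g 14) (by simp [mulG]))
    have h4 := gok_mul (hw' (true, wc g 1, wc g 3, wc g 15) (by simp [mulG]))
    have h5 := gok_add (hw' (false, wc g 12, wc g 7, wc g 16) (by simp [mulG]))
    have h6 := gok_add (hw' (false, wc g 16, wc g 13, wc g 17) (by simp [mulG]))
    have h7 := gok_add (hw' (false, wc g 14, wc g 6, wc g 18) (by simp [mulG]))
    have h8 := gok_add (hw' (false, wc g 18, wc g 15, wc g 17) (by simp [mulG]))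
    show (w (wv i 0) - w (wv i 1)) * (w (wv j 0) - w (wv j 1)) = w (wv k 0) - w (wv k 1)
    norm_num at r1 r2 r3
    rw [← r1, ← r2, ← r3]
    linear_combination h1 + h2 - h3 - h4 + h5 + h6 - h7 - h8

/-! ### the other direction -/

theorem avoid (F : List ℚ) : ∃ t : ℚ, ∀ x ∈ F, t ≠ x := by
  obtain ⟨t, ht⟩ := Infinite.exists_notMem_finset F.toFinset
  exact ⟨t, fun x hx h => ht (by simpa [h] using hx)⟩

theorem exists_tau (x : ℚ) : ∃ t : ℚ, t ≠ 0 ∧ t ≠ 1 ∧ x + t ≠ 0 ∧ x + t ≠ 1 := by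
  obtain ⟨t, ht⟩ := avoid [0, 1, -x, 1 - x]
  simp only [List.mem_cons, List.not_mem_nil, or_false, forall_eq_or_imp, forall_eq] at ht
  refine ⟨t, ht.1, ht.2.1, fun h => ht.2.2.1 (by linarith), fun h => ht.2.2.2 (by linarith)⟩

/-- the auxiliary number attached to a rational number -/
noncomputable def tau (x : ℚ) : ℚ := (exists_tau x).choose

theorem tau_spec (x : ℚ) : tau x ≠ 0 ∧ tau x ≠ 1 ∧ x + tau x ≠ 0 ∧ x + tau x ≠ 1 :=
  (exists_tau x).choose_spec

/-- conditions on the second coordinate `t` of a new pair for the value `x` -/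
def Cond (x t : ℚ) : Prop :=
  t ≠ 0 ∧ t ≠ 1 ∧ x + t ≠ 0 ∧ x + t ≠ 1 ∧ x + t + tau x ≠ 0 ∧ x + t + tau x ≠ 1 ∧
    x + t ≠ tau x ∧ t ≠ x + tau x

theorem exists_cond (x : ℚ) (F : List ℚ) : ∃ t, Cond x t ∧ ∀ y ∈ F, t ≠ y := by
  obtain ⟨t, ht⟩ := avoid ([0, 1, -x, 1 - x, -x - tau x, 1 - x - tau x, tau x - x, x + tau x] ++ F)
  simp only [List.mem_append] at ht
  refine ⟨t, ⟨ht _ (by simp), ht _ (by simp), ?_, ?_, ?_, ?_, ?_, ht _ (by simp)⟩,
    fun y hy => ht y (Or.inr hy)⟩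
  · intro h; exact ht (-x) (by simp) (by linarith)
  · intro h; exact ht (1 - x) (by simp) (by linarith)
  · intro h; exact ht (-x - tau x) (by simp) (by linarith)
  · intro h; exact ht (1 - x - tau x) (by simp) (by linarith)
  · intro h; exact ht (tau x - x) (by simp) (by linarith)

theorem gok_add_of {w : ℕ → ℚ} {x y z : ℕ} (h1 : w x ≠ 0 ∧ w x ≠ 1) (h2 : w y ≠ 0 ∧ w y ≠ 1)
    (h3 : w z ≠ 0 ∧ w z ≠ 1) (h4 : w x ≠ w y) (h : w x + w y = w z) : GOk w (false, x, y, z) :=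
  ⟨h1, h2, h3, h4, by simpa using h⟩

theorem gok_mul_of {w : ℕ → ℚ} {x y z : ℕ} (h1 : w x ≠ 0 ∧ w x ≠ 1) (h2 : w y ≠ 0 ∧ w y ≠ 1)
    (h3 : w z ≠ 0 ∧ w z ≠ 1) (h4 : w x ≠ w y) (h : w x * w y = w z) : GOk w (true, x, y, z) :=
  ⟨h1, h2, h3, h4, by simpa using h⟩

theorem rer_ok {v w : ℕ → ℚ} {g s i : ℕ} {t : ℚ} (hc : Cond (v i) t)
    (h0 : w (wv i 0) = v i + tau (v i)) (h1 : w (wv i 1) = tau (v i))
    (e0 : w (wc g (3 * s)) = v i + t) (e1 : w (wc g (3 * s + 1)) = t)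
    (e2 : w (wc g (3 * s + 2)) = v i + t + tau (v i)) : ∀ d ∈ rer g s i, GOk w d := by
  obtain ⟨a1, a2, a3, a4⟩ := tau_spec (v i)
  obtain ⟨c1, c2, c3, c4, c5, c6, c7, c8⟩ := hc
  intro d hd
  simp only [rer, List.mem_cons, List.not_mem_nil, or_false] at hd
  rcases hd with rfl | rfl
  · apply gok_add_of <;> simp only [h1, e0, e2]
    · exact ⟨c3, c4⟩
    · exact ⟨a1, a2⟩
    · exact ⟨c5, c6⟩
    · exact c7
  · apply gok_add_of <;> simp only [h0, e1, e2]
    · exact ⟨a3, a4⟩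
    · exact ⟨c1, c2⟩
    · exact ⟨c5, c6⟩
    · exact fun h => c8 h.symm
    · ring

/-- the values of the wires of a constraint can be chosen -/
def Loc (v : ℕ → ℚ) (c : ER.Con) : Prop :=
  ∃ u : ℕ → ℚ, ∀ (w : ℕ → ℚ) (g : ℕ), (∀ i, w (wv i 0) = v i + tau (v i)) →
    (∀ i, w (wv i 1) = tau (v i)) → (∀ j, j < 32 → w (wc g j) = u j) → ∀ d ∈ conG c g, GOk w d

theorem loc_one {v : ℕ → ℚ} {i : ℕ} (h : v i = 1) : Loc v (.one i) := by
  obtain ⟨a1, a2, a3, a4⟩ := tau_spec (v i)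
  obtain ⟨c, hc⟩ := avoid [0, 1, v i + tau (v i), tau (v i), 1 / (v i + tau (v i)), 1 / tau (v i)]
  simp only [List.mem_cons, List.not_mem_nil, or_false, forall_eq_or_imp, forall_eq] at hc
  obtain ⟨c1, c2, c3, c4, c5, c6⟩ := hc
  refine ⟨fun j => ([0, 0, 0, 0, 0, 0, 0, 0, 0, c, c * (v i + tau (v i)), c * tau (v i)] :
    List ℚ).getD j 0, fun w g h0 h1 hu d hd => ?_⟩
  have e9 : w (wc g 9) = c := by rw [hu 9 (by norm_num)]; rfl
  have e10 : w (wc g 10) = c * (v i + tau (v i)) := by rw [hu 10 (by norm_num)]; rfl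
  have e11 : w (wc g 11) = c * tau (v i) := by rw [hu 11 (by norm_num)]; rfl
  rw [conG_one] at hd
  simp only [oneG, List.mem_cons, List.not_mem_nil, or_false] at hd
  have m1 : c * (v i + tau (v i)) ≠ 0 ∧ c * (v i + tau (v i)) ≠ 1 :=
    ⟨mul_ne_zero c1 a3, fun h => c5 (eq_one_div_of_mul_eq_one_left h)⟩
  have m2 : c * tau (v i) ≠ 0 ∧ c * tau (v i) ≠ 1 :=
    ⟨mul_ne_zero c1 a1, fun h => c6 (eq_one_div_of_mul_eq_one_left h)⟩
  rcases hd with rfl | rfl | rfl
  · apply gok_mul_of <;> simp only [h0, e9, e10]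
    · exact ⟨c1, c2⟩
    · exact ⟨a3, a4⟩
    · exact m1
    · exact c3
  · apply gok_mul_of <;> simp only [h1, e9, e11]
    · exact ⟨c1, c2⟩
    · exact ⟨a1, a2⟩
    · exact m2
    · exact c4
  · apply gok_add_of <;> simp only [e9, e10, e11]
    · exact ⟨c1, c2⟩
    · exact m2
    · exact m1
    · intro h
      apply a2
      have : c * tau (v i) = c * 1 := by linarith
      exact mul_left_cancel₀ c1 this
    · rw [h]; ring

theorem loc_add {v : ℕ → ℚ} {i j k : ℕ} (h : v i + v j = v k) : Loc v (.add i j k) := by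
  obtain ⟨t1, k1, -⟩ := exists_cond (v i) []
  obtain ⟨t2, k2, f2⟩ := exists_cond (v j) [t1, -t1, 1 - t1]
  obtain ⟨t3, k3, f3⟩ := exists_cond (v k) [v i + t1, -(v i + t1), 1 - (v i + t1),
    v j + t2 - (v i + t1), -(v i + t1) - (v j + t2), 1 - (v i + t1) - (v j + t2),
    t1 + t2 - v k]
  simp only [List.mem_cons, List.not_mem_nil, or_false, forall_eq_or_imp, forall_eq] at f2 f3
  obtain ⟨f21, f22, f23⟩ := f2
  obtain ⟨f31, f32, f33, f34, f35, f36, f37⟩ := f3
  refine ⟨fun n => ([v i + t1, t1, v i + t1 + tau (v i), v j + t2, t2, v j + t2 + tau (v j),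
    v k + t3, t3, v k + t3 + tau (v k), v i + t1 + t3, v i + t1 + t3 + (v j + t2), t1 + t2] :
    List ℚ).getD n 0, fun w g h0 h1 hu d hd => ?_⟩
  have e0 : w (wc g 0) = v i + t1 := by rw [hu 0 (by norm_num)]; rfl
  have e1 : w (wc g 1) = t1 := by rw [hu 1 (by norm_num)]; rfl
  have e2 : w (wc g 2) = v i + t1 + tau (v i) := by rw [hu 2 (by norm_num)]; rfl
  have e3 : w (wc g 3) = v j + t2 := by rw [hu 3 (by norm_num)]; rfl
  have e4 : w (wc g 4) = t2 := by rw [hu 4 (by norm_num)]; rfl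
  have e5 : w (wc g 5) = v j + t2 + tau (v j) := by rw [hu 5 (by norm_num)]; rfl
  have e6 : w (wc g 6) = v k + t3 := by rw [hu 6 (by norm_num)]; rfl
  have e7 : w (wc g 7) = t3 := by rw [hu 7 (by norm_num)]; rfl
  have e8 : w (wc g 8) = v k + t3 + tau (v k) := by rw [hu 8 (by norm_num)]; rfl
  have e9 : w (wc g 9) = v i + t1 + t3 := by rw [hu 9 (by norm_num)]; rfl
  have e10 : w (wc g 10) = v i + t1 + t3 + (v j + t2) := by rw [hu 10 (by norm_num)]; rfl
  have e11 : w (wc g 11) = t1 + t2 := by rw [hu 11 (by norm_num)]; rfl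
  rw [conG_add] at hd
  simp only [addG, List.mem_append, List.mem_cons, List.not_mem_nil, or_false] at hd
  have A : v i + t1 + t3 ≠ 0 ∧ v i + t1 + t3 ≠ 1 :=
    ⟨fun h => f32 (by linarith), fun h => f33 (by linarith)⟩
  have Sg : v i + t1 + t3 + (v j + t2) ≠ 0 ∧ v i + t1 + t3 + (v j + t2) ≠ 1 :=
    ⟨fun h => f35 (by linarith), fun h => f36 (by linarith)⟩
  have B : t1 + t2 ≠ 0 ∧ t1 + t2 ≠ 1 := ⟨fun h => f22 (by linarith), fun h => f23 (by linarith)⟩
  rcases hd with hd | hd | hd | rfl | rfl | rfl | rfl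
  · exact rer_ok k1 (h0 i) (h1 i) (by simpa using e0) (by simpa using e1) (by simpa using e2) d hd
  · exact rer_ok k2 (h0 j) (h1 j) (by simpa using e3) (by simpa using e4) (by simpa using e5) d hd
  · exact rer_ok k3 (h0 k) (h1 k) (by simpa using e6) (by simpa using e7) (by simpa using e8) d hd
  · apply gok_add_of <;> simp only [e0, e7, e9]
    · exact ⟨k1.2.2.1, k1.2.2.2.1⟩
    · exact ⟨k3.1, k3.2.1⟩
    · exact A
    · exact fun h => f31 h.symm
  · apply gok_add_of <;> simp only [e9, e3, e10]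
    · exact A
    · exact ⟨k2.2.2.1, k2.2.2.2.1⟩
    · exact Sg
    · exact fun h => f34 (by linarith)
  · apply gok_add_of <;> simp only [e1, e4, e11]
    · exact ⟨k1.1, k1.2.1⟩
    · exact ⟨k2.1, k2.2.1⟩
    · exact B
    · exact fun h => f21 h.symm
  · apply gok_add_of <;> simp only [e11, e6, e10]
    · exact B
    · exact ⟨k3.2.2.1, k3.2.2.2.1⟩
    · exact Sg
    · exact fun h => f37 (by linarith)
    · linarith

theorem ne_of_mul {a b : ℚ} (hb : b ≠ 1 / a) : a * b ≠ 1 :=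
  fun h => hb (eq_one_div_of_mul_eq_one_right h)

theorem loc_mul {v : ℕ → ℚ} {i j k : ℕ} (h : v i * v j = v k) : Loc v (.mul i j k) := by
  obtain ⟨t1, k1, -⟩ := exists_cond (v i) []
  obtain ⟨t2, k2, f2⟩ := exists_cond (v j) [v i + t1 - v j, 1 / (v i + t1) - v j, t1, 1 / t1,
    v i + t1, 1 / (v i + t1), t1 - v j, 1 / t1 - v j]
  simp only [List.mem_cons, List.not_mem_nil, or_false, forall_eq_or_imp, forall_eq] at f2
  obtain ⟨g1, g2, g3, g4, g5, g6, g7, g8⟩ := f2
  obtain ⟨m1, hm1⟩ : ∃ m, m = (v i + t1) * (v j + t2) := ⟨_, rfl⟩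
  obtain ⟨m2, hm2⟩ : ∃ m, m = t1 * t2 := ⟨_, rfl⟩
  obtain ⟨m3, hm3⟩ : ∃ m, m = (v i + t1) * t2 := ⟨_, rfl⟩
  obtain ⟨m4, hm4⟩ : ∃ m, m = t1 * (v j + t2) := ⟨_, rfl⟩
  obtain ⟨t3, k3, f3⟩ := exists_cond (v k) [m1, -m1, 1 - m1, m2 - m1, -m1 - m2, 1 - m1 - m2,
    m3 - v k, -m3 - v k, 1 - m3 - v k, m4 - m3 - v k]
  simp only [List.mem_cons, List.not_mem_nil, or_false, forall_eq_or_imp, forall_eq] at f3
  obtain ⟨l1, l2, l3, l4, l5, l6, l7, l8, l9, l10⟩ := f3
  refine ⟨fun n => ([v i + t1, t1, v i + t1 + tau (v i), v j + t2, t2, v j + t2 + tau (v j),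
    v k + t3, t3, v k + t3 + tau (v k), 0, 0, 0, m1, m2, m3, m4, m1 + t3, m1 + t3 + m2,
    m3 + (v k + t3)] : List ℚ).getD n 0, fun w g h0 h1 hu d hd => ?_⟩
  have e0 : w (wc g 0) = v i + t1 := by rw [hu 0 (by norm_num)]; rfl
  have e1 : w (wc g 1) = t1 := by rw [hu 1 (by norm_num)]; rfl
  have e2 : w (wc g 2) = v i + t1 + tau (v i) := by rw [hu 2 (by norm_num)]; rfl
  have e3 : w (wc g 3) = v j + t2 := by rw [hu 3 (by norm_num)]; rfl
  have e4 : w (wc g 4) = t2 := by rw [hu 4 (by norm_num)]; rfl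
  have e5 : w (wc g 5) = v j + t2 + tau (v j) := by rw [hu 5 (by norm_num)]; rfl
  have e6 : w (wc g 6) = v k + t3 := by rw [hu 6 (by norm_num)]; rfl
  have e7 : w (wc g 7) = t3 := by rw [hu 7 (by norm_num)]; rfl
  have e8 : w (wc g 8) = v k + t3 + tau (v k) := by rw [hu 8 (by norm_num)]; rfl
  have e12 : w (wc g 12) = m1 := by rw [hu 12 (by norm_num)]; rfl
  have e13 : w (wc g 13) = m2 := by rw [hu 13 (by norm_num)]; rfl
  have e14 : w (wc g 14) = m3 := by rw [hu 14 (by norm_num)]; rfl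
  have e15 : w (wc g 15) = m4 := by rw [hu 15 (by norm_num)]; rfl
  have e16 : w (wc g 16) = m1 + t3 := by rw [hu 16 (by norm_num)]; rfl
  have e17 : w (wc g 17) = m1 + t3 + m2 := by rw [hu 17 (by norm_num)]; rfl
  have e18 : w (wc g 18) = m3 + (v k + t3) := by rw [hu 18 (by norm_num)]; rfl
  rw [conG_mul] at hd
  simp only [mulG, List.mem_append, List.mem_cons, List.not_mem_nil, or_false] at hd
  have P1 : v i + t1 ≠ 0 ∧ v i + t1 ≠ 1 := ⟨k1.2.2.1, k1.2.2.2.1⟩
  have P2 : v j + t2 ≠ 0 ∧ v j + t2 ≠ 1 := ⟨k2.2.2.1, k2.2.2.2.1⟩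
  have P3 : v k + t3 ≠ 0 ∧ v k + t3 ≠ 1 := ⟨k3.2.2.1, k3.2.2.2.1⟩
  have T1 : t1 ≠ 0 ∧ t1 ≠ 1 := ⟨k1.1, k1.2.1⟩
  have T2 : t2 ≠ 0 ∧ t2 ≠ 1 := ⟨k2.1, k2.2.1⟩
  have T3 : t3 ≠ 0 ∧ t3 ≠ 1 := ⟨k3.1, k3.2.1⟩
  have M1 : m1 ≠ 0 ∧ m1 ≠ 1 := by
    rw [hm1]
    exact ⟨mul_ne_zero P1.1 P2.1, ne_of_mul fun h => g2 (by linarith)⟩
  have M2 : m2 ≠ 0 ∧ m2 ≠ 1 := by
    rw [hm2]
    exact ⟨mul_ne_zero T1.1 T2.1, ne_of_mul g4⟩
  have M3 : m3 ≠ 0 ∧ m3 ≠ 1 := by
    rw [hm3]
    exact ⟨mul_ne_zero P1.1 T2.1, ne_of_mul g6⟩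
  have M4 : m4 ≠ 0 ∧ m4 ≠ 1 := by
    rw [hm4]
    exact ⟨mul_ne_zero T1.1 P2.1, ne_of_mul fun h => g8 (by linarith)⟩
  have A : m1 + t3 ≠ 0 ∧ m1 + t3 ≠ 1 := ⟨fun h => l2 (by linarith), fun h => l3 (by linarith)⟩
  have S : m1 + t3 + m2 ≠ 0 ∧ m1 + t3 + m2 ≠ 1 :=
    ⟨fun h => l5 (by linarith), fun h => l6 (by linarith)⟩
  have B : m3 + (v k + t3) ≠ 0 ∧ m3 + (v k + t3) ≠ 1 :=
    ⟨fun h => l8 (by linarith), fun h => l9 (by linarith)⟩
  rcases hd with hd | hd | hd | rfl | rfl | rfl | rfl | rfl | rfl | rfl | rfl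
  · exact rer_ok k1 (h0 i) (h1 i) (by simpa using e0) (by simpa using e1) (by simpa using e2) d hd
  · exact rer_ok k2 (h0 j) (h1 j) (by simpa using e3) (by simpa using e4) (by simpa using e5) d hd
  · exact rer_ok k3 (h0 k) (h1 k) (by simpa using e6) (by simpa using e7) (by simpa using e8) d hd
  · apply gok_mul_of <;> simp only [e0, e3, e12]
    · exact P1
    · exact P2
    · exact M1
    · exact fun h => g1 (by linarith)
    · exact hm1.symm
  · apply gok_mul_of <;> simp only [e1, e4, e13]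
    · exact T1
    · exact T2
    · exact M2
    · exact fun h => g3 h.symm
    · exact hm2.symm
  · apply gok_mul_of <;> simp only [e0, e4, e14]
    · exact P1
    · exact T2
    · exact M3
    · exact fun h => g5 h.symm
    · exact hm3.symm
  · apply gok_mul_of <;> simp only [e1, e3, e15]
    · exact T1
    · exact P2
    · exact M4
    · exact fun h => g7 (by linarith)
    · exact hm4.symm
  · apply gok_add_of <;> simp only [e12, e7, e16]
    · exact M1
    · exact T3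
    · exact A
    · exact fun h => l1 h.symm
  · apply gok_add_of <;> simp only [e16, e13, e17]
    · exact A
    · exact M2
    · exact S
    · exact fun h => l4 (by linarith)
  · apply gok_add_of <;> simp only [e14, e6, e18]
    · exact M3
    · exact P3
    · exact B
    · exact fun h => l7 (by linarith)
  · apply gok_add_of <;> simp only [e18, e15, e17]
    · exact B
    · exact M4
    · exact S
    · exact fun h => l10 (by linarith)
    · rw [hm1, hm2, hm3, hm4]
      linear_combination -h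

theorem loc_of_holds {v : ℕ → ℚ} {c : ER.Con} (h : H528R2.HoldsQ v c) : Loc v c := by
  cases c with
  | one i => exact loc_one h
  | add i j k => exact loc_add h
  | mul i j k => exact loc_mul h

open Classical in
/-- the values of the local wires of constraint number `g` -/
noncomputable def uu (v : ℕ → ℚ) (S : List ER.Con) (g j : ℕ) : ℚ :=
  if h : ∃ c, S[g]? = some c ∧ Loc v c then h.choose_spec.2.choose j else 0

theorem uu_spec {v : ℕ → ℚ} {S : List ER.Con} {g : ℕ} {c : ER.Con} (hg : S[g]? = some c)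
    (hc : Loc v c) (w : ℕ → ℚ) (h0 : ∀ i, w (wv i 0) = v i + tau (v i))
    (h1 : ∀ i, w (wv i 1) = tau (v i)) (hw : ∀ j, j < 32 → w (wc g j) = uu v S g j) :
    ∀ d ∈ conG c g, GOk w d := by
  have hex : ∃ c, S[g]? = some c ∧ Loc v c := ⟨c, hg, hc⟩
  have hce : hex.choose = c := Option.some.inj (hex.choose_spec.1.symm.trans hg)
  have hval : ∀ j, j < 32 → w (wc g j) = hex.choose_spec.2.choose j := by
    intro j hj
    rw [hw j hj, uu, dif_pos hex]
  have := hex.choose_spec.2.choose_spec w g h0 h1 hval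
  intro d hd
  exact this d (by rw [hce]; exact hd)

/-- the values of all wires -/
noncomputable def val (v : ℕ → ℚ) (S : List ER.Con) (n : ℕ) : ℚ :=
  if (n / 32) % 2 = 0 then
    (if n % 32 = 0 then v (n / 64) + tau (v (n / 64)) else tau (v (n / 64)))
  else uu v S (n / 64) (n % 32)

theorem val_wv0 (v : ℕ → ℚ) (S : List ER.Con) (i : ℕ) :
    val v S (wv i 0) = v i + tau (v i) := by
  have h1 : wv i 0 / 32 % 2 = 0 := by simp only [wv]; omega
  have h2 : wv i 0 % 32 = 0 := by simp only [wv]; omega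
  have h3 : wv i 0 / 64 = i := by simp only [wv]; omega
  rw [val, if_pos h1, if_pos h2, h3]

theorem val_wv1 (v : ℕ → ℚ) (S : List ER.Con) (i : ℕ) :
    val v S (wv i 1) = tau (v i) := by
  have h1 : wv i 1 / 32 % 2 = 0 := by simp only [wv]; omega
  have h2 : ¬ wv i 1 % 32 = 0 := by simp only [wv]; omega
  have h3 : wv i 1 / 64 = i := by simp only [wv]; omega
  rw [val, if_pos h1, if_neg h2, h3]

theorem val_wc (v : ℕ → ℚ) (S : List ER.Con) (g j : ℕ) (hj : j < 32) :
    val v S (wc g j) = uu v S g j := by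
  have h1 : ¬ wc g j / 32 % 2 = 0 := by simp only [wc]; omega
  have h2 : wc g j % 32 = j := by simp only [wc]; omega
  have h3 : wc g j / 64 = g := by simp only [wc]; omega
  rw [val, if_neg h1, h2, h3]

theorem wsat_of_qsat {S : List ER.Con} (h : H528R2.QSat S) : WSat (toW S) := by
  obtain ⟨v, hv⟩ := h
  refine ⟨val v S, fun d hd => ?_⟩
  obtain ⟨c, g, hg, hd⟩ := mem_toW.1 hd
  have hc : Loc v c := loc_of_holds (hv c (List.mem_iff_getElem?.2 ⟨g, hg⟩))
  exact uu_spec hg hc (val v S) (val_wv0 v S) (val_wv1 v S) (val_wc v S g) d hd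

end TaskA

theorem distinct_toW (S : List ER.Con) : Distinct (toW S) := by
  intro d hd
  obtain ⟨c, g, -, hd⟩ := TaskA.mem_toW.1 hd
  exact TaskA.distinct_conG c g d hd

theorem wsat_toW (S : List ER.Con) : WSat (toW S) ↔ Pool.Agent.H528R2.QSat S :=
  ⟨TaskA.qsat_of_wsat, TaskA.wsat_of_qsat⟩

end Pool.Agent.H881R2.Mat
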