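import Pool.Agent.H881R2.Mat.Defs

set_option autoImplicit false

namespace Pool.Agent.H881R2.Mat

open Pool.Agent.NPC

/-- dependence, as a proposition -/
def DepP (G : List Gad) (a b c : Lab) : Prop :=
  (a = b ∨ a = c ∨ b = c) ∨ (onP a = true ∧ onP b = true ∧ onP c = true) ∨
    (onQ a = true ∧ onQ b = true ∧ onQ c = true) ∨ (onR a = true ∧ onR b = true ∧ onR c = true) ∨
    (onS a = true ∧ onS b = true ∧ onS c = true) ∨ ∃ L ∈ lines G, a ∈ L ∧ b ∈ L ∧ c ∈ L

theorem dep_iff (G : List Gad) (a b c : Lab) : dep G a b c = true ↔ DepP G a b c := by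
  simp only [dep, DepP, Bool.or_eq_true, Bool.and_eq_true, decide_eq_true_eq, List.any_eq_true]

theorem DepP.swap12 {G : List Gad} {a b c : Lab} (h : DepP G a b c) : DepP G b a c := by
  rcases h with (h | h | h) | h | h | h | h | ⟨L, h1, h2, h3, h4⟩
  · exact Or.inl (Or.inl h.symm)
  · exact Or.inl (Or.inr (Or.inr h))
  · exact Or.inl (Or.inr (Or.inl h))
  · exact Or.inr (Or.inl ⟨h.2.1, h.1, h.2.2⟩)
  · exact Or.inr (Or.inr (Or.inl ⟨h.2.1, h.1, h.2.2⟩))
  · exact Or.inr (Or.inr (Or.inr (Or.inl ⟨h.2.1, h.1, h.2.2⟩)))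
  · exact Or.inr (Or.inr (Or.inr (Or.inr (Or.inl ⟨h.2.1, h.1, h.2.2⟩))))
  · exact Or.inr (Or.inr (Or.inr (Or.inr (Or.inr ⟨L, h1, h3, h2, h4⟩))))

theorem DepP.swap23 {G : List Gad} {a b c : Lab} (h : DepP G a b c) : DepP G a c b := by
  rcases h with (h | h | h) | h | h | h | h | ⟨L, h1, h2, h3, h4⟩
  · exact Or.inl (Or.inr (Or.inl h))
  · exact Or.inl (Or.inl h)
  · exact Or.inl (Or.inr (Or.inr h.symm))
  · exact Or.inr (Or.inl ⟨h.1, h.2.2, h.2.1⟩)
  · exact Or.inr (Or.inr (Or.inl ⟨h.1, h.2.2, h.2.1⟩))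
  · exact Or.inr (Or.inr (Or.inr (Or.inl ⟨h.1, h.2.2, h.2.1⟩)))
  · exact Or.inr (Or.inr (Or.inr (Or.inr (Or.inl ⟨h.1, h.2.2, h.2.1⟩))))
  · exact Or.inr (Or.inr (Or.inr (Or.inr (Or.inr ⟨L, h1, h2, h4, h3⟩))))

theorem dep_swap12 (G : List Gad) (a b c : Lab) : dep G a b c = dep G b a c := by
  rw [Bool.eq_iff_iff, dep_iff, dep_iff]
  exact ⟨DepP.swap12, DepP.swap12⟩

theorem dep_swap23 (G : List Gad) (a b c : Lab) : dep G a b c = dep G a c b := by
  rw [Bool.eq_iff_iff, dep_iff, dep_iff]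
  exact ⟨DepP.swap23, DepP.swap23⟩

theorem mem_inst (G : List Gad) (l : List ℕ) : l ∈ (inst G).2 ↔
    ∃ i j k : Fin (labs G).length, i < j ∧ j < k ∧
      dep G (labs G)[i] (labs G)[j] (labs G)[k] = false ∧ l = [(i : ℕ), (j : ℕ), (k : ℕ)] := by
  simp only [inst, List.mem_flatMap, List.mem_map, List.mem_filter, Bool.and_eq_true,
    decide_eq_true_eq, Bool.not_eq_true', List.mem_zipIdx_iff_getElem?]
  constructor
  · rintro ⟨⟨a, i⟩, hi, ⟨b, j⟩, hj, ⟨c, k⟩, ⟨hk, ⟨hij, hjk⟩, hd⟩, rfl⟩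
    dsimp only at hi hj hk hd hij hjk
    obtain ⟨hi', rfl⟩ := List.getElem?_eq_some_iff.1 hi
    obtain ⟨hj', rfl⟩ := List.getElem?_eq_some_iff.1 hj
    obtain ⟨hk', rfl⟩ := List.getElem?_eq_some_iff.1 hk
    exact ⟨⟨i, hi'⟩, ⟨j, hj'⟩, ⟨k, hk'⟩, hij, hjk, hd, rfl⟩
  · rintro ⟨i, j, k, hij, hjk, hd, rfl⟩
    exact ⟨((labs G)[i], (i : ℕ)), List.getElem?_eq_some_iff.2 ⟨i.2, rfl⟩,
      ((labs G)[j], (j : ℕ)), List.getElem?_eq_some_iff.2 ⟨j.2, rfl⟩,
      ((labs G)[k], (k : ℕ)), ⟨List.getElem?_eq_some_iff.2 ⟨k.2, rfl⟩, ⟨hij, hjk⟩, hd⟩, rfl⟩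

theorem listed_iff (G : List Gad) (B : Finset (Fin (labs G).length)) :
    Listed (n := (labs G).length) (inst G).2 B ↔ ∃ i j k : Fin (labs G).length, i < j ∧ j < k ∧
      dep G (labs G)[i] (labs G)[j] (labs G)[k] = false ∧ B = {i, j, k} := by
  constructor
  · rintro ⟨l, hl, hB⟩
    obtain ⟨i, j, k, hij, hjk, hd, rfl⟩ := (mem_inst G l).1 hl
    refine ⟨i, j, k, hij, hjk, hd, ?_⟩
    ext x
    rw [hB x]
    simp [Fin.ext_iff]
  · rintro ⟨i, j, k, hij, hjk, hd, rfl⟩
    refine ⟨_, (mem_inst G _).2 ⟨i, j, k, hij, hjk, hd, rfl⟩, ?_⟩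
    intro x
    simp [Fin.ext_iff]

/-! ### linear algebra -/

theorem det3_swap12 (a b c : Fin 3 → ℚ) : det3 b a c = - det3 a b c := by
  unfold det3; ring

theorem det3_swap23 (a b c : Fin 3 → ℚ) : det3 a c b = - det3 a b c := by
  unfold det3; ring

theorem det3_eq_det (a b c : Fin 3 → ℚ) : det3 a b c = Matrix.det (Matrix.of ![a, b, c]) := by
  rw [Matrix.det_fin_three]
  simp [det3]
  ring

theorem li_iff_det3 (a b c : Fin 3 → ℚ) : LinearIndependent ℚ ![a, b, c] ↔ det3 a b c ≠ 0 := by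
  rw [det3_eq_det, ← isUnit_iff_ne_zero, ← Matrix.isUnit_iff_isUnit_det,
    ← Matrix.linearIndependent_rows_iff_isUnit]
  rfl

/-- The equivalence between `Fin 3` and a finset of three elements. -/
noncomputable def eqv3 {n : ℕ} {i j k : Fin n} (hij : i < j) (hjk : j < k) :
    Fin 3 ≃ ({i, j, k} : Finset (Fin n)) :=
  Equiv.ofBijective (fun x => ⟨![i, j, k] x, by fin_cases x <;> simp⟩) (by
    have hik : i < k := hij.trans hjk
    constructor
    · intro x y h
      have h' : ![i, j, k] x = ![i, j, k] y := congrArg Subtype.val h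
      fin_cases x <;> fin_cases y <;> simp_all [hij.ne, hjk.ne, hik.ne, hij.ne', hjk.ne', hik.ne']
    · rintro ⟨y, hy⟩
      simp only [Finset.mem_insert, Finset.mem_singleton] at hy
      rcases hy with rfl | rfl | rfl
      · exact ⟨0, rfl⟩
      · exact ⟨1, rfl⟩
      · exact ⟨2, rfl⟩)

theorem li_finset {n m : ℕ} (v : Fin n → Fin m → ℚ) {i j k : Fin n} (hij : i < j) (hjk : j < k) :
    LinearIndependent ℚ (fun x : ({i, j, k} : Finset (Fin n)) => v x) ↔
      LinearIndependent ℚ ![v i, v j, v k] := by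
  rw [← linearIndependent_equiv (eqv3 hij hjk)]
  have : ((fun x : ({i, j, k} : Finset (Fin n)) => v x) ∘ (eqv3 hij hjk)) = ![v i, v j, v k] := by
    funext x
    fin_cases x <;> rfl
  rw [this]

theorem card3_sorted {n : ℕ} {B : Finset (Fin n)} (h : B.card = 3) :
    ∃ i j k : Fin n, i < j ∧ j < k ∧ B = {i, j, k} := by
  let f := B.orderEmbOfFin h
  refine ⟨f 0, f 1, f 2, f.lt_iff_lt.2 (by decide), f.lt_iff_lt.2 (by decide), ?_⟩
  have h1 : Finset.image f Finset.univ = B := by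
    simp [f]
  rw [← h1]
  ext x
  simp [Fin.exists_fin_succ, eq_comm]

/-- If a statement about three indices is invariant under permutations, it suffices to prove it
for increasing triples. -/
theorem sorted_wlog {n : ℕ} (P : Fin n → Fin n → Fin n → Prop)
    (h12 : ∀ i j k, P i j k → P j i k) (h23 : ∀ i j k, P i j k → P i k j)
    (h : ∀ i j k, i < j → j < k → P i j k) (i j k : Fin n) (hij : i ≠ j) (hik : i ≠ k)
    (hjk : j ≠ k) : P i j k := by
  rcases lt_or_gt_of_ne hij with a | a <;> rcases lt_or_gt_of_ne hik with b | b <;>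
    rcases lt_or_gt_of_ne hjk with c | c
  · exact h _ _ _ a c
  · exact h23 _ _ _ (h _ _ _ b c)
  · exact absurd (a.trans c) (by exact not_lt.2 b.le)
  · exact h23 _ _ _ (h12 _ _ _ (h _ _ _ b a))
  · exact h12 _ _ _ (h _ _ _ a b)
  · exact absurd (c.trans a) (by exact not_lt.2 b.le)
  · exact h12 _ _ _ (h23 _ _ _ (h _ _ _ c b))
  · exact h12 _ _ _ (h23 _ _ _ (h12 _ _ _ (h _ _ _ c a)))

/-! ### positions of the basic labels -/

theorem labs_eq (G : List Gad) : labs G =
    pY :: pO :: pE :: pX :: G.zipIdx.flatMap (fun q => glabs q.1 q.2) := rfl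

theorem labs_len (G : List Gad) : 3 < (labs G).length := by
  simp [labs_eq]

/-- the position of `pY` -/
def i0 (G : List Gad) : Fin (labs G).length := ⟨0, by have := labs_len G; omega⟩
/-- the position of `pO` -/
def i1 (G : List Gad) : Fin (labs G).length := ⟨1, by have := labs_len G; omega⟩
/-- the position of `pX` -/
def i3 (G : List Gad) : Fin (labs G).length := ⟨3, labs_len G⟩

theorem labs_i0 (G : List Gad) : (labs G)[i0 G] = pY := rfl
theorem labs_i1 (G : List Gad) : (labs G)[i1 G] = pO := rfl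
theorem labs_i3 (G : List Gad) : (labs G)[i3 G] = pX := rfl

theorem mem_lines {G : List Gad} {L : List Lab} (h : L ∈ lines G) :
    ∃ d g, (d, g) ∈ G.zipIdx ∧ L ∈ glines d g := by
  simp only [lines, List.mem_flatMap] at h
  obtain ⟨⟨d, g⟩, h1, h2⟩ := h
  exact ⟨d, g, h1, h2⟩

theorem pY_notMem_lines {G : List Gad} {L : List Lab} (h : L ∈ lines G) : pY ∉ L := by
  obtain ⟨d, g, -, h2⟩ := mem_lines h
  simp only [glines] at h2
  split at h2 <;>
  · simp only [List.mem_append, List.mem_cons, List.not_mem_nil, or_false] at h2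
    rcases h2 with (rfl | rfl | rfl | rfl | rfl | rfl) | h2
    all_goals first
      | (simp [pY, pu, pK, pU, pr, pV]; done)
      | (rcases h2 with rfl | rfl | rfl <;> simp [pY, pr, pV, pA, pN, pX, pO]; done)
      | (rcases h2 with rfl | rfl <;> simp [pY, pu, pr, pV, pH])

theorem dep_basis (G : List Gad) : dep G pY pO pX = false := by
  rw [← Bool.not_eq_true, dep_iff]
  rintro (h | h | h | h | h | ⟨L, h1, h2, -⟩)
  · simp [pY, pO, pX] at h
  · simp [onP, pY, pO, pX] at h
  · simp [onQ, pY, pO, pX] at h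
  · simp [onR, pY, pO, pX] at h
  · simp [onS, pY, pO, pX] at h
  · exact pY_notMem_lines h1 h2

theorem listed_basis (G : List Gad) :
    Listed (n := (labs G).length) (inst G).2 {i0 G, i1 G, i3 G} :=
  (listed_iff G _).2 ⟨i0 G, i1 G, i3 G, by simp [i0, i1, Fin.lt_def], by simp [i3, i1, Fin.lt_def],
    dep_basis G, rfl⟩

theorem sorted_triple_inj {n : ℕ} {i j k i' j' k' : Fin n} (h1 : i < j) (h2 : j < k) (h1' : i' < j')
    (h2' : j' < k') (h : ({i, j, k} : Finset (Fin n)) = {i', j', k'}) :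
    i = i' ∧ j = j' ∧ k = k' := by
  have a1 : i ∈ ({i', j', k'} : Finset (Fin n)) := by rw [← h]; simp
  have a2 : j ∈ ({i', j', k'} : Finset (Fin n)) := by rw [← h]; simp
  have a3 : k ∈ ({i', j', k'} : Finset (Fin n)) := by rw [← h]; simp
  simp only [Finset.mem_insert, Finset.mem_singleton, Fin.ext_iff] at a1 a2 a3
  rw [Fin.lt_def] at h1 h2 h1' h2'
  simp only [Fin.ext_iff]
  omega

theorem listed_sorted (G : List Gad) {i j k : Fin (labs G).length} (hij : i < j) (hjk : j < k) :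
    Listed (n := (labs G).length) (inst G).2 {i, j, k} ↔
      dep G (labs G)[i] (labs G)[j] (labs G)[k] = false := by
  rw [listed_iff]
  constructor
  · rintro ⟨i', j', k', h1, h2, hd, h⟩
    obtain ⟨rfl, rfl, rfl⟩ := sorted_triple_inj hij hjk h1 h2 h
    exact hd
  · intro hd
    exact ⟨i, j, k, hij, hjk, hd, rfl⟩

theorem i0_lt (G : List Gad) : i0 G < i1 G := by simp [i0, i1, Fin.lt_def]
theorem i1_lt (G : List Gad) : i1 G < i3 G := by simp [i1, i3, Fin.lt_def]

theorem finrank_span_finset {n m : ℕ} (v : Fin n → Fin m → ℚ) (B : Finset (Fin n))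
    (h : LinearIndependent ℚ (fun i : B => v i)) :
    Module.finrank ℚ (Submodule.span ℚ (v '' (B : Set (Fin n)))) = B.card := by
  have h1 : v '' (B : Set (Fin n)) = Set.range (fun i : B => v i) := by
    rw [Set.image_eq_range]
    rfl
  rw [h1, finrank_span_eq_card h]
  simp

theorem planeRep_of_repQ (G : List Gad) (h : RepQ (inst G)) : PlaneRep G := by
  classical
  obtain ⟨m, v, hv⟩ := h
  change Fin (labs G).length → Fin m → ℚ at v
  replace hv : ∀ B : Finset (Fin (labs G).length), (Listed (n := (labs G).length) (inst G).2 B ↔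
      (LinearIndependent ℚ (fun i : B => v i) ∧
        Submodule.span ℚ (v '' (B : Set (Fin (labs G).length))) =
          Submodule.span ℚ (Set.range v))) := hv
  set W := Submodule.span ℚ (Set.range v) with hW
  have hB := (hv {i0 G, i1 G, i3 G}).1 (listed_basis G)
  have hcard : ({i0 G, i1 G, i3 G} : Finset (Fin (labs G).length)).card = 3 := by
    rw [Finset.card_eq_three]
    exact ⟨_, _, _, (i0_lt G).ne, ((i0_lt G).trans (i1_lt G)).ne, (i1_lt G).ne, rfl⟩
  have hfr : Module.finrank ℚ W = 3 := by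
    rw [← hB.2, finrank_span_finset v _ hB.1, hcard]
  let e : W ≃ₗ[ℚ] (Fin 3 → ℚ) := LinearEquiv.ofFinrankEq _ _ (by simp [hfr])
  let u : Fin (labs G).length → W := fun i => ⟨v i, Submodule.subset_span ⟨i, rfl⟩⟩
  let c : Fin (labs G).length → (Fin 3 → ℚ) := fun i => e (u i)
  have hli : ∀ i j k, LinearIndependent ℚ ![c i, c j, c k] ↔
      LinearIndependent ℚ ![v i, v j, v k] := by
    intro i j k
    have e1 : ![c i, c j, c k] = e.toLinearMap ∘ ![u i, u j, u k] := by
      funext x; fin_cases x <;> rfl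
    have e2 : ![v i, v j, v k] = W.subtype ∘ ![u i, u j, u k] := by
      funext x; fin_cases x <;> rfl
    rw [e1, e2, LinearMap.linearIndependent_iff _ e.ker,
      LinearMap.linearIndependent_iff _ W.ker_subtype]
  have key : ∀ i j k : Fin (labs G).length, i < j → j < k →
      (det3 (c i) (c j) (c k) = 0 ↔ dep G (labs G)[i] (labs G)[j] (labs G)[k] = true) := by
    intro i j k hij hjk
    rw [← not_iff_not, ← ne_eq, ← li_iff_det3, hli, ← li_finset v hij hjk, Bool.not_eq_true,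
      ← listed_sorted G hij hjk, hv]
    constructor
    · intro hl
      refine ⟨hl, ?_⟩
      have hcard' : ({i, j, k} : Finset (Fin (labs G).length)).card = 3 := by
        rw [Finset.card_eq_three]
        exact ⟨_, _, _, hij.ne, (hij.trans hjk).ne, hjk.ne, rfl⟩
      refine Submodule.eq_of_le_of_finrank_eq (Submodule.span_mono (Set.image_subset_range _ _)) ?_
      rw [finrank_span_finset v _ hl, hcard', hfr]
    · exact fun h => h.1
  have key2 : ∀ i j k : Fin (labs G).length, i ≠ j → i ≠ k → j ≠ k →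
      (det3 (c i) (c j) (c k) = 0 ↔ dep G (labs G)[i] (labs G)[j] (labs G)[k] = true) := by
    refine sorted_wlog _ ?_ ?_ key
    · intro i j k h
      rw [det3_swap12, neg_eq_zero, dep_swap12, h]
    · intro i j k h
      rw [det3_swap23, neg_eq_zero, dep_swap23, h]
  have hidx : ∀ l ∈ labs G, ∃ i : Fin (labs G).length, (labs G)[i] = l := by
    intro l hl
    obtain ⟨i, hi, rfl⟩ := List.getElem_of_mem hl
    exact ⟨⟨i, hi⟩, rfl⟩
  have : Nonempty (Fin (labs G).length) := ⟨i0 G⟩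
  choose! idx hidx using hidx
  refine ⟨fun l => if h : l ∈ labs G then c (idx l) else 0, ?_⟩
  intro l₁ h₁ l₂ h₂ l₃ h₃
  simp only [h₁, h₂, h₃, dif_pos]
  by_cases h12 : l₁ = l₂
  · subst h12
    refine iff_of_true (by unfold det3; ring) ((dep_iff _ _ _ _).2 (Or.inl (Or.inl rfl)))
  by_cases h13 : l₁ = l₃
  · subst h13
    refine iff_of_true (by unfold det3; ring) ((dep_iff _ _ _ _).2 (Or.inl (Or.inr (Or.inl rfl))))
  by_cases h23 : l₂ = l₃
  · subst h23
    refine iff_of_true (by unfold det3; ring) ((dep_iff _ _ _ _).2 (Or.inl (Or.inr (Or.inr rfl))))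
  have hne : ∀ a ∈ labs G, ∀ b ∈ labs G, a ≠ b → idx a ≠ idx b := by
    intro a ha b hb hab h
    apply hab
    rw [← hidx a ha, ← hidx b hb, h]
  rw [key2 _ _ _ (hne _ h₁ _ h₂ h12) (hne _ h₁ _ h₃ h13) (hne _ h₂ _ h₃ h23), hidx _ h₁,
    hidx _ h₂, hidx _ h₃]

theorem repQ_of_planeRep (G : List Gad) (h : PlaneRep G) : RepQ (inst G) := by
  classical
  obtain ⟨p, hp⟩ := h
  have hp' : ∀ i j k : Fin (labs G).length,
      (det3 (p (labs G)[i]) (p (labs G)[j]) (p (labs G)[k]) = 0 ↔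
        dep G (labs G)[i] (labs G)[j] (labs G)[k] = true) := fun i j k =>
    hp _ (List.getElem_mem _) _ (List.getElem_mem _) _ (List.getElem_mem _)
  let v : Fin (labs G).length → Fin 3 → ℚ := fun i => p (labs G)[i]
  have htop : ∀ B : Finset (Fin (labs G).length), LinearIndependent ℚ (fun i : B => v i) →
      B.card = 3 → Submodule.span ℚ (v '' (B : Set (Fin (labs G).length))) = ⊤ := by
    intro B hB hc
    apply Submodule.eq_top_of_finrank_eq
    rw [finrank_span_finset v B hB, hc]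
    simp
  have hli : ∀ {i j k : Fin (labs G).length}, i < j → j < k →
      (LinearIndependent ℚ (fun x : ({i, j, k} : Finset (Fin (labs G).length)) => v x) ↔
        dep G (labs G)[i] (labs G)[j] (labs G)[k] = false) := by
    intro i j k hij hjk
    rw [li_finset v hij hjk, li_iff_det3, ← Bool.not_eq_true, ← hp' i j k]
  have hc3 : ∀ {i j k : Fin (labs G).length}, i < j → j < k →
      ({i, j, k} : Finset (Fin (labs G).length)).card = 3 := by
    intro i j k hij hjk
    rw [Finset.card_eq_three]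
    exact ⟨_, _, _, hij.ne, (hij.trans hjk).ne, hjk.ne, rfl⟩
  have hall : Submodule.span ℚ (Set.range v) = ⊤ := by
    rw [eq_top_iff, ← htop _ ((hli (i0_lt G) (i1_lt G)).2 (dep_basis G))
      (hc3 (i0_lt G) (i1_lt G))]
    exact Submodule.span_mono (Set.image_subset_range _ _)
  refine ⟨3, v, ?_⟩
  change ∀ B : Finset (Fin (labs G).length), (Listed (n := (labs G).length) (inst G).2 B ↔
      (LinearIndependent ℚ (fun i : B => v i) ∧
        Submodule.span ℚ (v '' (B : Set (Fin (labs G).length))) =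
          Submodule.span ℚ (Set.range v)))
  intro B
  rw [hall]
  constructor
  · intro hB
    obtain ⟨i, j, k, hij, hjk, hd, rfl⟩ := (listed_iff G B).1 hB
    exact ⟨(hli hij hjk).2 hd, htop _ ((hli hij hjk).2 hd) (hc3 hij hjk)⟩
  · rintro ⟨h1, h2⟩
    have hc : B.card = 3 := by
      rw [← finrank_span_finset v B h1, h2]
      simp
    obtain ⟨i, j, k, hij, hjk, rfl⟩ := card3_sorted hc
    exact (listed_sorted G hij hjk).2 ((hli hij hjk).1 h1)

theorem repQ_iff (G : List Gad) : RepQ (inst G) ↔ PlaneRep G :=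
  ⟨planeRep_of_repQ G, repQ_of_planeRep G⟩

end Pool.Agent.H881R2.Mat
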