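import Pool.Agent.H881R2.Mat.Generic3

/-!
# A solvable system of wires gives a plane configuration in general position, V
-/

set_option autoImplicit false

namespace Pool.Agent.H881R2.Mat

namespace Gen

open Polynomial

theorem dRSQ {R : Type} [CommRing R] (a b c : R) :
    dt (vecT .R a) (vecT .S b) (vecT .Q c) = a * b - c := by
  simp only [dt, vecT, Matrix.cons_val]
  ring

theorem dPRQ {R : Type} [CommRing R] (a b c : R) :
    dt (vecT .P a) (vecT .R b) (vecT .Q c) = -(a + b - c) := by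
  simp only [dt, vecT, Matrix.cons_val]
  ring

variable {G : List Gad} {w : ℕ → ℚ} {M : ℕ}

theorem vec_onP {l : Lab} (h : Occ G l) (ht : onP l = true) : vec w M l 0 = 0 := by
  cases h <;> first | rfl | simp [onP, pY, pO, pE, pX, pu, pr, pU, pV, pK, pA, pN, pH] at ht

theorem vec_onQ {l : Lab} (h : Occ G l) (ht : onQ l = true) : vec w M l 0 = vec w M l 2 := by
  cases h <;> first | rfl | simp [onQ, pY, pO, pE, pX, pu, pr, pU, pV, pK, pA, pN, pH] at ht

theorem vec_onR {l : Lab} (h : Occ G l) (ht : onR l = true) : vec w M l 2 = 0 := by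
  cases h <;> first | rfl | simp [onR, pY, pO, pE, pX, pu, pr, pU, pV, pK, pA, pN, pH] at ht

theorem vec_onS {l : Lab} (h : Occ G l) (ht : onS l = true) : vec w M l 1 = 0 := by
  cases h with
  | O => simp [vec, vecT, ty, mv, co, pO]
  | E => simp [vec, vecT, ty, mv, co, pE]
  | X => simp [vec, vecT, ty, mv, co, pX]
  | _ =>
    first
      | rfl
      | simp [onS, pY, pO, pE, pX, pu, pr, pU, pV, pK, pA, pN, pH] at ht

theorem dt_u (hG : Good G w M) {g : ℕ} {d : Gad} {a : ℕ} (h : At G g d) (ha : Wr d a) :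
    dt (vec w M (pu a)) (vec w M (pK g a)) (vec w M (pU g)) = 0 := by
  have h1 := hG.lt h ha
  have h2 := Mle M g
  have e : vec w M (pu a) = vecT .R (C 1 * X ^ (a + 1)) := rfl
  have f : vec w M (pK g a) = vecT .S (C 1 * X ^ (M * (g + 1) - (a + 1))) := rfl
  have k : vec w M (pU g) = vecT .Q (C 1 * X ^ (M * (g + 1))) := rfl
  rw [e, f, k, dRSQ, sub_eq_zero, show C (1 : ℚ) * X ^ (a + 1) * (C 1 * X ^ (M * (g + 1) - (a + 1))) =
    C 1 * X ^ ((a + 1) + (M * (g + 1) - (a + 1))) by rw [pow_add, C_1]; ring,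
    show (a + 1) + (M * (g + 1) - (a + 1)) = M * (g + 1) by omega]

theorem dt_r (hG : Good G w M) {g : ℕ} {d : Gad} {a : ℕ} (h : At G g d) (ha : Wr d a) :
    dt (vec w M (pr a)) (vec w M (pK g a)) (vec w M (pV g a)) = 0 := by
  have h1 := hG.lt h ha
  have h2 := Mle M g
  have e : vec w M (pr a) = vecT .R (C (w a) * X ^ (a + 1)) := rfl
  have f : vec w M (pK g a) = vecT .S (C 1 * X ^ (M * (g + 1) - (a + 1))) := rfl
  have k : vec w M (pV g a) = vecT .Q (C (w a) * X ^ (M * (g + 1))) := rfl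
  rw [e, f, k, dRSQ, sub_eq_zero,
    show C (w a) * X ^ (a + 1) * (C 1 * X ^ (M * (g + 1) - (a + 1))) =
    C (w a) * X ^ ((a + 1) + (M * (g + 1) - (a + 1))) by rw [pow_add, C_1]; ring,
    show (a + 1) + (M * (g + 1) - (a + 1)) = M * (g + 1) by omega]

theorem dt_mul (hG : Good G w M) {g : ℕ} {d : Gad} (h : At G g d) (hd : d.1 = true) :
    dt (vec w M (pu d.2.2.1)) (vec w M (pH g d.2.1 d.2.2.1)) (vec w M (pV g d.2.1)) = 0 ∧
    dt (vec w M (pr d.2.2.1)) (vec w M (pH g d.2.1 d.2.2.1)) (vec w M (pV g d.2.2.2)) = 0 := by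
  have h1 := hG.lt h (Or.inr (Or.inl rfl))
  have h2 := Mle M g
  have h3 := hG.mul h hd
  have e : vec w M (pu d.2.2.1) = vecT .R (C 1 * X ^ (d.2.2.1 + 1)) := rfl
  have e' : vec w M (pr d.2.2.1) = vecT .R (C (w d.2.2.1) * X ^ (d.2.2.1 + 1)) := rfl
  have f : vec w M (pH g d.2.1 d.2.2.1) =
    vecT .S (C (w d.2.1) * X ^ (M * (g + 1) - (d.2.2.1 + 1))) := rfl
  have k : vec w M (pV g d.2.1) = vecT .Q (C (w d.2.1) * X ^ (M * (g + 1))) := rfl
  have k' : vec w M (pV g d.2.2.2) = vecT .Q (C (w d.2.2.2) * X ^ (M * (g + 1))) := rfl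
  constructor
  · rw [e, f, k, dRSQ, sub_eq_zero,
      show C (1 : ℚ) * X ^ (d.2.2.1 + 1) * (C (w d.2.1) * X ^ (M * (g + 1) - (d.2.2.1 + 1))) =
      C (w d.2.1) * X ^ ((d.2.2.1 + 1) + (M * (g + 1) - (d.2.2.1 + 1))) by rw [pow_add, C_1]; ring,
      show (d.2.2.1 + 1) + (M * (g + 1) - (d.2.2.1 + 1)) = M * (g + 1) by omega]
  · rw [e', f, k', dRSQ, sub_eq_zero,
      show C (w d.2.2.1) * X ^ (d.2.2.1 + 1) *
        (C (w d.2.1) * X ^ (M * (g + 1) - (d.2.2.1 + 1))) =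
      (C (w d.2.1) * C (w d.2.2.1)) * X ^ ((d.2.2.1 + 1) + (M * (g + 1) - (d.2.2.1 + 1))) by
        rw [pow_add]; ring,
      show (d.2.2.1 + 1) + (M * (g + 1) - (d.2.2.1 + 1)) = M * (g + 1) by omega, ← C_mul, h3]

theorem dt_add (hG : Good G w M) {g : ℕ} {d : Gad} (h : At G g d) (hd : d.1 = false) :
    dt (vec w M (pA g d.2.1)) (vec w M (pV g d.2.1)) (vec w M pX) = 0 ∧
    dt (vec w M pO) (vec w M (pN g d.2.2.1)) (vec w M (pV g d.2.2.1)) = 0 ∧
    dt (vec w M (pA g d.2.1)) (vec w M (pN g d.2.2.1)) (vec w M (pV g d.2.2.2)) = 0 := by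
  have h3 := hG.add h hd
  have e : vec w M (pA g d.2.1) = vecT .P (C (w d.2.1) * X ^ (M * (g + 1))) := rfl
  have k1 : vec w M (pV g d.2.1) = vecT .Q (C (w d.2.1) * X ^ (M * (g + 1))) := rfl
  have k2 : vec w M (pV g d.2.2.1) = vecT .Q (C (w d.2.2.1) * X ^ (M * (g + 1))) := rfl
  have k3 : vec w M (pV g d.2.2.2) = vecT .Q (C (w d.2.2.2) * X ^ (M * (g + 1))) := rfl
  have x : vec w M pX = vecT .R (C 0 * X ^ 0) := rfl
  have o : vec w M pO = vecT .P (C 0 * X ^ 0) := rfl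
  have n : vec w M (pN g d.2.2.1) = vecT .R (C (w d.2.2.1) * X ^ (M * (g + 1))) := rfl
  refine ⟨?_, ?_, ?_⟩
  · rw [e, k1, x, dPQR, C_0]
    ring
  · rw [o, n, k2, dPRQ, C_0]
    ring
  · rw [e, n, k3, dPRQ, ← h3, C_add]
    ring

/-- dependence implies the vanishing of the determinant -/
theorem dt_of_dep (hG : Good G w M) {l₁ l₂ l₃ : Lab} (h₁ : Occ G l₁) (h₂ : Occ G l₂)
    (h₃ : Occ G l₃) (h : Dep G l₁ l₂ l₃) : dt (vec w M l₁) (vec w M l₂) (vec w M l₃) = 0 := by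
  rcases h with (h | h | h) | ⟨a1, a2, a3⟩ | ⟨a1, a2, a3⟩ | ⟨a1, a2, a3⟩ | ⟨a1, a2, a3⟩ |
    ⟨L, hL, a1, a2, a3⟩
  · subst h; unfold dt; ring
  · subst h; unfold dt; ring
  · subst h; unfold dt; ring
  · unfold dt
    rw [vec_onP h₁ a1, vec_onP h₂ a2, vec_onP h₃ a3]
    ring
  · unfold dt
    rw [vec_onQ h₁ a1, vec_onQ h₂ a2, vec_onQ h₃ a3]
    ring
  · unfold dt
    rw [vec_onR h₁ a1, vec_onR h₂ a2, vec_onR h₃ a3]
    ring
  · unfold dt
    rw [vec_onS h₁ a1, vec_onS h₂ a2, vec_onS h₃ a3]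
    ring
  · unfold lines at hL
    rw [List.mem_flatMap] at hL
    obtain ⟨⟨d, g⟩, hq, hL⟩ := hL
    have hat : At G g d := mem_zipIdx_iff.1 hq
    simp only [glines] at hL
    rw [List.mem_append] at hL
    rcases hL with hL | hL
    · simp only [List.mem_cons, List.not_mem_nil, or_false] at hL
      rcases hL with rfl | rfl | rfl | rfl | rfl | rfl
      · exact dt_mem3 _ (dt_u hG hat (Or.inl rfl)) a1 a2 a3
      · exact dt_mem3 _ (dt_r hG hat (Or.inl rfl)) a1 a2 a3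
      · exact dt_mem3 _ (dt_u hG hat (Or.inr (Or.inl rfl))) a1 a2 a3
      · exact dt_mem3 _ (dt_r hG hat (Or.inr (Or.inl rfl))) a1 a2 a3
      · exact dt_mem3 _ (dt_u hG hat (Or.inr (Or.inr rfl))) a1 a2 a3
      · exact dt_mem3 _ (dt_r hG hat (Or.inr (Or.inr rfl))) a1 a2 a3
    · split_ifs at hL with hd
      · simp only [List.mem_cons, List.not_mem_nil, or_false] at hL
        rcases hL with rfl | rfl
        · exact dt_mem3 _ (dt_mul hG hat hd).1 a1 a2 a3
        · exact dt_mem3 _ (dt_mul hG hat hd).2 a1 a2 a3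
      · have hd' : d.1 = false := by simpa using hd
        simp only [List.mem_cons, List.not_mem_nil, or_false] at hL
        rcases hL with rfl | rfl | rfl
        · exact dt_mem3 _ (dt_add hG hat hd').1 a1 a2 a3
        · exact dt_mem3 _ (dt_add hG hat hd').2.1 a1 a2 a3
        · exact dt_mem3 _ (dt_add hG hat hd').2.2 a1 a2 a3

/-- a bound for the numbers of the wires -/
theorem exists_big (G : List Gad) : ∃ M : ℕ, ∀ d ∈ G, ∀ a, Wr d a → a + 1 < M := by
  induction G with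
  | nil => exact ⟨0, by simp⟩
  | cons d G ih =>
    obtain ⟨M, hM⟩ := ih
    refine ⟨M + (d.2.1 + d.2.2.1 + d.2.2.2) + 2, ?_⟩
    intro e he a ha
    rcases List.mem_cons.1 he with rfl | he
    · rcases ha with rfl | rfl | rfl <;> omega
    · have := hM e he a ha
      omega

/-- a point where finitely many non-zero polynomials do not vanish -/
theorem exists_point (L : List ℚ[X]) (hL : ∀ q ∈ L, q ≠ 0) :
    ∃ B : ℚ, ∀ q ∈ L, q.eval B ≠ 0 := by
  have key : ∃ p : ℚ[X], p ≠ 0 ∧ ∀ B : ℚ, p.eval B ≠ 0 → ∀ q ∈ L, q.eval B ≠ 0 := by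
    induction L with
    | nil => exact ⟨1, one_ne_zero, by simp⟩
    | cons q L ih =>
      obtain ⟨p, hp, h⟩ := ih (fun q' hq' => hL q' (List.mem_cons_of_mem _ hq'))
      refine ⟨q * p, mul_ne_zero (hL q List.mem_cons_self) hp, ?_⟩
      intro B hB q' hq'
      rw [eval_mul] at hB
      rcases List.mem_cons.1 hq' with rfl | hq'
      · exact left_ne_zero_of_mul hB
      · exact h B (right_ne_zero_of_mul hB) q' hq'
  obtain ⟨p, hp, h⟩ := key
  by_contra hcon
  push Not at hcon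
  apply hp
  apply Polynomial.funext
  intro B
  rw [eval_zero]
  by_contra hB
  obtain ⟨q, hq, hq0⟩ := hcon B
  exact h B hB q hq hq0

end Gen

open Gen Polynomial in
/-- Task G: a solvable system has a plane configuration in general position. -/
theorem planeRep_of_wsat (G : List Gad) (h : WSat G) : PlaneRep G := by
  classical
  obtain ⟨w, hw⟩ := h
  obtain ⟨M, hM⟩ := exists_big G
  have hG : Good G w M := ⟨hw, hM⟩
  let T : List (Lab × Lab × Lab) := (labs G) ×ˢ ((labs G) ×ˢ (labs G))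
  let Ls : List ℚ[X] := (T.map (fun t => dt (vec w M t.1) (vec w M t.2.1) (vec w M t.2.2))).filter
    (fun q => decide (q ≠ 0))
  obtain ⟨B, hB⟩ := exists_point Ls (by
    intro q hq
    have := (List.mem_filter.1 hq).2
    simpa using this)
  refine ⟨fun l i => (vec w M l i).eval B, ?_⟩
  intro l₁ h₁ l₂ h₂ l₃ h₃
  have hdet : det3 (fun i => (vec w M l₁ i).eval B) (fun i => (vec w M l₂ i).eval B)
      (fun i => (vec w M l₃ i).eval B) = (dt (vec w M l₁) (vec w M l₂) (vec w M l₃)).eval B := by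
    unfold det3 dt
    simp only [eval_add, eval_sub, eval_mul]
  rw [hdet, dep_iff]
  constructor
  · intro h0
    apply dep_of_dt hG (occ_of_mem h₁) (occ_of_mem h₂) (occ_of_mem h₃)
    by_contra hne
    refine hB _ ?_ h0
    refine List.mem_filter.2 ⟨List.mem_map.2 ⟨(l₁, l₂, l₃), ?_, rfl⟩, by simpa using hne⟩
    exact List.mem_product.2 ⟨h₁, List.mem_product.2 ⟨h₂, h₃⟩⟩
  · intro hd
    rw [dt_of_dep hG (occ_of_mem h₁) (occ_of_mem h₂) (occ_of_mem h₃) hd, eval_zero]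

end Pool.Agent.H881R2.Mat
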