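import Pool.Agent.H881R2.Mat.RepIff

set_option autoImplicit false

namespace Pool.Agent.H881R2.Mat

open Pool.Agent.NPC

namespace TaskM

/-- symbolic labels of one gadget -/
inductive SL : Type
  | O | X
  | u (r : Fin 3) | rr (r : Fin 3)
  | U
  | V (r : Fin 3) | K (r : Fin 3)
  | A | N | H
  deriving DecidableEq

/-- the wires of a gadget -/
def W (d : Gad) : Fin 3 → ℕ := ![d.2.1, d.2.2.1, d.2.2.2]

theorem W_inj {d : Gad} (h : d.2.1 ≠ d.2.2.1 ∧ d.2.1 ≠ d.2.2.2 ∧ d.2.2.1 ≠ d.2.2.2) :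
    Function.Injective (W d) := by
  obtain ⟨h1, h2, h3⟩ := h
  intro a b hab
  fin_cases a <;> fin_cases b <;> simp_all [W]

/-- the label of a symbolic label -/
def dc (d : Gad) (g : ℕ) : SL → Lab
  | .O => pO
  | .X => pX
  | .u r => pu (W d r)
  | .rr r => pr (W d r)
  | .U => pU g
  | .V r => pV g (W d r)
  | .K r => pK g (W d r)
  | .A => pA g (W d 0)
  | .N => pN g (W d 1)
  | .H => pH g (W d 0) (W d 1)

/-- the kind of a symbolic label -/
def kd : SL → ℕ
  | .O => 1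
  | .X => 3
  | .u _ => 4
  | .rr _ => 5
  | .U => 6
  | .V _ => 7
  | .K _ => 8
  | .A => 9
  | .N => 10
  | .H => 11

theorem dc_fst (d : Gad) (g : ℕ) (s : SL) : (dc d g s).1 = kd s := by cases s <;> rfl

theorem dc_snd (d : Gad) (g : ℕ) (s : SL) (h : 6 ≤ kd s) : (dc d g s).2.1 = g := by
  cases s <;> first | rfl | (simp [kd] at h)

theorem dc_inj {d : Gad} (g : ℕ)
    (h : d.2.1 ≠ d.2.2.1 ∧ d.2.1 ≠ d.2.2.2 ∧ d.2.2.1 ≠ d.2.2.2) :
    Function.Injective (dc d g) := by
  have hW := W_inj h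
  intro a b hab
  cases a <;> cases b <;>
    first
      | rfl
      | (exfalso; revert hab; simp [dc, pO, pX, pu, pr, pU, pV, pK, pA, pN, pH]; done)
      | (simp only [dc, pu, pr, pV, pK, Prod.mk.injEq, true_and, and_true] at hab
         rw [hW hab])

/-- the short lines of a gadget, symbolically -/
def sl (t : Bool) : List (List SL) :=
  [[.u 0, .K 0, .U], [.rr 0, .K 0, .V 0], [.u 1, .K 1, .U], [.rr 1, .K 1, .V 1],
   [.u 2, .K 2, .U], [.rr 2, .K 2, .V 2]] ++
  (if t = true then [[.u 1, .H, .V 0], [.rr 1, .H, .V 2]]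
   else [[.A, .V 0, .X], [.O, .N, .V 1], [.A, .N, .V 2]])

theorem glines_eq (d : Gad) (g : ℕ) : glines d g = (sl d.1).map (List.map (dc d g)) := by
  rcases d with ⟨t, x, y, z⟩
  cases t <;> rfl

theorem sl_two : ∀ t : Bool, ∀ L ∈ sl t, ∀ L' ∈ sl t, ∀ a ∈ L, ∀ b ∈ L, a ≠ b → a ∈ L' → b ∈ L' →
    L = L' := by decide

theorem sl_small : ∀ t : Bool, ∀ L ∈ sl t, ∀ a ∈ L, ∀ b ∈ L, kd a < 6 → kd b < 6 → a = b := by
  decide

/-- the long lines: sets of kinds -/
def lk : Fin 4 → List ℕ := ![[0, 1, 9], [0, 2, 6, 7], [0, 3, 4, 5, 10], [1, 2, 3, 8, 11]]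

theorem sl_long : ∀ t : Bool, ∀ L ∈ sl t, ∀ q : Fin 4, ∀ a ∈ L, ∀ b ∈ L, kd a ∈ lk q →
    kd b ∈ lk q → a = b := by
  decide

theorem lk_two : ∀ q q' : Fin 4, q ≠ q' → ∀ a ∈ lk q, ∀ b ∈ lk q, a ∈ lk q' → b ∈ lk q' →
    a = b ∧ a < 4 := by
  decide

theorem dep_lk (G : List Gad) (a b c : Lab) : DepP G a b c ↔ ((a = b ∨ a = c ∨ b = c) ∨
    (∃ q : Fin 4, a.1 ∈ lk q ∧ b.1 ∈ lk q ∧ c.1 ∈ lk q) ∨
      ∃ L ∈ lines G, a ∈ L ∧ b ∈ L ∧ c ∈ L) := by
  have hP : ∀ l : Lab, onP l = true ↔ l.1 ∈ lk 0 := by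
    intro l; simp [onP, lk]
  have hQ : ∀ l : Lab, onQ l = true ↔ l.1 ∈ lk 1 := by
    intro l; simp [onQ, lk]
  have hR : ∀ l : Lab, onR l = true ↔ l.1 ∈ lk 2 := by
    intro l; simp [onR, lk]
  have hS : ∀ l : Lab, onS l = true ↔ l.1 ∈ lk 3 := by
    intro l; simp [onS, lk]
  unfold DepP
  rw [hP, hP, hP, hQ, hQ, hQ, hR, hR, hR, hS, hS, hS]
  constructor
  · rintro (h | h | h | h | h | h)
    · exact Or.inl h
    · exact Or.inr (Or.inl ⟨0, h⟩)
    · exact Or.inr (Or.inl ⟨1, h⟩)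
    · exact Or.inr (Or.inl ⟨2, h⟩)
    · exact Or.inr (Or.inl ⟨3, h⟩)
    · exact Or.inr (Or.inr h)
  · rintro (h | ⟨q, h⟩ | h)
    · exact Or.inl h
    · fin_cases q
      · exact Or.inr (Or.inl h)
      · exact Or.inr (Or.inr (Or.inl h))
      · exact Or.inr (Or.inr (Or.inr (Or.inl h)))
      · exact Or.inr (Or.inr (Or.inr (Or.inr (Or.inl h))))
    · exact Or.inr (Or.inr (Or.inr (Or.inr (Or.inr h))))

/-- labels of small kind are determined by the kind -/
theorem labs_small (G : List Gad) {l : Lab} (hl : l ∈ labs G) (h : l.1 < 4) :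
    l = (l.1, 0, 0, 0) := by
  rw [labs_eq] at hl
  simp only [List.mem_cons, List.mem_flatMap] at hl
  rcases hl with rfl | rfl | rfl | rfl | ⟨q, -, hl⟩
  · rfl
  · rfl
  · rfl
  · rfl
  · exfalso
    simp only [glabs] at hl
    split at hl <;>
    · simp only [List.mem_append, List.mem_cons, List.not_mem_nil, or_false] at hl
      rcases hl with (rfl | rfl | rfl | rfl | rfl | rfl | rfl | rfl | rfl | rfl | rfl | rfl | rfl)
        | hl
      all_goals first
        | (simp [pu, pr, pU, pV, pK] at h; done)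
        | (rcases hl with rfl | rfl <;> simp [pA, pN] at h; done)
        | (subst hl; simp [pH] at h; done)

/-- a line: a long line or a short line -/
def OnL (G : List Gad) (x : Fin 4 ⊕ List Lab) (l : Lab) : Prop :=
  match x with
  | .inl q => l.1 ∈ lk q
  | .inr L => L ∈ lines G ∧ l ∈ L

theorem dep_line (G : List Gad) (a b c : Lab) : DepP G a b c ↔ ((a = b ∨ a = c ∨ b = c) ∨
    ∃ x, OnL G x a ∧ OnL G x b ∧ OnL G x c) := by
  rw [dep_lk]
  constructor
  · rintro (h | ⟨q, h⟩ | ⟨L, hL, h1, h2, h3⟩)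
    · exact Or.inl h
    · exact Or.inr ⟨.inl q, h⟩
    · exact Or.inr ⟨.inr L, ⟨hL, h1⟩, ⟨hL, h2⟩, ⟨hL, h3⟩⟩
  · rintro (h | ⟨q | L, h⟩)
    · exact Or.inl h
    · exact Or.inr (Or.inl ⟨q, h⟩)
    · exact Or.inr (Or.inr ⟨L, h.1.1, h.1.2, h.2.1.2, h.2.2.2⟩)

theorem mem_lines' {G : List Gad} {L : List Lab} (h : L ∈ lines G) :
    ∃ d g, (d, g) ∈ G.zipIdx ∧ ∃ L' ∈ sl d.1, L = L'.map (dc d g) := by
  obtain ⟨d, g, h1, h2⟩ := mem_lines h
  rw [glines_eq, List.mem_map] at h2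
  obtain ⟨L', h3, rfl⟩ := h2
  exact ⟨d, g, h1, L', h3, rfl⟩

theorem long_short {G : List Gad} {L : List Lab} (h : L ∈ lines G) {q : Fin 4}
    {a b : Lab} (ha : a ∈ L) (hb : b ∈ L) (ha' : a.1 ∈ lk q) (hb' : b.1 ∈ lk q) : a = b := by
  obtain ⟨d, g, h1, L', h3, rfl⟩ := mem_lines' h
  obtain ⟨s, hs, rfl⟩ := List.mem_map.1 ha
  obtain ⟨s', hs', rfl⟩ := List.mem_map.1 hb
  rw [dc_fst] at ha' hb'
  rw [sl_long d.1 L' h3 q s hs s' hs' ha' hb']

theorem short_short {G : List Gad} (hG : Distinct G) {L M : List Lab} (hL : L ∈ lines G)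
    (hM : M ∈ lines G) {a b : Lab} (haL : a ∈ L) (hbL : b ∈ L) (haM : a ∈ M) (hbM : b ∈ M)
    (hab : a ≠ b) : L = M := by
  obtain ⟨d, g, h1, L', h3, rfl⟩ := mem_lines' hL
  obtain ⟨d', g', h1', M', h3', rfl⟩ := mem_lines' hM
  obtain ⟨s, hs, rfl⟩ := List.mem_map.1 haL
  obtain ⟨t, ht, rfl⟩ := List.mem_map.1 hbL
  obtain ⟨s', hs', hss⟩ := List.mem_map.1 haM
  obtain ⟨t', ht', htt⟩ := List.mem_map.1 hbM
  have hst : s ≠ t := fun h => hab (by rw [h])
  -- same gadget
  have hgg : g = g' := by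
    have hk : 6 ≤ kd s ∨ 6 ≤ kd t := by
      by_contra hcon
      push Not at hcon
      exact hst (sl_small d.1 L' h3 s hs t ht hcon.1 hcon.2)
    rcases hk with hk | hk
    · have h5 : kd s' = kd s := by rw [← dc_fst d' g' s', hss, dc_fst]
      rw [← dc_snd d g s hk, ← hss, dc_snd d' g' s' (by omega)]
    · have h5 : kd t' = kd t := by rw [← dc_fst d' g' t', htt, dc_fst]
      rw [← dc_snd d g t hk, ← htt, dc_snd d' g' t' (by omega)]
  subst hgg
  have hdd : d = d' := by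
    rw [List.mem_zipIdx_iff_getElem?] at h1 h1'
    have := h1.symm.trans h1'
    simpa using this
  subst hdd
  have hd : d ∈ G := by
    rw [List.mem_zipIdx_iff_getElem?] at h1
    exact List.mem_of_getElem? h1
  have hinj := dc_inj g (hG d hd)
  have e1 := hinj hss
  have e2 := hinj htt
  subst e1 e2
  rw [sl_two d.1 L' h3 M' h3' _ hs _ ht hst hs' ht']

theorem line_unique {G : List Gad} (hG : Distinct G) {x y : Fin 4 ⊕ List Lab} {a b : Lab}
    (ha : a ∈ labs G) (hb : b ∈ labs G) (hab : a ≠ b) (h1 : OnL G x a) (h2 : OnL G x b)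
    (h3 : OnL G y a) (h4 : OnL G y b) : x = y := by
  rcases x with q | L <;> rcases y with q' | M
  · by_contra hne
    have hq : q ≠ q' := fun h => hne (by rw [h])
    obtain ⟨h5, h6⟩ := lk_two q q' hq _ h1 _ h2 h3 h4
    apply hab
    rw [labs_small G ha h6, labs_small G hb (h5 ▸ h6), h5]
  · exact absurd (long_short h3.1 h3.2 h4.2 h1 h2) hab
  · exact absurd (long_short h1.1 h1.2 h2.2 h3 h4) hab
  · rw [short_short hG h1.1 h3.1 h1.2 h2.2 h3.2 h4.2 hab]

theorem dep_trans {G : List Gad} (hG : Distinct G) {a b c d : Lab} (ha : a ∈ labs G)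
    (hb : b ∈ labs G) (hab : a ≠ b) (h1 : DepP G a b c) (h2 : DepP G a b d) : DepP G a c d := by
  by_cases hac : a = c
  · exact Or.inl (Or.inl hac)
  by_cases hbc : b = c
  · subst hbc; exact h2
  by_cases had : a = d
  · exact Or.inl (Or.inr (Or.inl had))
  by_cases hbd : b = d
  · subst hbd; exact h1.swap23
  rw [dep_line] at h1 h2 ⊢
  rcases h1 with h1 | ⟨x, hx1, hx2, hx3⟩
  · exact absurd h1 (by tauto)
  rcases h2 with h2 | ⟨y, hy1, hy2, hy3⟩
  · exact absurd h2 (by tauto)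
  have := line_unique hG ha hb hab hx1 hx2 hy1 hy2
  subst this
  exact Or.inr ⟨x, hx1, hx3, hy3⟩

/-- three labels on the line of two different labels are dependent -/
theorem dep_three {G : List Gad} (hG : Distinct G) {a b c d e : Lab} (ha : a ∈ labs G)
    (hb : b ∈ labs G) (hc : c ∈ labs G) (hab : a ≠ b)
    (h1 : DepP G a b c) (h2 : DepP G a b d) (h3 : DepP G a b e) : DepP G c d e := by
  by_cases hac : a = c
  · subst hac
    exact dep_trans hG ha hb hab h2 h3
  · exact dep_trans hG hc ha (Ne.symm hac) (dep_trans hG ha hb hab h1 h2).swap12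
      (dep_trans hG ha hb hab h1 h3).swap12

/-- the base predicate -/
def Bas (G : List Gad) (X : Set (Fin (labs G).length)) : Prop :=
  ∃ i j k : Fin (labs G).length, ¬ DepP G (labs G)[i] (labs G)[j] (labs G)[k] ∧ X = {i, j, k}

theorem ne_of_notDep {G : List Gad} {i j k : Fin (labs G).length}
    (h : ¬ DepP G (labs G)[i] (labs G)[j] (labs G)[k]) : i ≠ j ∧ i ≠ k ∧ j ≠ k := by
  refine ⟨?_, ?_, ?_⟩
  · rintro rfl; exact h (Or.inl (Or.inl rfl))
  · rintro rfl; exact h (Or.inl (Or.inr (Or.inl rfl)))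
  · rintro rfl; exact h (Or.inl (Or.inr (Or.inr rfl)))

theorem exch_aux {G : List Gad} (hG : Distinct G) {i j k : Fin (labs G).length}
    (h : ¬ DepP G (labs G)[i] (labs G)[j] (labs G)[k]) {Y : Set (Fin (labs G).length)}
    (hY : Bas G Y) (hi : i ∉ Y) :
    ∃ b ∈ Y \ {i, j, k}, Bas G (insert b (({i, j, k} : Set (Fin (labs G).length)) \ {i})) := by
  have hne := ne_of_notDep h
  have hset : (({i, j, k} : Set (Fin (labs G).length)) \ {i}) = {j, k} := by
    ext x
    simp only [Set.mem_sdiff, Set.mem_insert_iff, Set.mem_singleton_iff]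
    constructor
    · rintro ⟨h1 | h1 | h1, h2⟩
      · exact absurd h1 h2
      · exact Or.inl h1
      · exact Or.inr h1
    · rintro (rfl | rfl)
      · exact ⟨Or.inr (Or.inl rfl), hne.1.symm⟩
      · exact ⟨Or.inr (Or.inr rfl), hne.2.1.symm⟩
  rw [hset]
  by_contra hcon
  push Not at hcon
  have hjk : (labs G)[j] ≠ (labs G)[k] := fun h' => h (Or.inl (Or.inr (Or.inr h')))
  have hall : ∀ b ∈ Y, DepP G (labs G)[j] (labs G)[k] (labs G)[b] := by
    intro b hb
    by_cases hbx : b ∈ ({i, j, k} : Set (Fin (labs G).length))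
    · rcases hbx with rfl | rfl | rfl
      · exact absurd hb hi
      · exact Or.inl (Or.inr (Or.inl rfl))
      · exact Or.inl (Or.inr (Or.inr rfl))
    · have := hcon b ⟨hb, hbx⟩
      by_contra hnd
      exact this ⟨b, j, k, fun h' => hnd h'.swap12.swap23, rfl⟩
  obtain ⟨y1, y2, y3, hy, rfl⟩ := hY
  exact hy (dep_three hG (List.getElem_mem _) (List.getElem_mem _) (List.getElem_mem _) hjk
    (hall y1 (by simp)) (hall y2 (by simp)) (hall y3 (by simp)))

theorem exch {G : List Gad} (hG : Distinct G) : Matroid.ExchangeProperty (Bas G) := by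
  intro X Y hX hY a ha
  obtain ⟨i, j, k, h, rfl⟩ := hX
  obtain ⟨ha1, ha2⟩ := ha
  rcases ha1 with rfl | rfl | rfl
  · exact exch_aux hG h hY ha2
  · have := exch_aux hG (fun h' => h h'.swap12) hY ha2
    rwa [Set.insert_comm a i] at this
  · have := exch_aux hG (i := a) (j := i) (k := j) (fun h' => h h'.swap12.swap23) hY ha2
    have e : ({a, i, j} : Set (Fin (labs G).length)) = {i, j, a} := by
      rw [Set.insert_comm a i, Set.pair_comm a j]
    rwa [e] at this

theorem listed_bas (G : List Gad) (B : Finset (Fin (labs G).length)) :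
    Bas G (B : Set (Fin (labs G).length)) ↔ Listed (n := (labs G).length) (inst G).2 B := by
  rw [listed_iff]
  constructor
  · rintro ⟨i, j, k, h, hB⟩
    have hne := ne_of_notDep h
    have hB' : B = {i, j, k} := by
      apply Finset.coe_injective
      rw [hB]
      simp
    have key : ∀ i j k : Fin (labs G).length, i ≠ j → i ≠ k → j ≠ k →
        ¬ DepP G (labs G)[i] (labs G)[j] (labs G)[k] → B = {i, j, k} →
        ∃ i j k : Fin (labs G).length, i < j ∧ j < k ∧
          dep G (labs G)[i] (labs G)[j] (labs G)[k] = false ∧ B = {i, j, k} := by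
      refine sorted_wlog _ ?_ ?_ ?_
      · intro i j k h h1 h2
        exact h (fun h' => h1 h'.swap12) (by rw [h2, Finset.insert_comm])
      · intro i j k h h1 h2
        exact h (fun h' => h1 h'.swap23) (by rw [h2, Finset.pair_comm])
      · intro i j k hij hjk h1 h2
        refine ⟨i, j, k, hij, hjk, ?_, h2⟩
        rw [← Bool.not_eq_true, dep_iff]
        exact h1
    exact key i j k hne.1 hne.2.1 hne.2.2 h hB'
  · rintro ⟨i, j, k, hij, hjk, hd, rfl⟩
    refine ⟨i, j, k, ?_, by simp⟩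
    rw [← Bool.not_eq_true, dep_iff] at hd
    exact hd

end TaskM

open TaskM

theorem isMat3_inst (G : List Gad) (hG : Distinct G) : IsMat3 (inst G) := by
  change ∃ M : Matroid (Fin (labs G).length), M.E = Set.univ ∧
    ∀ B : Finset (Fin (labs G).length), (M.IsBase (B : Set (Fin (labs G).length)) ↔
      Listed (n := (labs G).length) (inst G).2 B) ∧
      (Listed (n := (labs G).length) (inst G).2 B → B.card = 3)
  refine ⟨Matroid.ofIsBaseOfFinite (E := Set.univ) Set.finite_univ (Bas G) ?_ (exch hG)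
    (fun _ _ => Set.subset_univ _), rfl, ?_⟩
  · exact ⟨_, (listed_bas G _).2 (listed_basis G)⟩
  · intro B
    refine ⟨listed_bas G B, ?_⟩
    intro h
    obtain ⟨i, j, k, hij, hjk, -, rfl⟩ := (listed_iff G B).1 h
    rw [Finset.card_eq_three]
    exact ⟨_, _, _, hij.ne, (hij.trans hjk).ne, hjk.ne, rfl⟩

end Pool.Agent.H881R2.Mat
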