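import Pool.Agent.H881R2.Mat.Defs
import Pool.Agent.H671R2.PolyAuto

/-!
# The instances are computed in polynomial time
-/

set_option autoImplicit false

namespace Pool.Agent.H881R2.Mat

open Pool.Agent.NPC

namespace TaskP

variable {α : Type} [TEnc α]

theorem poly_wv {i : α → ℕ} (hi : NPC.Poly i) (j : ℕ) :
    NPC.Poly (fun a => wv (i a) j) := by unfold wv; fun_prop

theorem poly_wc {i : α → ℕ} (hi : NPC.Poly i) (j : ℕ) :
    NPC.Poly (fun a => wc (i a) j) := by unfold wc; fun_prop

attribute [local fun_prop] poly_wv poly_wc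

theorem poly_rer {g i : α → ℕ} (hg : NPC.Poly g) (hi : NPC.Poly i) (s : ℕ) :
    NPC.Poly (fun a => rer (g a) s (i a)) := by unfold rer; fun_prop

attribute [local fun_prop] poly_rer

theorem poly_oneG {g i : α → ℕ} (hg : NPC.Poly g) (hi : NPC.Poly i) :
    NPC.Poly (fun a => oneG (g a) (i a)) := by unfold oneG; fun_prop

theorem poly_addG {g i j k : α → ℕ} (hg : NPC.Poly g) (hi : NPC.Poly i)
    (hj : NPC.Poly j) (hk : NPC.Poly k) :
    NPC.Poly (fun a => addG (g a) (i a) (j a) (k a)) := by
  unfold addG; fun_prop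

theorem poly_mulG {g i j k : α → ℕ} (hg : NPC.Poly g) (hi : NPC.Poly i)
    (hj : NPC.Poly j) (hk : NPC.Poly k) :
    NPC.Poly (fun a => mulG (g a) (i a) (j a) (k a)) := by
  unfold mulG; fun_prop

attribute [local fun_prop] poly_oneG poly_addG poly_mulG

theorem poly_conG {c : α → ER.Con} {g : α → ℕ} (hc : NPC.Poly c) (hg : NPC.Poly g) :
    NPC.Poly (fun a => conG (c a) (g a)) := by
  have h : NPC.Poly (fun a => (c a).code) := ER.poly_con_code hc
  unfold conG
  fun_prop

section labels

variable {g a b : α → ℕ}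

theorem poly_pu (ha : NPC.Poly a) : NPC.Poly (fun x => pu (a x)) := by unfold pu; fun_prop
theorem poly_pr (ha : NPC.Poly a) : NPC.Poly (fun x => pr (a x)) := by unfold pr; fun_prop
theorem poly_pU (hg : NPC.Poly g) : NPC.Poly (fun x => pU (g x)) := by unfold pU; fun_prop
theorem poly_pV (hg : NPC.Poly g) (ha : NPC.Poly a) : NPC.Poly (fun x => pV (g x) (a x)) := by
  unfold pV; fun_prop
theorem poly_pK (hg : NPC.Poly g) (ha : NPC.Poly a) : NPC.Poly (fun x => pK (g x) (a x)) := by
  unfold pK; fun_prop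
theorem poly_pA (hg : NPC.Poly g) (ha : NPC.Poly a) : NPC.Poly (fun x => pA (g x) (a x)) := by
  unfold pA; fun_prop
theorem poly_pN (hg : NPC.Poly g) (ha : NPC.Poly a) : NPC.Poly (fun x => pN (g x) (a x)) := by
  unfold pN; fun_prop
theorem poly_pH (hg : NPC.Poly g) (ha : NPC.Poly a) (hb : NPC.Poly b) :
    NPC.Poly (fun x => pH (g x) (a x) (b x)) := by
  unfold pH; fun_prop

end labels

attribute [local fun_prop] poly_pu poly_pr poly_pU poly_pV poly_pK poly_pA poly_pN poly_pH

theorem poly_glabs {d : α → Gad} {g : α → ℕ} (hd : NPC.Poly d) (hg : NPC.Poly g) :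
    NPC.Poly (fun a => glabs (d a) (g a)) := by
  unfold glabs
  fun_prop

theorem poly_glines {d : α → Gad} {g : α → ℕ} (hd : NPC.Poly d) (hg : NPC.Poly g) :
    NPC.Poly (fun a => glines (d a) (g a)) := by
  unfold glines
  fun_prop

attribute [local fun_prop] poly_glabs poly_glines

theorem poly_labs {G : α → List Gad} (hG : NPC.Poly G) : NPC.Poly (fun a => labs (G a)) := by
  unfold labs
  fun_prop

theorem poly_lines {G : α → List Gad} (hG : NPC.Poly G) : NPC.Poly (fun a => lines (G a)) := by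
  unfold lines
  fun_prop

attribute [local fun_prop] poly_labs poly_lines

section
variable {l l₁ l₂ l₃ : α → Lab} {G : α → List Gad}

theorem poly_onP (hl : NPC.Poly l) : NPC.Poly (fun a => onP (l a)) := by unfold onP; fun_prop
theorem poly_onQ (hl : NPC.Poly l) : NPC.Poly (fun a => onQ (l a)) := by unfold onQ; fun_prop
theorem poly_onR (hl : NPC.Poly l) : NPC.Poly (fun a => onR (l a)) := by unfold onR; fun_prop
theorem poly_onS (hl : NPC.Poly l) : NPC.Poly (fun a => onS (l a)) := by unfold onS; fun_prop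

attribute [local fun_prop] poly_onP poly_onQ poly_onR poly_onS

theorem poly_dep (hG : NPC.Poly G) (h₁ : NPC.Poly l₁) (h₂ : NPC.Poly l₂) (h₃ : NPC.Poly l₃) :
    NPC.Poly (fun a => dep (G a) (l₁ a) (l₂ a) (l₃ a)) := by
  unfold dep
  fun_prop

end

end TaskP

open TaskP

attribute [local fun_prop] poly_conG poly_labs poly_dep

theorem poly_toW : NPC.Poly toW := by
  unfold toW
  fun_prop

theorem poly_inst : NPC.Poly inst := by
  unfold inst
  fun_prop

end Pool.Agent.H881R2.Mat
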