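import Pool.Agent.H881R2.Mat.Wires
import Pool.Agent.H881R2.Mat.IsMat
import Pool.Agent.H881R2.Mat.ToW
import Pool.Agent.H881R2.Mat.PolyInst
import Pool.Agent.H881R2.Mat.Generic4
import Pool.Agent.H528R2.Main

/-!
# Representability over `ℚ` of matroids of rank `3` is `NEXP`-hard
-/

set_option autoImplicit false

namespace Pool.Agent.H881R2.Mat

open Pool.Agent.NPC Pool.Agent.H528R2

/-- Every element of the ground set belongs to a listed set (a basis): there are no loops. -/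
def NoLoops (I : ℕ × List (List ℕ)) : Prop := ∀ i < I.1, ∃ B ∈ I.2, i ∈ B

theorem repQ_inst (G : List Gad) (hG : Distinct G) : RepQ (inst G) ↔ WSat G := by
  rw [repQ_iff]
  exact ⟨wsat_of_planeRep G hG, planeRep_of_wsat G⟩

theorem repQ_toW (S : List ER.Con) : RepQ (inst (toW S)) ↔ QSat S := by
  rw [repQ_inst _ (distinct_toW S), wsat_toW]

theorem exists_indep {G : List Gad} {l : Lab} (h : l ∈ labs G) :
    ∃ a ∈ labs G, ∃ b ∈ labs G, dep G l a b = false := by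
  cases Gen.occ_of_mem h with
  | Y => exact ⟨pO, TaskW.mO G, pX, TaskW.mX G, TaskW.nd _ _ _ (by decide)⟩
  | O => exact ⟨pY, TaskW.mY G, pX, TaskW.mX G, TaskW.nd _ _ _ (by decide)⟩
  | E => exact ⟨pY, TaskW.mY G, pX, TaskW.mX G, TaskW.nd _ _ _ (by decide)⟩
  | X => exact ⟨pO, TaskW.mO G, pY, TaskW.mY G, TaskW.nd _ _ _ (by decide)⟩
  | u g d a _ _ => exact ⟨pO, TaskW.mO G, pE, TaskW.mE G, TaskW.nd _ _ _ (by simp [pu]; decide)⟩
  | r g d a _ _ => exact ⟨pO, TaskW.mO G, pE, TaskW.mE G, TaskW.nd _ _ _ (by simp [pr]; decide)⟩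
  | U g d _ => exact ⟨pO, TaskW.mO G, pX, TaskW.mX G, TaskW.nd _ _ _ (by simp [pU]; decide)⟩
  | V g d a _ _ => exact ⟨pO, TaskW.mO G, pX, TaskW.mX G, TaskW.nd _ _ _ (by simp [pV]; decide)⟩
  | K g d a _ _ => exact ⟨pO, TaskW.mO G, pY, TaskW.mY G, TaskW.nd _ _ _ (by simp [pK]; decide)⟩
  | A g d _ _ => exact ⟨pE, TaskW.mE G, pX, TaskW.mX G, TaskW.nd _ _ _ (by simp [pA]; decide)⟩
  | N g d _ _ => exact ⟨pO, TaskW.mO G, pE, TaskW.mE G, TaskW.nd _ _ _ (by simp [pN]; decide)⟩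
  | H g d _ _ => exact ⟨pO, TaskW.mO G, pY, TaskW.mY G, TaskW.nd _ _ _ (by simp [pH]; decide)⟩

theorem noLoops_inst (G : List Gad) : NoLoops (inst G) := by
  intro i hi
  have hi' : i < (labs G).length := hi
  obtain ⟨a, ha, b, hb, hd⟩ := exists_indep (List.getElem_mem hi')
  obtain ⟨j, hj, rfl⟩ := List.mem_iff_getElem.1 ha
  obtain ⟨k, hk, rfl⟩ := List.mem_iff_getElem.1 hb
  have hB : TaskM.Bas G (({⟨i, hi'⟩, ⟨j, hj⟩, ⟨k, hk⟩} : Finset (Fin (labs G).length)) :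
      Set (Fin (labs G).length)) := by
    refine ⟨⟨i, hi'⟩, ⟨j, hj⟩, ⟨k, hk⟩, ?_, by simp⟩
    rw [← dep_iff, Bool.not_eq_true]
    exact hd
  obtain ⟨l, hl, hl'⟩ := (TaskM.listed_bas G _).1 hB
  exact ⟨l, hl, (hl' ⟨i, hi'⟩).1 (by simp)⟩

theorem hardX_repQ : HardX (fun I : ℕ × List (List ℕ) => (IsMat3 I ∧ NoLoops I) ∧ RepQ I) := by
  refine hardX_QSat.trans (f := fun S => inst (toW S)) ?_ ?_
  · exact PC.comp (g := inst) (f := toW) poly_inst poly_toW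
  · intro S
    rw [repQ_toW]
    exact ⟨fun h => ⟨⟨isMat3_inst _ (distinct_toW S), noLoops_inst _⟩, h⟩, fun h => h.2⟩

theorem nexp_repQ (L : Set (List Bool)) (hL : InNEXP L) :
    ∃ f : List Bool → ℕ × List (List ℕ), PolyTime (fun w => bits (f w)) ∧
      (∀ w, IsMat3 (f w) ∧ NoLoops (f w)) ∧ ∀ w, w ∈ L ↔ RepQ (f w) := by
  obtain ⟨f, hf, hfL⟩ := hardX_QSat L hL
  refine ⟨fun w => inst (toW (f w)), ?_, fun w => ⟨isMat3_inst _ (distinct_toW _), noLoops_inst _⟩,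
    fun w => (hfL w).trans (repQ_toW _).symm⟩
  have h1 : PC (fun x : List Bool => x) (bits : ℕ × List (List ℕ) → List Bool)
      (fun w => inst (toW (f w))) :=
    PC.comp (eb := (bits : List Gad → List Bool)) (g := inst) (f := fun w => toW (f w)) poly_inst
      (PC.comp (eb := (bits : List ER.Con → List Bool)) (g := toW) (f := f) poly_toW hf)
  exact PC.toPolyTime h1

end Pool.Agent.H881R2.Mat
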