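import Mathlib
import Pool.Agent.H528R2.QDefs

/-!
# Universality for representability of rank-3 matroids over `ℚ`: definitions

* `Gad`, `WSat`: systems of additions and multiplications between wires, in general position.
* `labs`, `lines`, `dep`, `inst`: the matroid attached to such a system.
* `RepQ`: representability over `ℚ` of a matroid given by the list of its bases.
-/

set_option autoImplicit false

namespace Pool.Agent.H881R2.Mat

open Pool.Agent.NPC

/-! ### systems of wires -/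

/-- Gadgets `(multiplicative, x, y, z)` on wires `x, y, z`. -/
abbrev Gad : Type := Bool × ℕ × ℕ × ℕ

/-- The gadget is satisfied, in general position, by the values `w` of the wires. -/
def GOk (w : ℕ → ℚ) (g : Gad) : Prop :=
  (w g.2.1 ≠ 0 ∧ w g.2.1 ≠ 1) ∧ (w g.2.2.1 ≠ 0 ∧ w g.2.2.1 ≠ 1) ∧
    (w g.2.2.2 ≠ 0 ∧ w g.2.2.2 ≠ 1) ∧ w g.2.1 ≠ w g.2.2.1 ∧
    (if g.1 = true then w g.2.1 * w g.2.2.1 = w g.2.2.2 else w g.2.1 + w g.2.2.1 = w g.2.2.2)

/-- Solvability of a system of gadgets. -/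
def WSat (G : List Gad) : Prop := ∃ w : ℕ → ℚ, ∀ g ∈ G, GOk w g

/-- The three wires of every gadget are different. -/
def Distinct (G : List Gad) : Prop :=
  ∀ g ∈ G, g.2.1 ≠ g.2.2.1 ∧ g.2.1 ≠ g.2.2.2 ∧ g.2.2.1 ≠ g.2.2.2

/-! ### labels of the points

Write `c a` (for a wire `a`) and `Γ g` (for a gadget `g`) for independent generic numbers, and
`w a` for the value of the wire `a`. In the affine plane the points are
* `pY = (0 : 1 : 0)`, `pO = (0, 0)`, `pE = (1, 0)`, `pX = (1 : 0 : 0)`;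
* `pu a = (1 : c a : 0)`, `pr a = (1 : c a * w a : 0)` at infinity;
* `pU g = (1, Γ g)`, `pV g a = (1, Γ g * w a)` on the line `x = 1`;
* `pK g a = (1 - Γ g / c a, 0)` on the line `y = 0`;
* `pA g a = (0, Γ g * w a)` on the line `x = 0`; `pN g a = (1 : Γ g * w a : 0)` at infinity;
* `pH g a b = (1 - Γ g * w a / c b, 0)` on the line `y = 0`. -/

/-- labels `(kind, g, a, b)` -/
abbrev Lab : Type := ℕ × ℕ × ℕ × ℕ

def pY : Lab := (0, 0, 0, 0)
def pO : Lab := (1, 0, 0, 0)
def pE : Lab := (2, 0, 0, 0)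
def pX : Lab := (3, 0, 0, 0)
def pu (a : ℕ) : Lab := (4, 0, a, 0)
def pr (a : ℕ) : Lab := (5, 0, a, 0)
def pU (g : ℕ) : Lab := (6, g, 0, 0)
def pV (g a : ℕ) : Lab := (7, g, a, 0)
def pK (g a : ℕ) : Lab := (8, g, a, 0)
def pA (g a : ℕ) : Lab := (9, g, a, 0)
def pN (g a : ℕ) : Lab := (10, g, a, 0)
def pH (g a b : ℕ) : Lab := (11, g, a, b)

/-- the labels of the gadget `d` with number `g` -/
def glabs (d : Gad) (g : ℕ) : List Lab :=
  [pu d.2.1, pr d.2.1, pu d.2.2.1, pr d.2.2.1, pu d.2.2.2, pr d.2.2.2, pU g,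
    pV g d.2.1, pV g d.2.2.1, pV g d.2.2.2, pK g d.2.1, pK g d.2.2.1, pK g d.2.2.2] ++
  (if d.1 = true then [pH g d.2.1 d.2.2.1] else [pA g d.2.1, pN g d.2.2.1])

/-- all labels (labels of wires may be repeated) -/
def labs (G : List Gad) : List Lab :=
  [pY, pO, pE, pX] ++ G.zipIdx.flatMap (fun q => glabs q.1 q.2)

/-- the short lines of the gadget `d` with number `g` -/
def glines (d : Gad) (g : ℕ) : List (List Lab) :=
  [[pu d.2.1, pK g d.2.1, pU g], [pr d.2.1, pK g d.2.1, pV g d.2.1],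
   [pu d.2.2.1, pK g d.2.2.1, pU g], [pr d.2.2.1, pK g d.2.2.1, pV g d.2.2.1],
   [pu d.2.2.2, pK g d.2.2.2, pU g], [pr d.2.2.2, pK g d.2.2.2, pV g d.2.2.2]] ++
  (if d.1 = true then
    [[pu d.2.2.1, pH g d.2.1 d.2.2.1, pV g d.2.1], [pr d.2.2.1, pH g d.2.1 d.2.2.1, pV g d.2.2.2]]
   else
    [[pA g d.2.1, pV g d.2.1, pX], [pO, pN g d.2.2.1, pV g d.2.2.1],
     [pA g d.2.1, pN g d.2.2.1, pV g d.2.2.2]])

/-- all short lines -/
def lines (G : List Gad) : List (List Lab) := G.zipIdx.flatMap (fun q => glines q.1 q.2)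

/-- the long line `x = 0` -/
def onP (l : Lab) : Bool := decide (l.1 = 0) || (decide (l.1 = 1) || decide (l.1 = 9))
/-- the long line `x = 1` -/
def onQ (l : Lab) : Bool :=
  decide (l.1 = 0) || (decide (l.1 = 2) || (decide (l.1 = 6) || decide (l.1 = 7)))
/-- the long line at infinity -/
def onR (l : Lab) : Bool :=
  decide (l.1 = 0) || (decide (l.1 = 3) || (decide (l.1 = 4) || (decide (l.1 = 5) ||
    decide (l.1 = 10))))
/-- the long line `y = 0` -/
def onS (l : Lab) : Bool :=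
  decide (l.1 = 1) || (decide (l.1 = 2) || (decide (l.1 = 3) || (decide (l.1 = 8) ||
    decide (l.1 = 11))))

/-- dependence of three labels -/
def dep (G : List Gad) (l₁ l₂ l₃ : Lab) : Bool :=
  (decide (l₁ = l₂) || (decide (l₁ = l₃) || decide (l₂ = l₃))) ||
  ((onP l₁ && (onP l₂ && onP l₃)) || ((onQ l₁ && (onQ l₂ && onQ l₃)) ||
   ((onR l₁ && (onR l₂ && onR l₃)) || ((onS l₁ && (onS l₂ && onS l₃)) ||
    (lines G).any (fun L => decide (l₁ ∈ L) && (decide (l₂ ∈ L) && decide (l₃ ∈ L)))))))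

/-- The matroid attached to the system `G`: number of elements and list of the bases. -/
def inst (G : List Gad) : ℕ × List (List ℕ) :=
  ((labs G).length,
    (labs G).zipIdx.flatMap (fun p => (labs G).zipIdx.flatMap (fun q =>
      ((labs G).zipIdx.filter (fun r => (decide (p.2 < q.2) && decide (q.2 < r.2)) &&
        !(dep G p.1 q.1 r.1))).map (fun r => [p.2, q.2, r.2]))))

/-! ### representability -/

/-- The set `B` of elements of `Fin n` is listed in `L`. -/
def Listed {n : ℕ} (L : List (List ℕ)) (B : Finset (Fin n)) : Prop :=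
  ∃ l ∈ L, ∀ i : Fin n, i ∈ B ↔ (i : ℕ) ∈ l

/-- `I = (n, L)`: the sets in `L` are exactly the bases of a configuration of `n` vectors with
rational coordinates, i.e. `L` is the list of the bases of a matroid on `n` elements which is
representable over `ℚ`. -/
def RepQ (I : ℕ × List (List ℕ)) : Prop :=
  ∃ m : ℕ, ∃ v : Fin I.1 → (Fin m → ℚ), ∀ B : Finset (Fin I.1),
    (Listed I.2 B ↔
      (LinearIndependent ℚ (fun i : B => v i) ∧
        Submodule.span ℚ (v '' (B : Set (Fin I.1))) = Submodule.span ℚ (Set.range v)))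

/-- `I = (n, L)`: the sets in `L` are exactly the bases of a matroid of rank `3` on `n`
elements. -/
def IsMat3 (I : ℕ × List (List ℕ)) : Prop :=
  ∃ M : Matroid (Fin I.1), M.E = Set.univ ∧
    ∀ B : Finset (Fin I.1), (M.IsBase (B : Set (Fin I.1)) ↔ Listed I.2 B) ∧
      (Listed I.2 B → B.card = 3)

/-- determinant of three vectors -/
def det3 (a b c : Fin 3 → ℚ) : ℚ :=
  a 0 * (b 1 * c 2 - b 2 * c 1) - a 1 * (b 0 * c 2 - b 2 * c 0) + a 2 * (b 0 * c 1 - b 1 * c 0)

/-- a plane configuration with the prescribed collinearities -/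
def PlaneRep (G : List Gad) : Prop :=
  ∃ p : Lab → Fin 3 → ℚ, ∀ l₁ ∈ labs G, ∀ l₂ ∈ labs G, ∀ l₃ ∈ labs G,
    (det3 (p l₁) (p l₂) (p l₃) = 0 ↔ dep G l₁ l₂ l₃ = true)

/-! ### from systems of elementary constraints over `ℚ` to systems of wires -/

/-- wires of the variables: `wv i 0 - wv i 1` is the value of the variable `i` -/
def wv (i j : ℕ) : ℕ := (2 * i) * 32 + j
/-- wires of the constraints -/
def wc (g j : ℕ) : ℕ := (2 * g + 1) * 32 + j

/-- a new pair of wires for the variable `i`: slot `s` of the constraint `g` -/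
def rer (g s i : ℕ) : List Gad :=
  [(false, wc g (3 * s), wv i 1, wc g (3 * s + 2)), (false, wv i 0, wc g (3 * s + 1),
    wc g (3 * s + 2))]

/-- `v i = 1` -/
def oneG (g i : ℕ) : List Gad :=
  [(true, wc g 9, wv i 0, wc g 10), (true, wc g 9, wv i 1, wc g 11),
   (false, wc g 9, wc g 11, wc g 10)]

/-- `v i + v j = v k`; the pairs are `(wc g 0, wc g 1)`, `(wc g 3, wc g 4)`, `(wc g 6, wc g 7)` -/
def addG (g i j k : ℕ) : List Gad :=
  rer g 0 i ++ (rer g 1 j ++ (rer g 2 k ++
    [(false, wc g 0, wc g 7, wc g 9), (false, wc g 9, wc g 3, wc g 10),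
     (false, wc g 1, wc g 4, wc g 11), (false, wc g 11, wc g 6, wc g 10)]))

/-- `v i * v j = v k` -/
def mulG (g i j k : ℕ) : List Gad :=
  rer g 0 i ++ (rer g 1 j ++ (rer g 2 k ++
    [(true, wc g 0, wc g 3, wc g 12), (true, wc g 1, wc g 4, wc g 13),
     (true, wc g 0, wc g 4, wc g 14), (true, wc g 1, wc g 3, wc g 15),
     (false, wc g 12, wc g 7, wc g 16), (false, wc g 16, wc g 13, wc g 17),
     (false, wc g 14, wc g 6, wc g 18), (false, wc g 18, wc g 15, wc g 17)]))

/-- the gadgets of a constraint, given by its code -/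
def conG (c : ER.Con) (g : ℕ) : List Gad :=
  if c.code.1 = 0 then oneG g c.code.2.1
  else if c.code.1 = 1 then addG g c.code.2.1 c.code.2.2.1 c.code.2.2.2
  else mulG g c.code.2.1 c.code.2.2.1 c.code.2.2.2

/-- the system of wires of a system of constraints -/
def toW (S : List ER.Con) : List Gad := S.zipIdx.flatMap (fun q => conG q.1 q.2)

end Pool.Agent.H881R2.Mat
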