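import Pool.Agent.H881R2.Mat.Defs

/-!
# A solvable system of wires gives a plane configuration in general position
-/

set_option autoImplicit false

namespace Pool.Agent.H881R2.Mat

namespace Gen

open Polynomial

/-! ### dependence as a proposition -/

/-- propositional form of `dep` -/
def Dep (G : List Gad) (a b c : Lab) : Prop :=
  (a = b ∨ a = c ∨ b = c) ∨ (onP a = true ∧ onP b = true ∧ onP c = true) ∨
  (onQ a = true ∧ onQ b = true ∧ onQ c = true) ∨ (onR a = true ∧ onR b = true ∧ onR c = true) ∨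
  (onS a = true ∧ onS b = true ∧ onS c = true) ∨ ∃ L ∈ lines G, a ∈ L ∧ b ∈ L ∧ c ∈ L

theorem dep_iff (G : List Gad) (a b c : Lab) : dep G a b c = true ↔ Dep G a b c := by
  unfold dep Dep
  simp only [Bool.or_eq_true, Bool.and_eq_true, decide_eq_true_eq, List.any_eq_true]

theorem Dep.swap12 {G : List Gad} {a b c : Lab} (h : Dep G a b c) : Dep G b a c := by
  rcases h with (h | h | h) | ⟨h1, h2, h3⟩ | ⟨h1, h2, h3⟩ | ⟨h1, h2, h3⟩ | ⟨h1, h2, h3⟩ |
    ⟨L, hL, h1, h2, h3⟩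
  · exact Or.inl (Or.inl h.symm)
  · exact Or.inl (Or.inr (Or.inr h))
  · exact Or.inl (Or.inr (Or.inl h))
  · exact Or.inr (Or.inl ⟨h2, h1, h3⟩)
  · exact Or.inr (Or.inr (Or.inl ⟨h2, h1, h3⟩))
  · exact Or.inr (Or.inr (Or.inr (Or.inl ⟨h2, h1, h3⟩)))
  · exact Or.inr (Or.inr (Or.inr (Or.inr (Or.inl ⟨h2, h1, h3⟩))))
  · exact Or.inr (Or.inr (Or.inr (Or.inr (Or.inr ⟨L, hL, h2, h1, h3⟩))))

theorem Dep.swap23 {G : List Gad} {a b c : Lab} (h : Dep G a b c) : Dep G a c b := by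
  rcases h with (h | h | h) | ⟨h1, h2, h3⟩ | ⟨h1, h2, h3⟩ | ⟨h1, h2, h3⟩ | ⟨h1, h2, h3⟩ |
    ⟨L, hL, h1, h2, h3⟩
  · exact Or.inl (Or.inr (Or.inl h))
  · exact Or.inl (Or.inl h)
  · exact Or.inl (Or.inr (Or.inr h.symm))
  · exact Or.inr (Or.inl ⟨h1, h3, h2⟩)
  · exact Or.inr (Or.inr (Or.inl ⟨h1, h3, h2⟩))
  · exact Or.inr (Or.inr (Or.inr (Or.inl ⟨h1, h3, h2⟩)))
  · exact Or.inr (Or.inr (Or.inr (Or.inr (Or.inl ⟨h1, h3, h2⟩))))
  · exact Or.inr (Or.inr (Or.inr (Or.inr (Or.inr ⟨L, hL, h1, h3, h2⟩))))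

/-! ### determinants -/

/-- determinant over a commutative ring -/
def dt {R : Type} [CommRing R] (a b c : Fin 3 → R) : R :=
  a 0 * (b 1 * c 2 - b 2 * c 1) - a 1 * (b 0 * c 2 - b 2 * c 0) + a 2 * (b 0 * c 1 - b 1 * c 0)

theorem dt_swap12 {R : Type} [CommRing R] (a b c : Fin 3 → R) : dt b a c = - dt a b c := by
  unfold dt; ring

theorem dt_swap23 {R : Type} [CommRing R] (a b c : Fin 3 → R) : dt a c b = - dt a b c := by
  unfold dt; ring

theorem dt_mem3 {R : Type} [CommRing R] (v : Lab → Fin 3 → R) {a b c : Lab}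
    (h : dt (v a) (v b) (v c) = 0) {l₁ l₂ l₃ : Lab} (h₁ : l₁ ∈ [a, b, c]) (h₂ : l₂ ∈ [a, b, c])
    (h₃ : l₃ ∈ [a, b, c]) : dt (v l₁) (v l₂) (v l₃) = 0 := by
  simp only [List.mem_cons, List.not_mem_nil, or_false] at h₁ h₂ h₃
  unfold dt at h ⊢
  rcases h₁ with rfl | rfl | rfl <;> rcases h₂ with rfl | rfl | rfl <;>
    rcases h₃ with rfl | rfl | rfl <;>
    first
      | ring1
      | linear_combination h
      | linear_combination -h

/-- types of the points -/
inductive Ty : Type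
  | P | Q | R | S | Y
  deriving DecidableEq

/-- order of the types -/
def Ty.rk : Ty → ℕ
  | .P => 0 | .Q => 1 | .R => 2 | .S => 3 | .Y => 4

/-- the vector with type `t` and parameter `m` -/
def vecT {R : Type} [CommRing R] : Ty → R → Fin 3 → R
  | .P, m => ![0, m, 1]
  | .Q, m => ![1, m, 1]
  | .R, m => ![1, m, 0]
  | .S, m => ![1 - m, 0, 1]
  | .Y, _ => ![0, 1, 0]

/-- type of a label -/
def ty (l : Lab) : Ty :=
  match l.1 with
  | 0 => .Y
  | 1 => .P
  | 2 => .Q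
  | 3 => .R
  | 4 => .R
  | 5 => .R
  | 6 => .Q
  | 7 => .Q
  | 8 => .S
  | 9 => .P
  | 10 => .R
  | _ => .S

/-- coefficient of a label -/
def co (w : ℕ → ℚ) (l : Lab) : ℚ :=
  match l.1 with
  | 0 => 0
  | 1 => 0
  | 2 => 0
  | 3 => 0
  | 4 => 1
  | 5 => w l.2.2.1
  | 6 => 1
  | 7 => w l.2.2.1
  | 8 => 1
  | 9 => w l.2.2.1
  | 10 => w l.2.2.1
  | _ => w l.2.2.1

/-- exponent of a label -/
def ex (M : ℕ) (l : Lab) : ℕ :=
  match l.1 with
  | 0 => 0
  | 1 => 0
  | 2 => 0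
  | 3 => 0
  | 4 => l.2.2.1 + 1
  | 5 => l.2.2.1 + 1
  | 6 => M * (l.2.1 + 1)
  | 7 => M * (l.2.1 + 1)
  | 8 => M * (l.2.1 + 1) - (l.2.2.1 + 1)
  | 9 => M * (l.2.1 + 1)
  | 10 => M * (l.2.1 + 1)
  | _ => M * (l.2.1 + 1) - (l.2.2.2 + 1)

/-- the parameter of a label -/
noncomputable def mv (w : ℕ → ℚ) (M : ℕ) (l : Lab) : ℚ[X] := C (co w l) * X ^ (ex M l)

/-- the vector of a label -/
noncomputable def vec (w : ℕ → ℚ) (M : ℕ) (l : Lab) : Fin 3 → ℚ[X] := vecT (ty l) (mv w M l)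

/-! ### the labels which occur -/

/-- the gadget number `g` is `d` -/
def At (G : List Gad) (g : ℕ) (d : Gad) : Prop := G[g]? = some d

theorem At.mem {G : List Gad} {g : ℕ} {d : Gad} (h : At G g d) : d ∈ G :=
  List.mem_of_getElem? h

theorem At.eq {G : List Gad} {g : ℕ} {d d' : Gad} (h : At G g d) (h' : At G g d') : d = d' := by
  unfold At at h h'
  rw [h] at h'
  exact Option.some.inj h'

theorem mem_zipIdx_iff {G : List Gad} {q : Gad × ℕ} : q ∈ G.zipIdx ↔ At G q.2 q.1 := by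
  rw [List.mem_zipIdx_iff_getElem?]
  rfl

/-- wires of a gadget -/
def Wr (d : Gad) (a : ℕ) : Prop := a = d.2.1 ∨ a = d.2.2.1 ∨ a = d.2.2.2

/-- the labels which occur -/
inductive Occ (G : List Gad) : Lab → Prop
  | Y : Occ G pY
  | O : Occ G pO
  | E : Occ G pE
  | X : Occ G pX
  | u (g : ℕ) (d : Gad) (a : ℕ) (h : At G g d) (ha : Wr d a) : Occ G (pu a)
  | r (g : ℕ) (d : Gad) (a : ℕ) (h : At G g d) (ha : Wr d a) : Occ G (pr a)
  | U (g : ℕ) (d : Gad) (h : At G g d) : Occ G (pU g)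
  | V (g : ℕ) (d : Gad) (a : ℕ) (h : At G g d) (ha : Wr d a) : Occ G (pV g a)
  | K (g : ℕ) (d : Gad) (a : ℕ) (h : At G g d) (ha : Wr d a) : Occ G (pK g a)
  | A (g : ℕ) (d : Gad) (h : At G g d) (hd : d.1 = false) : Occ G (pA g d.2.1)
  | N (g : ℕ) (d : Gad) (h : At G g d) (hd : d.1 = false) : Occ G (pN g d.2.2.1)
  | H (g : ℕ) (d : Gad) (h : At G g d) (hd : d.1 = true) : Occ G (pH g d.2.1 d.2.2.1)

theorem occ_of_mem {G : List Gad} {l : Lab} (h : l ∈ labs G) : Occ G l := by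
  unfold labs at h
  rw [List.mem_append] at h
  rcases h with h | h
  · simp only [List.mem_cons, List.not_mem_nil, or_false] at h
    rcases h with rfl | rfl | rfl | rfl
    · exact .Y
    · exact .O
    · exact .E
    · exact .X
  · rw [List.mem_flatMap] at h
    obtain ⟨⟨d, g⟩, hq, h⟩ := h
    have hat : At G g d := mem_zipIdx_iff.1 hq
    simp only [glabs] at h
    rw [List.mem_append] at h
    rcases h with h | h
    · simp only [List.mem_cons, List.not_mem_nil, or_false] at h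
      rcases h with rfl | rfl | rfl | rfl | rfl | rfl | rfl | rfl | rfl | rfl | rfl | rfl | rfl
      · exact .u g d _ hat (Or.inl rfl)
      · exact .r g d _ hat (Or.inl rfl)
      · exact .u g d _ hat (Or.inr (Or.inl rfl))
      · exact .r g d _ hat (Or.inr (Or.inl rfl))
      · exact .u g d _ hat (Or.inr (Or.inr rfl))
      · exact .r g d _ hat (Or.inr (Or.inr rfl))
      · exact .U g d hat
      · exact .V g d _ hat (Or.inl rfl)
      · exact .V g d _ hat (Or.inr (Or.inl rfl))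
      · exact .V g d _ hat (Or.inr (Or.inr rfl))
      · exact .K g d _ hat (Or.inl rfl)
      · exact .K g d _ hat (Or.inr (Or.inl rfl))
      · exact .K g d _ hat (Or.inr (Or.inr rfl))
    · split_ifs at h with hd
      · rw [List.mem_singleton] at h
        subst h
        exact .H g d hat hd
      · simp only [List.mem_cons, List.not_mem_nil, or_false] at h
        have hd' : d.1 = false := by simpa using hd
        rcases h with rfl | rfl
        · exact .A g d hat hd'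
        · exact .N g d hat hd'

/-! ### the short lines -/

theorem line_u {G : List Gad} {g : ℕ} {d : Gad} {a : ℕ} (h : At G g d) (ha : Wr d a) :
    [pu a, pK g a, pU g] ∈ lines G := by
  unfold lines
  rw [List.mem_flatMap]
  refine ⟨(d, g), mem_zipIdx_iff.2 h, ?_⟩
  unfold glines
  rw [List.mem_append]
  left
  rcases ha with rfl | rfl | rfl <;> simp

theorem line_r {G : List Gad} {g : ℕ} {d : Gad} {a : ℕ} (h : At G g d) (ha : Wr d a) :
    [pr a, pK g a, pV g a] ∈ lines G := by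
  unfold lines
  rw [List.mem_flatMap]
  refine ⟨(d, g), mem_zipIdx_iff.2 h, ?_⟩
  unfold glines
  rw [List.mem_append]
  left
  rcases ha with rfl | rfl | rfl <;> simp

theorem line_mul {G : List Gad} {g : ℕ} {d : Gad} (h : At G g d) (hd : d.1 = true) :
    [pu d.2.2.1, pH g d.2.1 d.2.2.1, pV g d.2.1] ∈ lines G ∧
      [pr d.2.2.1, pH g d.2.1 d.2.2.1, pV g d.2.2.2] ∈ lines G := by
  constructor <;>
  · unfold lines
    rw [List.mem_flatMap]
    refine ⟨(d, g), mem_zipIdx_iff.2 h, ?_⟩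
    unfold glines
    rw [List.mem_append]
    right
    simp [hd]

theorem line_add {G : List Gad} {g : ℕ} {d : Gad} (h : At G g d) (hd : d.1 = false) :
    [pA g d.2.1, pV g d.2.1, pX] ∈ lines G ∧ [pO, pN g d.2.2.1, pV g d.2.2.1] ∈ lines G ∧
      [pA g d.2.1, pN g d.2.2.1, pV g d.2.2.2] ∈ lines G := by
  refine ⟨?_, ?_, ?_⟩ <;>
  · unfold lines
    rw [List.mem_flatMap]
    refine ⟨(d, g), mem_zipIdx_iff.2 h, ?_⟩
    unfold glines
    rw [List.mem_append]
    right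
    simp [hd]

theorem dep_line {G : List Gad} {L : List Lab} (hL : L ∈ lines G) {a b c : Lab} (ha : a ∈ L)
    (hb : b ∈ L) (hc : c ∈ L) : Dep G a b c :=
  Or.inr (Or.inr (Or.inr (Or.inr (Or.inr ⟨L, hL, ha, hb, hc⟩))))

/-! ### general facts on the values -/

structure Good (G : List Gad) (w : ℕ → ℚ) (M : ℕ) : Prop where
  ok : ∀ g ∈ G, GOk w g
  big : ∀ d ∈ G, ∀ a, Wr d a → a + 1 < M

variable {G : List Gad} {w : ℕ → ℚ} {M : ℕ}

theorem Good.wne (hG : Good G w M) {g : ℕ} {d : Gad} {a : ℕ} (h : At G g d) (ha : Wr d a) :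
    w a ≠ 0 ∧ w a ≠ 1 := by
  obtain ⟨h1, h2, h3, -, -⟩ := hG.ok d h.mem
  rcases ha with rfl | rfl | rfl
  · exact h1
  · exact h2
  · exact h3

/-- the three wires of a gadget have different values -/
theorem Good.winj (hG : Good G w M) {g : ℕ} {d : Gad} {a b : ℕ} (h : At G g d) (ha : Wr d a)
    (hb : Wr d b) (hab : w a = w b) : a = b := by
  obtain ⟨h1, h2, h3, h4, h5⟩ := hG.ok d h.mem
  have hxz : w d.2.1 ≠ w d.2.2.2 := by
    intro e
    split_ifs at h5 with hd
    · apply h2.2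
      have : w d.2.1 * w d.2.2.1 = w d.2.1 * 1 := by rw [h5, mul_one, e]
      exact mul_left_cancel₀ h1.1 this
    · apply h2.1
      linarith
  have hyz : w d.2.2.1 ≠ w d.2.2.2 := by
    intro e
    split_ifs at h5 with hd
    · apply h1.2
      have : w d.2.1 * w d.2.2.1 = 1 * w d.2.2.1 := by rw [h5, one_mul, e]
      exact mul_right_cancel₀ h2.1 this
    · apply h1.1
      linarith
  rcases ha with rfl | rfl | rfl <;> rcases hb with rfl | rfl | rfl
  · rfl
  · exact absurd hab h4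
  · exact absurd hab hxz
  · exact absurd hab.symm h4
  · rfl
  · exact absurd hab hyz
  · exact absurd hab.symm hxz
  · exact absurd hab.symm hyz
  · rfl

theorem Good.lt (hG : Good G w M) {g : ℕ} {d : Gad} {a : ℕ} (h : At G g d) (ha : Wr d a) :
    a + 1 < M := hG.big d h.mem a ha

theorem Mle (M g : ℕ) : M ≤ M * (g + 1) := Nat.le_mul_of_pos_right M (Nat.succ_pos g)

/-- equality of non-zero monomials -/
theorem mono_eq {q q' : ℚ} {e e' : ℕ} (hq : q ≠ 0)
    (h : (C q * X ^ e : ℚ[X]) = C q' * X ^ e') : q = q' ∧ e = e' := by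
  have h1 := congrArg (fun p => p.coeff e) h
  simp only [coeff_C_mul_X_pow, if_true] at h1
  split_ifs at h1 with h2
  · exact ⟨h1, h2⟩
  · exact absurd h1 hq

theorem mono_ne_zero {q : ℚ} {e : ℕ} (hq : q ≠ 0) : (C q * X ^ e : ℚ[X]) ≠ 0 := by
  intro h
  have h1 := congrArg (fun p => p.coeff e) h
  simp only [coeff_C_mul_X_pow, if_true, coeff_zero] at h1
  exact hq h1

/-- arithmetic of the exponents -/
theorem exp_inj {M g g' a a' : ℕ} (ha : a + 1 < M) (ha' : a' + 1 < M)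
    (h : M * (g + 1) - (a + 1) = M * (g' + 1) - (a' + 1)) : g = g' ∧ a = a' := by
  have h1 := Mle M g
  have h2 := Mle M g'
  have hM : 0 < M := by omega
  have h3 : M * (g + 1) + (a' + 1) = M * (g' + 1) + (a + 1) := by omega
  have h4 : g + 1 = g' + 1 := by
    have e1 : (M * (g + 1) + (a' + 1)) / M = g + 1 := by
      rw [Nat.mul_add_div hM, Nat.div_eq_of_lt ha', Nat.add_zero]
    have e2 : (M * (g' + 1) + (a + 1)) / M = g' + 1 := by
      rw [Nat.mul_add_div hM, Nat.div_eq_of_lt ha, Nat.add_zero]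
    rw [← e1, ← e2, h3]
  refine ⟨by omega, ?_⟩
  rw [h4] at h3
  omega

theorem expM_inj {M g g' : ℕ} (hM : 0 < M) (h : M * (g + 1) = M * (g' + 1)) : g = g' := by
  have := Nat.eq_of_mul_eq_mul_left hM h
  omega

end Gen

end Pool.Agent.H881R2.Mat
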