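import Pool.Agent.H881R2.Mat.GenBase

/-!
# A solvable system of wires gives a plane configuration in general position, II
-/

set_option autoImplicit false

namespace Pool.Agent.H881R2.Mat

namespace Gen

open Polynomial

variable {G : List Gad} {w : ℕ → ℚ} {M : ℕ}

/-! ### classification of the labels of a given type -/

theorem typeP (hG : Good G w M) {l : Lab} (h : Occ G l) (ht : ty l = .P) :
    (l = pO ∧ mv w M l = 0) ∨ ∃ g d, At G g d ∧ d.1 = false ∧ l = pA g d.2.1 ∧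
      mv w M l = C (w d.2.1) * X ^ (M * (g + 1)) := by
  cases h with
  | O => left; refine ⟨rfl, ?_⟩; simp [mv, co, pO]
  | A g d h hd => right; exact ⟨g, d, h, hd, rfl, rfl⟩
  | _ => simp [ty, pY, pO, pE, pX, pu, pr, pU, pV, pK, pA, pN, pH] at ht

theorem typeQ (hG : Good G w M) {l : Lab} (h : Occ G l) (ht : ty l = .Q) :
    (l = pE ∧ mv w M l = 0) ∨ ∃ g d, At G g d ∧ ∃ q : ℚ, mv w M l = C q * X ^ (M * (g + 1)) ∧
      ((l = pU g ∧ q = 1) ∨ ∃ a, Wr d a ∧ l = pV g a ∧ q = w a) := by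
  cases h with
  | E => left; refine ⟨rfl, ?_⟩; simp [mv, co, pE]
  | U g d h => right; exact ⟨g, d, h, 1, rfl, Or.inl ⟨rfl, rfl⟩⟩
  | V g d a h ha => right; exact ⟨g, d, h, w a, rfl, Or.inr ⟨a, ha, rfl, rfl⟩⟩
  | _ => simp [ty, pY, pO, pE, pX, pu, pr, pU, pV, pK, pA, pN, pH] at ht

theorem typeR (hG : Good G w M) {l : Lab} (h : Occ G l) (ht : ty l = .R) :
    (l = pX ∧ mv w M l = 0) ∨
    (∃ g d a, At G g d ∧ Wr d a ∧ ∃ q : ℚ, mv w M l = C q * X ^ (a + 1) ∧
      ((l = pu a ∧ q = 1) ∨ (l = pr a ∧ q = w a))) ∨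
    ∃ g d, At G g d ∧ d.1 = false ∧ l = pN g d.2.2.1 ∧
      mv w M l = C (w d.2.2.1) * X ^ (M * (g + 1)) := by
  cases h with
  | X => left; refine ⟨rfl, ?_⟩; simp [mv, co, pX]
  | u g d a h ha => right; left; exact ⟨g, d, a, h, ha, 1, rfl, Or.inl ⟨rfl, rfl⟩⟩
  | r g d a h ha => right; left; exact ⟨g, d, a, h, ha, w a, rfl, Or.inr ⟨rfl, rfl⟩⟩
  | N g d h hd => right; right; exact ⟨g, d, h, hd, rfl, rfl⟩
  | _ => simp [ty, pY, pO, pE, pX, pu, pr, pU, pV, pK, pA, pN, pH] at ht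

theorem typeS (hG : Good G w M) {l : Lab} (h : Occ G l) (ht : ty l = .S) :
    ∃ g d a, At G g d ∧ Wr d a ∧ ∃ q : ℚ, q ≠ 0 ∧ mv w M l = C q * X ^ (M * (g + 1) - (a + 1)) ∧
      ((l = pK g a ∧ q = 1) ∨ (d.1 = true ∧ a = d.2.2.1 ∧ l = pH g d.2.1 d.2.2.1 ∧
        q = w d.2.1)) := by
  cases h with
  | K g d a h ha => exact ⟨g, d, a, h, ha, 1, one_ne_zero, rfl, Or.inl ⟨rfl, rfl⟩⟩
  | H g d h hd =>
    exact ⟨g, d, _, h, Or.inr (Or.inl rfl), w d.2.1, (hG.wne h (Or.inl rfl)).1, rfl,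
      Or.inr ⟨hd, rfl, rfl, rfl⟩⟩
  | _ => simp [ty, pY, pO, pE, pX, pu, pr, pU, pV, pK, pA, pN, pH] at ht

/-- the parameters of two different labels of the same type are different -/
theorem mv_inj (hG : Good G w M) {l l' : Lab} (h : Occ G l) (h' : Occ G l') (ht : ty l = ty l')
    (hY : ty l ≠ .Y) (he : mv w M l = mv w M l') : l = l' := by
  rcases hl : ty l with _ | _ | _ | _ | _
  · -- P
    have hl' : ty l' = .P := by rw [← ht, hl]
    rcases typeP hG h hl with ⟨e1, e2⟩ | ⟨g, d, hg, hd, e1, e2⟩ <;>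
      rcases typeP hG h' hl' with ⟨e1', e2'⟩ | ⟨g', d', hg', hd', e1', e2'⟩
    · rw [e1, e1']
    · rw [e2, e2'] at he
      exact absurd he.symm (mono_ne_zero (hG.wne hg' (Or.inl rfl)).1)
    · rw [e2, e2'] at he
      exact absurd he (mono_ne_zero (hG.wne hg (Or.inl rfl)).1)
    · rw [e2, e2'] at he
      obtain ⟨-, he⟩ := mono_eq (hG.wne hg (Or.inl rfl)).1 he
      have hM := hG.lt hg (Or.inl rfl)
      have := expM_inj (by omega) he
      subst this
      have := hg.eq hg'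
      subst this
      rw [e1, e1']
  · -- Q
    have hl' : ty l' = .Q := by rw [← ht, hl]
    have hq : ∀ {g : ℕ} {d : Gad} {q : ℚ} {l : Lab}, At G g d →
        ((l = pU g ∧ q = 1) ∨ ∃ a, Wr d a ∧ l = pV g a ∧ q = w a) → q ≠ 0 := by
      rintro g d q l hg (⟨-, rfl⟩ | ⟨a, ha, -, rfl⟩)
      · exact one_ne_zero
      · exact (hG.wne hg ha).1
    rcases typeQ hG h hl with ⟨e1, e2⟩ | ⟨g, d, hg, q, e2, hc⟩ <;>
      rcases typeQ hG h' hl' with ⟨e1', e2'⟩ | ⟨g', d', hg', q', e2', hc'⟩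
    · rw [e1, e1']
    · rw [e2, e2'] at he
      exact absurd he.symm (mono_ne_zero (hq hg' hc'))
    · rw [e2, e2'] at he
      exact absurd he (mono_ne_zero (hq hg hc))
    · rw [e2, e2'] at he
      obtain ⟨hqq, he⟩ := mono_eq (hq hg hc) he
      have hM := hG.lt hg (Or.inl rfl)
      have := expM_inj (by omega) he
      subst this
      have := hg.eq hg'
      subst this
      rcases hc with ⟨e1, e3⟩ | ⟨a, ha, e1, e3⟩ <;> rcases hc' with ⟨e1', e3'⟩ | ⟨a', ha', e1', e3'⟩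
      · rw [e1, e1']
      · exact absurd (by rw [← e3', ← hqq, e3]) (hG.wne hg ha').2
      · exact absurd (by rw [← e3, hqq, e3']) (hG.wne hg ha).2
      · have := hG.winj hg ha ha' (by rw [← e3, ← e3', hqq])
        rw [e1, e1', this]
  · -- R
    have hl' : ty l' = .R := by rw [← ht, hl]
    rcases typeR hG h hl with ⟨e1, e2⟩ | ⟨g, d, a, hg, ha, q, e2, hc⟩ | ⟨g, d, hg, hd, e1, e2⟩ <;>
      rcases typeR hG h' hl' with ⟨e1', e2'⟩ | ⟨g', d', a', hg', ha', q', e2', hc'⟩ |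
        ⟨g', d', hg', hd', e1', e2'⟩
    · rw [e1, e1']
    · rw [e2, e2'] at he
      have hq : q' ≠ 0 := by
        rcases hc' with ⟨-, rfl⟩ | ⟨-, rfl⟩
        · exact one_ne_zero
        · exact (hG.wne hg' ha').1
      exact absurd he.symm (mono_ne_zero hq)
    · rw [e2, e2'] at he
      exact absurd he.symm (mono_ne_zero (hG.wne hg' (Or.inr (Or.inl rfl))).1)
    · rw [e2, e2'] at he
      have hq : q ≠ 0 := by
        rcases hc with ⟨-, rfl⟩ | ⟨-, rfl⟩
        · exact one_ne_zero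
        · exact (hG.wne hg ha).1
      exact absurd he (mono_ne_zero hq)
    · rw [e2, e2'] at he
      have hq : q ≠ 0 := by
        rcases hc with ⟨-, rfl⟩ | ⟨-, rfl⟩
        · exact one_ne_zero
        · exact (hG.wne hg ha).1
      obtain ⟨hqq, he⟩ := mono_eq hq he
      have haa : a = a' := by omega
      subst haa
      rcases hc with ⟨e1, e3⟩ | ⟨e1, e3⟩ <;> rcases hc' with ⟨e1', e3'⟩ | ⟨e1', e3'⟩
      · rw [e1, e1']
      · exact absurd (by rw [← e3', ← hqq, e3]) (hG.wne hg ha).2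
      · exact absurd (by rw [← e3, hqq, e3']) (hG.wne hg ha).2
      · rw [e1, e1']
    · rw [e2, e2'] at he
      have hq : q ≠ 0 := by
        rcases hc with ⟨-, rfl⟩ | ⟨-, rfl⟩
        · exact one_ne_zero
        · exact (hG.wne hg ha).1
      obtain ⟨-, he⟩ := mono_eq hq he
      have h1 := hG.lt hg ha
      have h2 := Mle M g'
      omega
    · rw [e2, e2'] at he
      exact absurd he (mono_ne_zero (hG.wne hg (Or.inr (Or.inl rfl))).1)
    · rw [e2, e2'] at he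
      obtain ⟨-, he⟩ := mono_eq (hG.wne hg (Or.inr (Or.inl rfl))).1 he
      have h1 := hG.lt hg' ha'
      have h2 := Mle M g
      omega
    · rw [e2, e2'] at he
      obtain ⟨-, he⟩ := mono_eq (hG.wne hg (Or.inr (Or.inl rfl))).1 he
      have hM := hG.lt hg (Or.inl rfl)
      have := expM_inj (by omega) he
      subst this
      have := hg.eq hg'
      subst this
      rw [e1, e1']
  · -- S
    have hl' : ty l' = .S := by rw [← ht, hl]
    obtain ⟨g, d, a, hg, ha, q, hq, e2, hc⟩ := typeS hG h hl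
    obtain ⟨g', d', a', hg', ha', q', hq', e2', hc'⟩ := typeS hG h' hl'
    rw [e2, e2'] at he
    obtain ⟨hqq, he⟩ := mono_eq hq he
    obtain ⟨hgg, haa⟩ := exp_inj (hG.lt hg ha) (hG.lt hg' ha') he
    subst hgg
    subst haa
    have := hg.eq hg'
    subst this
    rcases hc with ⟨e1, e3⟩ | ⟨hd, e4, e1, e3⟩ <;> rcases hc' with ⟨e1', e3'⟩ | ⟨hd', e4', e1', e3'⟩
    · rw [e1, e1']
    · exact absurd (by rw [← e3', ← hqq, e3]) (hG.wne hg (Or.inl rfl)).2
    · exact absurd (by rw [← e3, hqq, e3']) (hG.wne hg (Or.inl rfl)).2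
    · rw [e1, e1']
  · exact absurd hl hY

end Gen

end Pool.Agent.H881R2.Mat
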