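import Pool.Agent.H881R2.Mat.Generic

/-!
# A solvable system of wires gives a plane configuration in general position, III
-/

set_option autoImplicit false

namespace Pool.Agent.H881R2.Mat

namespace Gen

open Polynomial

theorem dPPQ {R : Type} [CommRing R] (a b c : R) :
    dt (vecT .P a) (vecT .P b) (vecT .Q c) = a - b := by
  simp only [dt, vecT, Matrix.cons_val]
  ring

theorem dPPR {R : Type} [CommRing R] (a b c : R) :
    dt (vecT .P a) (vecT .P b) (vecT .R c) = a - b := by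
  simp only [dt, vecT, Matrix.cons_val]
  ring

theorem dPPS {R : Type} [CommRing R] (a b c : R) :
    dt (vecT .P a) (vecT .P b) (vecT .S c) = (a - b) * (1 - c) := by
  simp only [dt, vecT, Matrix.cons_val]
  ring

theorem dPQQ {R : Type} [CommRing R] (a b c : R) :
    dt (vecT .P a) (vecT .Q b) (vecT .Q c) = c - b := by
  simp only [dt, vecT, Matrix.cons_val]
  ring

theorem dPQR {R : Type} [CommRing R] (a b c : R) :
    dt (vecT .P a) (vecT .Q b) (vecT .R c) = a + c - b := by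
  simp only [dt, vecT, Matrix.cons_val]
  ring

theorem dPQS {R : Type} [CommRing R] (a b c : R) :
    dt (vecT .P a) (vecT .Q b) (vecT .S c) = -(a * c + b - b * c) := by
  simp only [dt, vecT, Matrix.cons_val]
  ring

theorem dPQY {R : Type} [CommRing R] (a b c : R) :
    dt (vecT .P a) (vecT .Q b) (vecT .Y c) = 1 := by
  simp only [dt, vecT, Matrix.cons_val]
  ring

theorem dPRR {R : Type} [CommRing R] (a b c : R) :
    dt (vecT .P a) (vecT .R b) (vecT .R c) = c - b := by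
  simp only [dt, vecT, Matrix.cons_val]
  ring

theorem dPRS {R : Type} [CommRing R] (a b c : R) :
    dt (vecT .P a) (vecT .R b) (vecT .S c) = -(a + b - b * c) := by
  simp only [dt, vecT, Matrix.cons_val]
  ring

theorem dPRY {R : Type} [CommRing R] (a b c : R) :
    dt (vecT .P a) (vecT .R b) (vecT .Y c) = 1 := by
  simp only [dt, vecT, Matrix.cons_val]
  ring

theorem dPSS {R : Type} [CommRing R] (a b c : R) :
    dt (vecT .P a) (vecT .S b) (vecT .S c) = a * (b - c) := by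
  simp only [dt, vecT, Matrix.cons_val]
  ring

theorem dPSY {R : Type} [CommRing R] (a b c : R) :
    dt (vecT .P a) (vecT .S b) (vecT .Y c) = 1 - b := by
  simp only [dt, vecT, Matrix.cons_val]
  ring

theorem dQQR {R : Type} [CommRing R] (a b c : R) :
    dt (vecT .Q a) (vecT .Q b) (vecT .R c) = a - b := by
  simp only [dt, vecT, Matrix.cons_val]
  ring

theorem dQQS {R : Type} [CommRing R] (a b c : R) :
    dt (vecT .Q a) (vecT .Q b) (vecT .S c) = (b - a) * c := by
  simp only [dt, vecT, Matrix.cons_val]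
  ring

theorem dQRR {R : Type} [CommRing R] (a b c : R) :
    dt (vecT .Q a) (vecT .R b) (vecT .R c) = c - b := by
  simp only [dt, vecT, Matrix.cons_val]
  ring

theorem dQRS {R : Type} [CommRing R] (a b c : R) :
    dt (vecT .Q a) (vecT .R b) (vecT .S c) = b * c - a := by
  simp only [dt, vecT, Matrix.cons_val]
  ring

theorem dQRY {R : Type} [CommRing R] (a b c : R) :
    dt (vecT .Q a) (vecT .R b) (vecT .Y c) = 1 := by
  simp only [dt, vecT, Matrix.cons_val]
  ring

theorem dQSS {R : Type} [CommRing R] (a b c : R) :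
    dt (vecT .Q a) (vecT .S b) (vecT .S c) = a * (b - c) := by
  simp only [dt, vecT, Matrix.cons_val]
  ring

theorem dQSY {R : Type} [CommRing R] (a b c : R) :
    dt (vecT .Q a) (vecT .S b) (vecT .Y c) = -b := by
  simp only [dt, vecT, Matrix.cons_val]
  ring

theorem dRRS {R : Type} [CommRing R] (a b c : R) :
    dt (vecT .R a) (vecT .R b) (vecT .S c) = b - a := by
  simp only [dt, vecT, Matrix.cons_val]
  ring

theorem dRSS {R : Type} [CommRing R] (a b c : R) :
    dt (vecT .R a) (vecT .S b) (vecT .S c) = a * (b - c) := by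
  simp only [dt, vecT, Matrix.cons_val]
  ring

theorem dRSY {R : Type} [CommRing R] (a b c : R) :
    dt (vecT .R a) (vecT .S b) (vecT .Y c) = -1 := by
  simp only [dt, vecT, Matrix.cons_val]
  ring

theorem dSSY {R : Type} [CommRing R] (a b c : R) :
    dt (vecT .S a) (vecT .S b) (vecT .Y c) = a - b := by
  simp only [dt, vecT, Matrix.cons_val]
  ring


variable {G : List Gad} {w : ℕ → ℚ} {M : ℕ}

/-! ### lines of the types -/

theorem onP_of {l : Lab} (h : Occ G l) (ht : ty l = .P) : onP l = true := by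
  cases h <;> first | rfl | simp [ty, pY, pO, pE, pX, pu, pr, pU, pV, pK, pA, pN, pH] at ht

theorem onQ_of {l : Lab} (h : Occ G l) (ht : ty l = .Q) : onQ l = true := by
  cases h <;> first | rfl | simp [ty, pY, pO, pE, pX, pu, pr, pU, pV, pK, pA, pN, pH] at ht

theorem onR_of {l : Lab} (h : Occ G l) (ht : ty l = .R) : onR l = true := by
  cases h <;> first | rfl | simp [ty, pY, pO, pE, pX, pu, pr, pU, pV, pK, pA, pN, pH] at ht

theorem onS_of {l : Lab} (h : Occ G l) (ht : ty l = .S) : onS l = true := by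
  cases h <;> first | rfl | simp [ty, pY, pO, pE, pX, pu, pr, pU, pV, pK, pA, pN, pH] at ht

theorem eqY_of {l : Lab} (h : Occ G l) (ht : ty l = .Y) : l = pY := by
  cases h <;> first | rfl | simp [ty, pY, pO, pE, pX, pu, pr, pU, pV, pK, pA, pN, pH] at ht

/-! ### special cases -/

/-- the first coefficient of a point of type `Q` -/
theorem q_ne (hG : Good G w M) {g : ℕ} {d : Gad} {q : ℚ} {l : Lab} (hg : At G g d)
    (h : (l = pU g ∧ q = 1) ∨ ∃ a, Wr d a ∧ l = pV g a ∧ q = w a) : q ≠ 0 := by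
  rcases h with ⟨-, rfl⟩ | ⟨a, ha, -, rfl⟩
  · exact one_ne_zero
  · exact (hG.wne hg ha).1

theorem q_ne' (hG : Good G w M) {g : ℕ} {d : Gad} {a : ℕ} {q : ℚ} {l : Lab} (hg : At G g d)
    (ha : Wr d a) (h : (l = pu a ∧ q = 1) ∨ (l = pr a ∧ q = w a)) : q ≠ 0 := by
  rcases h with ⟨-, rfl⟩ | ⟨-, rfl⟩
  · exact one_ne_zero
  · exact (hG.wne hg ha).1

/-- three monomials -/
theorem tri {a b c : ℚ} {i j k : ℕ} (ha : a ≠ 0) (hb : b ≠ 0) (hc : c ≠ 0)
    (h : (C a * X ^ i + C b * X ^ j - C c * X ^ k : ℚ[X]) = 0) : i = j ∧ j = k ∧ a + b = c := by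
  have h0 : ∀ n : ℕ, (if n = i then a else 0) + (if n = j then b else 0) -
      (if n = k then c else 0) = 0 := by
    intro n
    have h1 := congrArg (fun p => p.coeff n) h
    simpa only [coeff_sub, coeff_add, coeff_C_mul_X_pow, coeff_zero] using h1
  have hi := h0 i
  have hj := h0 j
  have hk := h0 k
  by_cases hij : i = j
  · subst hij
    by_cases hik : i = k
    · subst hik
      simp only [if_true] at hi
      exact ⟨rfl, rfl, by linarith⟩
    · exfalso
      simp only [if_neg (Ne.symm hik), if_true] at hk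
      apply hc
      linarith
  · exfalso
    by_cases hik : i = k
    · subst hik
      simp only [if_true, if_neg (Ne.symm hij)] at hj
      apply hb
      linarith
    · simp only [if_true, if_neg hij, if_neg hik] at hi
      apply ha
      linarith

theorem duo {a b : ℚ} {i j : ℕ} (ha : a ≠ 0)
    (h : (C a * X ^ i + C b * X ^ j : ℚ[X]) = 0) : i = j ∧ a + b = 0 := by
  have h1 : (C a * X ^ i : ℚ[X]) = C (-b) * X ^ j := by
    rw [C_neg, neg_mul]
    exact eq_neg_of_add_eq_zero_left h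
  obtain ⟨h2, h3⟩ := mono_eq ha h1
  exact ⟨h3, by linarith⟩

theorem Mpos (hG : Good G w M) {g : ℕ} {d : Gad} (h : At G g d) : 0 < M := by
  have := hG.lt h (Or.inl rfl)
  omega

theorem expmod {M a g1 g2 g3 : ℕ} (ha : a + 1 < M) :
    M * (g1 + 1) + (M * (g3 + 1) - (a + 1)) ≠ M * (g2 + 1) := by
  intro h
  have h1 := Mle M g3
  have h2 : M * (g1 + 1 + (g3 + 1)) = M * (g2 + 1) + (a + 1) := by
    rw [Nat.mul_add]; omega
  have hM : 0 < M := by omega
  have e1 : (M * (g2 + 1) + (a + 1)) % M = a + 1 := by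
    rw [Nat.mul_add_mod, Nat.mod_eq_of_lt ha]
  rw [← h2, Nat.mul_mod_right] at e1
  omega

theorem expmod2 {M a b g1 g3 : ℕ} (ha : a + 1 < M) (hb : b + 1 < M)
    (h : (a + 1) + (M * (g3 + 1) - (b + 1)) = M * (g1 + 1)) : a = b ∧ g3 = g1 := by
  have h1 := Mle M g3
  have h2 : M * (g3 + 1) - (b + 1) = M * (g1 + 1) - (a + 1) := by
    have := Mle M g1
    omega
  obtain ⟨h3, h4⟩ := exp_inj hb ha h2
  exact ⟨h4.symm, h3⟩

theorem S_facts (hG : Good G w M) {l : Lab} (h : Occ G l) (ht : ty l = .S) :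
    mv w M l ≠ 0 ∧ 1 - mv w M l ≠ 0 := by
  obtain ⟨g, d, a, hg, ha, q, hq, e, -⟩ := typeS hG h ht
  rw [e]
  refine ⟨mono_ne_zero hq, ?_⟩
  intro h0
  have h1 := hG.lt hg ha
  have h2 := Mle M g
  have h3 := congrArg (fun p => p.coeff 0) h0
  simp only [coeff_sub, coeff_C_mul_X_pow, coeff_zero, coeff_one_zero] at h3
  rw [if_neg (by omega)] at h3
  norm_num at h3

theorem caseP0 (hG : Good G w M) {l : Lab} (h : Occ G l) (ht : ty l = .P)
    (h0 : mv w M l = 0) : l = pO := by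
  rcases typeP hG h ht with ⟨e, -⟩ | ⟨g, d, hg, -, -, e⟩
  · exact e
  · rw [e] at h0
    exact absurd h0 (mono_ne_zero (hG.wne hg (Or.inl rfl)).1)

theorem caseQ0 (hG : Good G w M) {l : Lab} (h : Occ G l) (ht : ty l = .Q)
    (h0 : mv w M l = 0) : l = pE := by
  rcases typeQ hG h ht with ⟨e, -⟩ | ⟨g, d, hg, q, e, hc⟩
  · exact e
  · rw [e] at h0
    exact absurd h0 (mono_ne_zero (q_ne hG hg hc))

theorem caseR0 (hG : Good G w M) {l : Lab} (h : Occ G l) (ht : ty l = .R)
    (h0 : mv w M l = 0) : l = pX := by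
  rcases typeR hG h ht with ⟨e, -⟩ | ⟨g, d, a, hg, ha, q, e, hc⟩ | ⟨g, d, hg, -, -, e⟩
  · exact e
  · rw [e] at h0
    exact absurd h0 (mono_ne_zero (q_ne' hG hg ha hc))
  · rw [e] at h0
    exact absurd h0 (mono_ne_zero (hG.wne hg (Or.inr (Or.inl rfl))).1)

theorem Good.add (hG : Good G w M) {g : ℕ} {d : Gad} (h : At G g d) (hd : d.1 = false) :
    w d.2.1 + w d.2.2.1 = w d.2.2.2 := by
  have := (hG.ok d h.mem).2.2.2.2
  rwa [if_neg (by simp [hd])] at this

theorem Good.mul (hG : Good G w M) {g : ℕ} {d : Gad} (h : At G g d) (hd : d.1 = true) :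
    w d.2.1 * w d.2.2.1 = w d.2.2.2 := by
  have := (hG.ok d h.mem).2.2.2.2
  rwa [if_pos hd] at this

theorem caseQRS (hG : Good G w M) {l₁ l₂ l₃ : Lab} (h₁ : Occ G l₁) (h₂ : Occ G l₂)
    (h₃ : Occ G l₃) (t₁ : ty l₁ = .Q) (t₂ : ty l₂ = .R) (t₃ : ty l₃ = .S)
    (h : mv w M l₂ * mv w M l₃ - mv w M l₁ = 0) : Dep G l₁ l₂ l₃ := by
  obtain ⟨hS, -⟩ := S_facts hG h₃ t₃
  by_cases z1 : mv w M l₁ = 0
  · have z2 : mv w M l₂ = 0 := by
      rw [z1, sub_zero] at h
      exact (mul_eq_zero.1 h).resolve_right hS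
    have e1 := caseQ0 hG h₁ t₁ z1
    have e2 := caseR0 hG h₂ t₂ z2
    subst e1
    subst e2
    exact Or.inr (Or.inr (Or.inr (Or.inr (Or.inl ⟨rfl, rfl, onS_of h₃ t₃⟩))))
  · have z2 : mv w M l₂ ≠ 0 := by
      intro z2
      rw [z2, zero_mul, zero_sub, neg_eq_zero] at h
      exact z1 h
    have h' : mv w M l₂ * mv w M l₃ = mv w M l₁ := sub_eq_zero.1 h
    rcases typeQ hG h₁ t₁ with ⟨-, e⟩ | ⟨g, d, hg, q, e, hc⟩
    · exact absurd e z1
    obtain ⟨g', d', a', hg', ha', q', hq', e', hc'⟩ := typeS hG h₃ t₃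
    rcases typeR hG h₂ t₂ with ⟨-, f⟩ | ⟨g'', d'', a, hg'', ha, q'', f, hc''⟩ |
      ⟨g'', d'', hg'', hd'', -, f⟩
    · exact absurd f z2
    · rw [e, e', f] at h'
      have h2 : (C (q'' * q') * X ^ ((a + 1) + (M * (g' + 1) - (a' + 1))) : ℚ[X]) =
          C q * X ^ (M * (g + 1)) := by
        rw [← h', C_mul, pow_add]
        ring
      obtain ⟨hqq, hee⟩ := mono_eq (mul_ne_zero (q_ne' hG hg'' ha hc'') hq') h2
      obtain ⟨haa, hgg⟩ := expmod2 (hG.lt hg'' ha) (hG.lt hg' ha') hee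
      subst haa
      subst hgg
      have := hg.eq hg'
      subst this
      rcases hc' with ⟨rfl, rfl⟩ | ⟨hd, haa, rfl, rfl⟩
      · rcases hc'' with ⟨rfl, rfl⟩ | ⟨rfl, rfl⟩
        · rcases hc with ⟨rfl, rfl⟩ | ⟨b, hb, rfl, rfl⟩
          · exact dep_line (line_u hg ha') (by simp) (by simp) (by simp)
          · exact absurd (by rw [← hqq, one_mul]) (hG.wne hg hb).2
        · rcases hc with ⟨rfl, rfl⟩ | ⟨b, hb, rfl, rfl⟩
          · exact absurd (by rw [← hqq, mul_one]) (hG.wne hg ha').2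
          · have := hG.winj hg ha' hb (by rw [← hqq, mul_one])
            subst this
            exact dep_line (line_r hg ha') (by simp) (by simp) (by simp)
      · subst haa
        rcases hc'' with ⟨rfl, rfl⟩ | ⟨rfl, rfl⟩
        · rcases hc with ⟨rfl, rfl⟩ | ⟨b, hb, rfl, rfl⟩
          · exact absurd (by rw [← hqq, one_mul]) (hG.wne hg (Or.inl rfl)).2
          · have := hG.winj hg hb (Or.inl rfl) (by rw [← hqq, one_mul])
            subst this
            exact dep_line (line_mul hg hd).1 (by simp) (by simp) (by simp)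
        · have hz : w d.2.2.1 * w d.2.1 = w d.2.2.2 := by rw [mul_comm, hG.mul hg hd]
          rw [hz] at hqq
          rcases hc with ⟨rfl, rfl⟩ | ⟨b, hb, rfl, rfl⟩
          · exact absurd hqq (hG.wne hg (Or.inr (Or.inr rfl))).2
          · have := hG.winj hg hb (Or.inr (Or.inr rfl)) hqq.symm
            subst this
            exact dep_line (line_mul hg hd).2 (by simp) (by simp) (by simp)
    · exfalso
      rw [e, e', f] at h'
      have h2 : (C (w d''.2.2.1 * q') * X ^ (M * (g'' + 1) + (M * (g' + 1) - (a' + 1))) : ℚ[X]) =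
          C q * X ^ (M * (g + 1)) := by
        rw [← h', C_mul, pow_add]
        ring
      obtain ⟨-, hee⟩ := mono_eq
        (mul_ne_zero (hG.wne hg'' (Or.inr (Or.inl rfl))).1 hq') h2
      exact expmod (hG.lt hg' ha') hee

theorem casePRS (hG : Good G w M) {l₁ l₂ l₃ : Lab} (h₁ : Occ G l₁) (h₂ : Occ G l₂)
    (h₃ : Occ G l₃) (t₁ : ty l₁ = .P) (t₂ : ty l₂ = .R) (t₃ : ty l₃ = .S)
    (h : -(mv w M l₁ + mv w M l₂ - mv w M l₂ * mv w M l₃) = 0) : Dep G l₁ l₂ l₃ := by
  obtain ⟨hS, hS1⟩ := S_facts hG h₃ t₃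
  rw [neg_eq_zero] at h
  by_cases z2 : mv w M l₂ = 0
  · have z1 : mv w M l₁ = 0 := by
      rw [z2, zero_mul, add_zero, sub_zero] at h
      exact h
    have e1 := caseP0 hG h₁ t₁ z1
    have e2 := caseR0 hG h₂ t₂ z2
    subst e1
    subst e2
    exact Or.inr (Or.inr (Or.inr (Or.inr (Or.inl ⟨rfl, rfl, onS_of h₃ t₃⟩))))
  · exfalso
    obtain ⟨g', d', a', hg', ha', q', hq', e', hc'⟩ := typeS hG h₃ t₃
    have hM := hG.lt hg' ha'
    have hM' := Mle M g'
    have key : ∃ (q : ℚ) (i : ℕ), q ≠ 0 ∧ mv w M l₂ = C q * X ^ i := by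
      rcases typeR hG h₂ t₂ with ⟨-, f⟩ | ⟨g'', d'', a, hg'', ha, q'', f, hc''⟩ |
        ⟨g'', d'', hg'', hd'', -, f⟩
      · exact absurd f z2
      · exact ⟨q'', _, q_ne' hG hg'' ha hc'', f⟩
      · exact ⟨_, _, (hG.wne hg'' (Or.inr (Or.inl rfl))).1, f⟩
    obtain ⟨q, i, hq, f⟩ := key
    rcases typeP hG h₁ t₁ with ⟨-, e⟩ | ⟨g, d, hg, -, -, e⟩
    · rw [e, zero_add] at h
      have : mv w M l₂ * (1 - mv w M l₃) = 0 := by linear_combination h
      rcases mul_eq_zero.1 this with h5 | h5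
      · exact z2 h5
      · exact hS1 h5
    · rw [e, f, e'] at h
      have h2 : (C (w d.2.1) * X ^ (M * (g + 1)) + C q * X ^ i -
          C (q * q') * X ^ (i + (M * (g' + 1) - (a' + 1))) : ℚ[X]) = 0 := by
        rw [← h, C_mul, pow_add]
        ring
      obtain ⟨-, h3, -⟩ := tri (hG.wne hg (Or.inl rfl)).1 hq (mul_ne_zero hq hq') h2
      omega

theorem casePQS (hG : Good G w M) {l₁ l₂ l₃ : Lab} (h₁ : Occ G l₁) (h₂ : Occ G l₂)
    (h₃ : Occ G l₃) (t₁ : ty l₁ = .P) (t₂ : ty l₂ = .Q) (t₃ : ty l₃ = .S)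
    (h : -(mv w M l₁ * mv w M l₃ + mv w M l₂ - mv w M l₂ * mv w M l₃) = 0) : Dep G l₁ l₂ l₃ := by
  obtain ⟨hS, hS1⟩ := S_facts hG h₃ t₃
  rw [neg_eq_zero] at h
  by_cases z2 : mv w M l₂ = 0
  · have z1 : mv w M l₁ = 0 := by
      rw [z2, zero_mul, add_zero, sub_zero] at h
      exact (mul_eq_zero.1 h).resolve_right hS
    have e1 := caseP0 hG h₁ t₁ z1
    have e2 := caseQ0 hG h₂ t₂ z2
    subst e1
    subst e2
    exact Or.inr (Or.inr (Or.inr (Or.inr (Or.inl ⟨rfl, rfl, onS_of h₃ t₃⟩))))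
  · exfalso
    obtain ⟨g', d', a', hg', ha', q', hq', e', hc'⟩ := typeS hG h₃ t₃
    have hM := hG.lt hg' ha'
    have hM' := Mle M g'
    rcases typeQ hG h₂ t₂ with ⟨-, f⟩ | ⟨g, d, hg, q, f, hc⟩
    · exact z2 f
    have hq := q_ne hG hg hc
    have key : ∃ (p : ℚ) (i : ℕ), mv w M l₁ = C p * X ^ (M * (i + 1)) := by
      rcases typeP hG h₁ t₁ with ⟨-, e⟩ | ⟨g'', d'', hg'', -, -, e⟩
      · exact ⟨0, 0, by rw [e]; simp⟩
      · exact ⟨_, _, e⟩
    obtain ⟨p, i, e⟩ := key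
    rw [e, f, e'] at h
    have h2 : (C (p * q') * X ^ (M * (i + 1) + (M * (g' + 1) - (a' + 1))) +
        C q * X ^ (M * (g + 1)) -
          C (q * q') * X ^ (M * (g + 1) + (M * (g' + 1) - (a' + 1))) : ℚ[X]) = 0 := by
      rw [← h, C_mul, C_mul, pow_add, pow_add]
      ring
    have h3 := congrArg (fun p => p.coeff (M * (g + 1))) h2
    simp only [coeff_sub, coeff_add, coeff_C_mul_X_pow, coeff_zero, if_true] at h3
    rw [if_neg (fun hh => expmod (hG.lt hg' ha') hh.symm), if_neg (by omega)] at h3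
    apply hq
    linarith

theorem casePQR (hG : Good G w M) {l₁ l₂ l₃ : Lab} (h₁ : Occ G l₁) (h₂ : Occ G l₂)
    (h₃ : Occ G l₃) (t₁ : ty l₁ = .P) (t₂ : ty l₂ = .Q) (t₃ : ty l₃ = .R)
    (h : mv w M l₁ + mv w M l₃ - mv w M l₂ = 0) : Dep G l₁ l₂ l₃ := by
  have wne : ∀ {g : ℕ} {d : Gad} {a : ℕ}, At G g d → Wr d a → w a ≠ 0 ∧ w a ≠ 1 :=
    fun hg ha => hG.wne hg ha
  rcases typeP hG h₁ t₁ with ⟨rfl, e⟩ | ⟨g, d, hg, hd, rfl, e⟩ <;>
  rcases typeQ hG h₂ t₂ with ⟨rfl, f⟩ | ⟨g', d', hg', q, f, hc⟩ <;>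
  rcases typeR hG h₃ t₃ with ⟨rfl, k⟩ | ⟨g'', d'', a, hg'', ha, q'', k, hc''⟩ |
      ⟨g'', d'', hg'', hd'', rfl, k⟩ <;>
  rw [e, f, k] at h
  · -- O E X
    exact Or.inr (Or.inr (Or.inr (Or.inr (Or.inl ⟨rfl, rfl, rfl⟩))))
  · rw [zero_add, sub_zero] at h
    exact absurd h (mono_ne_zero (q_ne' hG hg'' ha hc''))
  · rw [zero_add, sub_zero] at h
    exact absurd h (mono_ne_zero (wne hg'' (Or.inr (Or.inl rfl))).1)
  · rw [zero_add, zero_sub, neg_eq_zero] at h
    exact absurd h (mono_ne_zero (q_ne hG hg' hc))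
  · exfalso
    rw [zero_add, sub_eq_zero] at h
    obtain ⟨-, h2⟩ := mono_eq (q_ne' hG hg'' ha hc'') h
    have h3 := hG.lt hg'' ha
    have h4 := Mle M g'
    omega
  · rw [zero_add, sub_eq_zero] at h
    obtain ⟨h1, h2⟩ := mono_eq (wne hg'' (Or.inr (Or.inl rfl))).1 h
    have := expM_inj (Mpos hG hg') h2
    subst this
    have := hg'.eq hg''
    subst this
    rcases hc with ⟨rfl, rfl⟩ | ⟨b, hb, rfl, rfl⟩
    · exact absurd h1 (wne hg' (Or.inr (Or.inl rfl))).2
    · have := hG.winj hg' hb (Or.inr (Or.inl rfl)) h1.symm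
      subst this
      exact dep_line (line_add hg' hd'').2.1 (by simp) (by simp) (by simp)
  · rw [add_zero, sub_zero] at h
    exact absurd h (mono_ne_zero (wne hg (Or.inl rfl)).1)
  · exfalso
    rw [sub_zero] at h
    obtain ⟨h2, -⟩ := duo (wne hg (Or.inl rfl)).1 h
    have h3 := hG.lt hg'' ha
    have h4 := Mle M g
    omega
  · exfalso
    rw [sub_zero] at h
    obtain ⟨h2, h1⟩ := duo (wne hg (Or.inl rfl)).1 h
    have := expM_inj (Mpos hG hg) h2
    subst this
    have := hg.eq hg''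
    subst this
    rw [hG.add hg hd] at h1
    exact (wne hg (Or.inr (Or.inr rfl))).1 h1
  · rw [add_zero, sub_eq_zero] at h
    obtain ⟨h1, h2⟩ := mono_eq (wne hg (Or.inl rfl)).1 h
    have := expM_inj (Mpos hG hg) h2
    subst this
    have := hg.eq hg'
    subst this
    rcases hc with ⟨rfl, rfl⟩ | ⟨b, hb, rfl, rfl⟩
    · exact absurd h1 (wne hg (Or.inl rfl)).2
    · have := hG.winj hg hb (Or.inl rfl) h1.symm
      subst this
      exact dep_line (line_add hg hd).1 (by simp) (by simp) (by simp)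
  · exfalso
    obtain ⟨h2, -, -⟩ := tri (wne hg (Or.inl rfl)).1 (q_ne' hG hg'' ha hc'') (q_ne hG hg' hc) h
    have h3 := hG.lt hg'' ha
    have h4 := Mle M g
    omega
  · obtain ⟨h2, h3, h1⟩ := tri (wne hg (Or.inl rfl)).1 (wne hg'' (Or.inr (Or.inl rfl))).1
      (q_ne hG hg' hc) h
    have := expM_inj (Mpos hG hg) h2
    subst this
    have := expM_inj (Mpos hG hg) h3
    subst this
    have := hg.eq hg'
    subst this
    have := hg.eq hg''
    subst this
    rw [hG.add hg hd] at h1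
    rcases hc with ⟨rfl, rfl⟩ | ⟨b, hb, rfl, rfl⟩
    · exact absurd h1 (wne hg (Or.inr (Or.inr rfl))).2
    · have := hG.winj hg hb (Or.inr (Or.inr rfl)) h1.symm
      subst this
      exact dep_line (line_add hg hd).2.2 (by simp) (by simp) (by simp)

end Gen

end Pool.Agent.H881R2.Mat
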