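import Pool.Agent.H881R2.Mat.Generic2

/-!
# A solvable system of wires gives a plane configuration in general position, IV
-/

set_option autoImplicit false

namespace Pool.Agent.H881R2.Mat

namespace Gen

open Polynomial

variable {G : List Gad} {w : ℕ → ℚ} {M : ℕ}

theorem dep_P {a b c : Lab} (ha : onP a = true) (hb : onP b = true) (hc : onP c = true) :
    Dep G a b c := Or.inr (Or.inl ⟨ha, hb, hc⟩)

theorem dep_Q {a b c : Lab} (ha : onQ a = true) (hb : onQ b = true) (hc : onQ c = true) :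
    Dep G a b c := Or.inr (Or.inr (Or.inl ⟨ha, hb, hc⟩))

theorem dep_R {a b c : Lab} (ha : onR a = true) (hb : onR b = true) (hc : onR c = true) :
    Dep G a b c := Or.inr (Or.inr (Or.inr (Or.inl ⟨ha, hb, hc⟩)))

theorem dep_S {a b c : Lab} (ha : onS a = true) (hb : onS b = true) (hc : onS c = true) :
    Dep G a b c := Or.inr (Or.inr (Or.inr (Or.inr (Or.inl ⟨ha, hb, hc⟩))))

/-- equal parameters -/
theorem dep12 (hG : Good G w M) {l₁ l₂ : Lab} (l₃ : Lab) (h₁ : Occ G l₁) (h₂ : Occ G l₂)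
    (ht : ty l₁ = ty l₂) (hY : ty l₁ ≠ .Y) (h : mv w M l₁ = mv w M l₂) : Dep G l₁ l₂ l₃ :=
  Or.inl (Or.inl (mv_inj hG h₁ h₂ ht hY h))

theorem dep23 (hG : Good G w M) (l₁ : Lab) {l₂ l₃ : Lab} (h₂ : Occ G l₂) (h₃ : Occ G l₃)
    (ht : ty l₂ = ty l₃) (hY : ty l₂ ≠ .Y) (h : mv w M l₂ = mv w M l₃) : Dep G l₁ l₂ l₃ :=
  Or.inl (Or.inr (Or.inr (mv_inj hG h₂ h₃ ht hY h)))

theorem coreP (hG : Good G w M) {l₁ l₂ l₃ : Lab} (h₁ : Occ G l₁) (h₂ : Occ G l₂)
    (h₃ : Occ G l₃) (t₁ : ty l₁ = .P) (r23 : (ty l₂).rk ≤ (ty l₃).rk)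
    (h : dt (vec w M l₁) (vec w M l₂) (vec w M l₃) = 0) : Dep G l₁ l₂ l₃ := by
  unfold vec at h
  rcases t₂ : ty l₂ with _ | _ | _ | _ | _ <;> rcases t₃ : ty l₃ with _ | _ | _ | _ | _ <;>
    rw [t₂, t₃] at r23 <;> rw [t₁, t₂, t₃] at h
  · exact dep_P (onP_of h₁ t₁) (onP_of h₂ t₂) (onP_of h₃ t₃)
  · rw [dPPQ, sub_eq_zero] at h
    exact dep12 hG _ h₁ h₂ (t₁.trans t₂.symm) (by rw [t₁]; decide) h
  · rw [dPPR, sub_eq_zero] at h
    exact dep12 hG _ h₁ h₂ (t₁.trans t₂.symm) (by rw [t₁]; decide) h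
  · rw [dPPS] at h
    rcases mul_eq_zero.1 h with h | h
    · exact dep12 hG _ h₁ h₂ (t₁.trans t₂.symm) (by rw [t₁]; decide) (sub_eq_zero.1 h)
    · exact absurd h (S_facts hG h₃ t₃).2
  · have := eqY_of h₃ t₃
    subst this
    exact dep_P (onP_of h₁ t₁) (onP_of h₂ t₂) rfl
  · exact absurd r23 (by decide)
  · rw [dPQQ, sub_eq_zero] at h
    exact dep23 hG _ h₂ h₃ (t₂.trans t₃.symm) (by rw [t₂]; decide) h.symm
  · rw [dPQR] at h
    exact casePQR hG h₁ h₂ h₃ t₁ t₂ t₃ h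
  · rw [dPQS] at h
    exact casePQS hG h₁ h₂ h₃ t₁ t₂ t₃ h
  · rw [dPQY] at h
    exact absurd h one_ne_zero
  · exact absurd r23 (by decide)
  · exact absurd r23 (by decide)
  · rw [dPRR, sub_eq_zero] at h
    exact dep23 hG _ h₂ h₃ (t₂.trans t₃.symm) (by rw [t₂]; decide) h.symm
  · rw [dPRS] at h
    exact casePRS hG h₁ h₂ h₃ t₁ t₂ t₃ h
  · rw [dPRY] at h
    exact absurd h one_ne_zero
  · exact absurd r23 (by decide)
  · exact absurd r23 (by decide)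
  · exact absurd r23 (by decide)
  · rw [dPSS] at h
    rcases mul_eq_zero.1 h with h | h
    · have := caseP0 hG h₁ t₁ h
      subst this
      exact dep_S rfl (onS_of h₂ t₂) (onS_of h₃ t₃)
    · exact dep23 hG _ h₂ h₃ (t₂.trans t₃.symm) (by rw [t₂]; decide) (sub_eq_zero.1 h)
  · rw [dPSY] at h
    exact absurd h (S_facts hG h₂ t₂).2
  · exact absurd r23 (by decide)
  · exact absurd r23 (by decide)
  · exact absurd r23 (by decide)
  · exact absurd r23 (by decide)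
  · exact Or.inl (Or.inr (Or.inr ((eqY_of h₂ t₂).trans (eqY_of h₃ t₃).symm)))

theorem coreQ (hG : Good G w M) {l₁ l₂ l₃ : Lab} (h₁ : Occ G l₁) (h₂ : Occ G l₂)
    (h₃ : Occ G l₃) (t₁ : ty l₁ = .Q) (r12 : (ty l₁).rk ≤ (ty l₂).rk)
    (r23 : (ty l₂).rk ≤ (ty l₃).rk)
    (h : dt (vec w M l₁) (vec w M l₂) (vec w M l₃) = 0) : Dep G l₁ l₂ l₃ := by
  unfold vec at h
  rw [t₁] at r12
  rcases t₂ : ty l₂ with _ | _ | _ | _ | _
  · rw [t₂] at r12
    exact absurd r12 (by decide)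
  all_goals
    rcases t₃ : ty l₃ with _ | _ | _ | _ | _ <;>
    rw [t₂, t₃] at r23 <;> rw [t₁, t₂, t₃] at h
  · exact absurd r23 (by decide)
  · exact dep_Q (onQ_of h₁ t₁) (onQ_of h₂ t₂) (onQ_of h₃ t₃)
  · rw [dQQR, sub_eq_zero] at h
    exact dep12 hG _ h₁ h₂ (t₁.trans t₂.symm) (by rw [t₁]; decide) h
  · rw [dQQS] at h
    rcases mul_eq_zero.1 h with h | h
    · exact dep12 hG _ h₁ h₂ (t₁.trans t₂.symm) (by rw [t₁]; decide) (sub_eq_zero.1 h).symm
    · exact absurd h (S_facts hG h₃ t₃).1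
  · have := eqY_of h₃ t₃
    subst this
    exact dep_Q (onQ_of h₁ t₁) (onQ_of h₂ t₂) rfl
  · exact absurd r23 (by decide)
  · exact absurd r23 (by decide)
  · rw [dQRR, sub_eq_zero] at h
    exact dep23 hG _ h₂ h₃ (t₂.trans t₃.symm) (by rw [t₂]; decide) h.symm
  · rw [dQRS] at h
    exact caseQRS hG h₁ h₂ h₃ t₁ t₂ t₃ h
  · rw [dQRY] at h
    exact absurd h one_ne_zero
  · exact absurd r23 (by decide)
  · exact absurd r23 (by decide)
  · exact absurd r23 (by decide)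
  · rw [dQSS] at h
    rcases mul_eq_zero.1 h with h | h
    · have := caseQ0 hG h₁ t₁ h
      subst this
      exact dep_S rfl (onS_of h₂ t₂) (onS_of h₃ t₃)
    · exact dep23 hG _ h₂ h₃ (t₂.trans t₃.symm) (by rw [t₂]; decide) (sub_eq_zero.1 h)
  · rw [dQSY, neg_eq_zero] at h
    exact absurd h (S_facts hG h₂ t₂).1
  · exact absurd r23 (by decide)
  · exact absurd r23 (by decide)
  · exact absurd r23 (by decide)
  · exact absurd r23 (by decide)
  · exact Or.inl (Or.inr (Or.inr ((eqY_of h₂ t₂).trans (eqY_of h₃ t₃).symm)))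

theorem coreR (hG : Good G w M) {l₁ l₂ l₃ : Lab} (h₁ : Occ G l₁) (h₂ : Occ G l₂)
    (h₃ : Occ G l₃) (t₁ : ty l₁ = .R) (r12 : (ty l₁).rk ≤ (ty l₂).rk)
    (r23 : (ty l₂).rk ≤ (ty l₃).rk)
    (h : dt (vec w M l₁) (vec w M l₂) (vec w M l₃) = 0) : Dep G l₁ l₂ l₃ := by
  unfold vec at h
  rw [t₁] at r12
  rcases t₂ : ty l₂ with _ | _ | _ | _ | _
  · rw [t₂] at r12
    exact absurd r12 (by decide)
  · rw [t₂] at r12
    exact absurd r12 (by decide)
  all_goals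
    rcases t₃ : ty l₃ with _ | _ | _ | _ | _ <;>
    rw [t₂, t₃] at r23 <;> rw [t₁, t₂, t₃] at h
  · exact absurd r23 (by decide)
  · exact absurd r23 (by decide)
  · exact dep_R (onR_of h₁ t₁) (onR_of h₂ t₂) (onR_of h₃ t₃)
  · rw [dRRS, sub_eq_zero] at h
    exact dep12 hG _ h₁ h₂ (t₁.trans t₂.symm) (by rw [t₁]; decide) h.symm
  · have := eqY_of h₃ t₃
    subst this
    exact dep_R (onR_of h₁ t₁) (onR_of h₂ t₂) rfl
  · exact absurd r23 (by decide)
  · exact absurd r23 (by decide)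
  · exact absurd r23 (by decide)
  · rw [dRSS] at h
    rcases mul_eq_zero.1 h with h | h
    · have := caseR0 hG h₁ t₁ h
      subst this
      exact dep_S rfl (onS_of h₂ t₂) (onS_of h₃ t₃)
    · exact dep23 hG _ h₂ h₃ (t₂.trans t₃.symm) (by rw [t₂]; decide) (sub_eq_zero.1 h)
  · rw [dRSY, neg_eq_zero] at h
    exact absurd h one_ne_zero
  · exact absurd r23 (by decide)
  · exact absurd r23 (by decide)
  · exact absurd r23 (by decide)
  · exact absurd r23 (by decide)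
  · exact Or.inl (Or.inr (Or.inr ((eqY_of h₂ t₂).trans (eqY_of h₃ t₃).symm)))

theorem coreS (hG : Good G w M) {l₁ l₂ l₃ : Lab} (h₁ : Occ G l₁) (h₂ : Occ G l₂)
    (h₃ : Occ G l₃) (t₁ : ty l₁ = .S) (r12 : (ty l₁).rk ≤ (ty l₂).rk)
    (r23 : (ty l₂).rk ≤ (ty l₃).rk)
    (h : dt (vec w M l₁) (vec w M l₂) (vec w M l₃) = 0) : Dep G l₁ l₂ l₃ := by
  unfold vec at h
  rw [t₁] at r12
  rcases t₂ : ty l₂ with _ | _ | _ | _ | _
  · rw [t₂] at r12
    exact absurd r12 (by decide)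
  · rw [t₂] at r12
    exact absurd r12 (by decide)
  · rw [t₂] at r12
    exact absurd r12 (by decide)
  all_goals
    rcases t₃ : ty l₃ with _ | _ | _ | _ | _ <;>
    rw [t₂, t₃] at r23 <;> rw [t₁, t₂, t₃] at h
  · exact absurd r23 (by decide)
  · exact absurd r23 (by decide)
  · exact absurd r23 (by decide)
  · exact dep_S (onS_of h₁ t₁) (onS_of h₂ t₂) (onS_of h₃ t₃)
  · rw [dSSY, sub_eq_zero] at h
    exact dep12 hG _ h₁ h₂ (t₁.trans t₂.symm) (by rw [t₁]; decide) h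
  · exact absurd r23 (by decide)
  · exact absurd r23 (by decide)
  · exact absurd r23 (by decide)
  · exact absurd r23 (by decide)
  · exact Or.inl (Or.inr (Or.inr ((eqY_of h₂ t₂).trans (eqY_of h₃ t₃).symm)))

theorem core_sorted (hG : Good G w M) {l₁ l₂ l₃ : Lab} (h₁ : Occ G l₁) (h₂ : Occ G l₂)
    (h₃ : Occ G l₃) (r12 : (ty l₁).rk ≤ (ty l₂).rk) (r23 : (ty l₂).rk ≤ (ty l₃).rk)
    (h : dt (vec w M l₁) (vec w M l₂) (vec w M l₃) = 0) : Dep G l₁ l₂ l₃ := by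
  rcases t₁ : ty l₁ with _ | _ | _ | _ | _
  · exact coreP hG h₁ h₂ h₃ t₁ r23 h
  · exact coreQ hG h₁ h₂ h₃ t₁ r12 r23 h
  · exact coreR hG h₁ h₂ h₃ t₁ r12 r23 h
  · exact coreS hG h₁ h₂ h₃ t₁ r12 r23 h
  · have t₂ : ty l₂ = .Y := by
      rw [t₁] at r12
      rcases t₂ : ty l₂ with _ | _ | _ | _ | _ <;> rw [t₂] at r12 <;>
        first | rfl | exact absurd r12 (by decide)
    exact Or.inl (Or.inl ((eqY_of h₁ t₁).trans (eqY_of h₂ t₂).symm))

/-- vanishing of the determinant implies dependence -/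
theorem dep_of_dt (hG : Good G w M) {l₁ l₂ l₃ : Lab} (h₁ : Occ G l₁) (h₂ : Occ G l₂)
    (h₃ : Occ G l₃) (h : dt (vec w M l₁) (vec w M l₂) (vec w M l₃) = 0) : Dep G l₁ l₂ l₃ := by
  have s12 : ∀ {a b c : Lab}, dt (vec w M a) (vec w M b) (vec w M c) = 0 →
      dt (vec w M b) (vec w M a) (vec w M c) = 0 := by
    intro a b c h
    rw [dt_swap12, h, neg_zero]
  have s23 : ∀ {a b c : Lab}, dt (vec w M a) (vec w M b) (vec w M c) = 0 →
      dt (vec w M a) (vec w M c) (vec w M b) = 0 := by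
    intro a b c h
    rw [dt_swap23, h, neg_zero]
  rcases le_total (ty l₁).rk (ty l₂).rk with h12 | h12 <;>
    rcases le_total (ty l₂).rk (ty l₃).rk with h23 | h23 <;>
    rcases le_total (ty l₁).rk (ty l₃).rk with h13 | h13
  · exact core_sorted hG h₁ h₂ h₃ h12 h23 h
  · exact core_sorted hG h₁ h₂ h₃ h12 h23 h
  · exact (core_sorted hG h₁ h₃ h₂ h13 h23 (s23 h)).swap23
  · exact (core_sorted hG h₃ h₁ h₂ h13 h12 (s12 (s23 h))).swap12.swap23
  · exact (core_sorted hG h₂ h₁ h₃ h12 h13 (s12 h)).swap12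
  · exact (core_sorted hG h₂ h₃ h₁ h23 h13 (s23 (s12 h))).swap23.swap12
  · exact (core_sorted hG h₃ h₂ h₁ h23 h12 (s12 (s23 (s12 h)))).swap12.swap23.swap12
  · exact (core_sorted hG h₃ h₂ h₁ h23 h12 (s12 (s23 (s12 h)))).swap12.swap23.swap12

end Gen

end Pool.Agent.H881R2.Mat
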