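import Pool.Agent.H881R2.Mat.Defs
import Pool.Agent.H671R2.PolyAuto

set_option autoImplicit false

namespace Pool.Agent.H881R2.Mat

open Pool.Agent.NPC

/-! Task R (file `Mat/RepIff.lean`) -/
theorem repQ_iff (G : List Gad) : RepQ (inst G) ↔ PlaneRep G := by
  sorry

/-! Task W (file `Mat/Wires.lean`) -/
theorem wsat_of_planeRep (G : List Gad) (hG : Distinct G) (h : PlaneRep G) : WSat G := by
  sorry

/-! Task G (file `Mat/Generic.lean`) -- helper881 -/
theorem planeRep_of_wsat (G : List Gad) (h : WSat G) : PlaneRep G := by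
  sorry

/-! Task M (file `Mat/IsMat.lean`) -/
theorem isMat3_inst (G : List Gad) (hG : Distinct G) : IsMat3 (inst G) := by
  sorry

/-! Task A (file `Mat/ToW.lean`) -/
theorem distinct_toW (S : List ER.Con) : Distinct (toW S) := by
  sorry

theorem wsat_toW (S : List ER.Con) : WSat (toW S) ↔ Pool.Agent.H528R2.QSat S := by
  sorry

/-! Task P (file `Mat/PolyInst.lean`) -/
theorem poly_toW : NPC.Poly toW := by
  sorry

theorem poly_inst : NPC.Poly inst := by
  sorry

end Pool.Agent.H881R2.Mat
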