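import Pool.Agent.H881R2.Mat.RepIff

/-!
# From a plane configuration to values of the wires
-/

set_option autoImplicit false

namespace Pool.Agent.H881R2.Mat

open Pool.Agent.NPC

namespace TaskW

/-! ### linear algebra -/

/-- Cramer coordinates of `a` with respect to `x, y, o` -/
def cram (x y o a : Fin 3 → ℚ) : Fin 3 → ℚ := ![det3 a y o, det3 x a o, det3 x y a]

theorem cram_det (x y o a b c : Fin 3 → ℚ) :
    det3 (cram x y o a) (cram x y o b) (cram x y o c) = det3 x y o ^ 2 * det3 a b c := by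
  simp only [cram, det3, Matrix.cons_val_zero, Matrix.cons_val_one, Matrix.cons_val_two,
    Matrix.head_cons, Matrix.tail_cons]
  ring

/-- rescaling of the first and the third coordinate -/
def scal (e f : ℚ) (a : Fin 3 → ℚ) : Fin 3 → ℚ := ![a 0 / e, a 1, a 2 / f]

theorem scal_det (e f : ℚ) (a b c : Fin 3 → ℚ) :
    det3 (scal e f a) (scal e f b) (scal e f c) = det3 a b c / (e * f) := by
  simp only [scal, det3, Matrix.cons_val_zero, Matrix.cons_val_one, Matrix.cons_val_two,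
    Matrix.head_cons, Matrix.tail_cons]
  ring

theorem rel_RSQ {a b c : Fin 3 → ℚ} (a2 : a 2 = 0) (a0 : a 0 ≠ 0) (b1 : b 1 = 0) (b2 : b 2 ≠ 0)
    (c0 : c 0 = c 2) (c2 : c 2 ≠ 0) (h : det3 a b c = 0) :
    a 1 / a 0 * (1 - b 0 / b 2) = c 1 / c 2 := by
  unfold det3 at h
  rw [a2, b1, c0] at h
  field_simp
  linarith

theorem rel_PQR {a b c : Fin 3 → ℚ} (a0 : a 0 = 0) (a2 : a 2 ≠ 0) (b0 : b 0 = b 2) (b2 : b 2 ≠ 0)
    (c2 : c 2 = 0) (c0 : c 0 ≠ 0) (h : det3 a b c = 0) :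
    a 1 / a 2 + c 1 / c 0 = b 1 / b 2 := by
  unfold det3 at h
  rw [a0, b0, c2] at h
  field_simp
  linarith

/-! ### dependence -/

/-- the kinds of the labels of the short lines -/
def kls : List (List ℕ) :=
  [[4, 8, 6], [5, 8, 7], [4, 11, 7], [5, 11, 7], [9, 7, 3], [1, 10, 7], [9, 10, 7]]

theorem kinds_of_mem {G : List Gad} {L : List Lab} (h : L ∈ lines G) : L.map Prod.fst ∈ kls := by
  obtain ⟨d, g, -, h2⟩ := mem_lines h
  simp only [glines] at h2
  split at h2 <;>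
  · simp only [List.mem_append, List.mem_cons, List.not_mem_nil, or_false] at h2
    rcases h2 with (rfl | rfl | rfl | rfl | rfl | rfl) | h2
    all_goals first
      | (simp [kls, pu, pK, pU, pr, pV]; done)
      | (rcases h2 with rfl | rfl | rfl <;> simp [kls, pr, pV, pA, pN, pX, pO]; done)
      | (rcases h2 with rfl | rfl <;> simp [kls, pu, pr, pV, pH])

/-- three kinds such that labels of these kinds are never dependent -/
def ndK (a b c : ℕ) : Bool :=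
  !(decide (a = b) || (decide (a = c) || decide (b = c))) &&
  (!(onP (a, 0, 0, 0) && (onP (b, 0, 0, 0) && onP (c, 0, 0, 0))) &&
  (!(onQ (a, 0, 0, 0) && (onQ (b, 0, 0, 0) && onQ (c, 0, 0, 0))) &&
  (!(onR (a, 0, 0, 0) && (onR (b, 0, 0, 0) && onR (c, 0, 0, 0))) &&
  (!(onS (a, 0, 0, 0) && (onS (b, 0, 0, 0) && onS (c, 0, 0, 0))) &&
  kls.all (fun K => !(decide (a ∈ K) && (decide (b ∈ K) && decide (c ∈ K))))))))

theorem nd {G : List Gad} (a b c : Lab) (h : ndK a.1 b.1 c.1 = true) : dep G a b c = false := by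
  rw [← Bool.not_eq_true, dep_iff]
  simp only [ndK, Bool.and_eq_true, Bool.not_eq_true', Bool.or_eq_false_iff, decide_eq_false_iff_not,
    List.all_eq_true] at h
  obtain ⟨⟨h1, h2, h3⟩, hP, hQ, hR, hS, hL⟩ := h
  rintro ((h | h | h) | ⟨p1, p2, p3⟩ | ⟨p1, p2, p3⟩ | ⟨p1, p2, p3⟩ | ⟨p1, p2, p3⟩ | ⟨L, l1, l2, l3, l4⟩)
  · exact h1 (by rw [h])
  · exact h2 (by rw [h])
  · exact h3 (by rw [h])
  · have q1 : onP (a.1, 0, 0, 0) = true := p1
    have q2 : onP (b.1, 0, 0, 0) = true := p2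
    have q3 : onP (c.1, 0, 0, 0) = true := p3
    simp [q1, q2, q3] at hP
  · have q1 : onQ (a.1, 0, 0, 0) = true := p1
    have q2 : onQ (b.1, 0, 0, 0) = true := p2
    have q3 : onQ (c.1, 0, 0, 0) = true := p3
    simp [q1, q2, q3] at hQ
  · have q1 : onR (a.1, 0, 0, 0) = true := p1
    have q2 : onR (b.1, 0, 0, 0) = true := p2
    have q3 : onR (c.1, 0, 0, 0) = true := p3
    simp [q1, q2, q3] at hR
  · have q1 : onS (a.1, 0, 0, 0) = true := p1
    have q2 : onS (b.1, 0, 0, 0) = true := p2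
    have q3 : onS (c.1, 0, 0, 0) = true := p3
    simp [q1, q2, q3] at hS
  · have := hL _ (kinds_of_mem l1)
    have m1 : a.1 ∈ L.map Prod.fst := List.mem_map_of_mem l2
    have m2 : b.1 ∈ L.map Prod.fst := List.mem_map_of_mem l3
    have m3 : c.1 ∈ L.map Prod.fst := List.mem_map_of_mem l4
    simp [m1, m2, m3] at this

theorem nd_VV {G : List Gad} (g x y : ℕ) (h : x ≠ y) : dep G (pV g x) (pV g y) pO = false := by
  rw [← Bool.not_eq_true, dep_iff]
  have hne : pV g x ≠ pV g y := by simpa [pV] using h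
  rintro ((h | h | h) | ⟨p1, p2, p3⟩ | ⟨p1, p2, p3⟩ | ⟨p1, p2, p3⟩ | ⟨p1, p2, p3⟩ | ⟨L, l1, l2, l3, l4⟩)
  · exact hne h
  · simp [pV, pO] at h
  · simp [pV, pO] at h
  · simp [onP, pV] at p1
  · simp [onQ, pO] at p3
  · simp [onR, pO] at p3
  · simp [onS, pV] at p1
  · have hK : ∀ K ∈ kls, K.Nodup := by decide
    exact hne (List.inj_on_of_nodup_map (hK _ (kinds_of_mem l1)) l2 l3 rfl)

theorem dep_line {G : List Gad} {d : Gad} {g : ℕ} (hdg : (d, g) ∈ G.zipIdx) {a b c : Lab}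
    (hL : [a, b, c] ∈ glines d g) : dep G a b c = true := by
  rw [dep_iff]
  refine Or.inr (Or.inr (Or.inr (Or.inr (Or.inr ⟨[a, b, c], ?_, by simp, by simp, by simp⟩))))
  simp only [lines, List.mem_flatMap]
  exact ⟨(d, g), hdg, hL⟩

theorem mem_labs {G : List Gad} {d : Gad} {g : ℕ} (hdg : (d, g) ∈ G.zipIdx) {a : Lab}
    (ha : a ∈ glabs d g) : a ∈ labs G := by
  simp only [labs, List.mem_append, List.mem_flatMap]
  exact Or.inr ⟨(d, g), hdg, ha⟩

theorem mY (G : List Gad) : pY ∈ labs G := by simp [labs]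
theorem mO (G : List Gad) : pO ∈ labs G := by simp [labs]
theorem mE (G : List Gad) : pE ∈ labs G := by simp [labs]
theorem mX (G : List Gad) : pX ∈ labs G := by simp [labs]

/-! ### normalised configurations -/

/-- a normalised configuration -/
structure Nrm (G : List Gad) (q : Lab → Fin 3 → ℚ) : Prop where
  hq : ∀ l₁ ∈ labs G, ∀ l₂ ∈ labs G, ∀ l₃ ∈ labs G,
    (det3 (q l₁) (q l₂) (q l₃) = 0 ↔ dep G l₁ l₂ l₃ = true)
  X0 : q pX 0 ≠ 0
  X1 : q pX 1 = 0
  X2 : q pX 2 = 0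
  Y0 : q pY 0 = 0
  Y1 : q pY 1 ≠ 0
  Y2 : q pY 2 = 0
  O0 : q pO 0 = 0
  O1 : q pO 1 = 0
  O2 : q pO 2 ≠ 0
  E0 : q pE 0 = 1
  E1 : q pE 1 = 0
  E2 : q pE 2 = 1

theorem det3_aab (a b : Fin 3 → ℚ) : det3 a a b = 0 := by unfold det3; ring
theorem det3_aba (a b : Fin 3 → ℚ) : det3 a b a = 0 := by unfold det3; ring
theorem det3_abb (a b : Fin 3 → ℚ) : det3 a b b = 0 := by unfold det3; ring

theorem exists_nrm {G : List Gad} (h : PlaneRep G) : ∃ q, Nrm G q := by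
  obtain ⟨p, hp⟩ := h
  have hD : det3 (p pX) (p pY) (p pO) ≠ 0 := fun h => by
    have := (hp _ (mX G) _ (mY G) _ (mO G)).1 h
    rw [nd pX pY pO (by decide)] at this
    exact absurd this (by decide)
  have hE1 : det3 (p pE) (p pY) (p pO) ≠ 0 := fun h => by
    have := (hp _ (mE G) _ (mY G) _ (mO G)).1 h
    rw [nd pE pY pO (by decide)] at this
    exact absurd this (by decide)
  have hE3 : det3 (p pX) (p pY) (p pE) ≠ 0 := fun h => by
    have := (hp _ (mX G) _ (mY G) _ (mE G)).1 h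
    rw [nd pX pY pE (by decide)] at this
    exact absurd this (by decide)
  have hE2 : det3 (p pX) (p pE) (p pO) = 0 := by
    rw [hp _ (mX G) _ (mE G) _ (mO G), dep_iff]
    exact Or.inr (Or.inr (Or.inr (Or.inr (Or.inl ⟨rfl, rfl, rfl⟩))))
  refine ⟨fun l => scal (det3 (p pE) (p pY) (p pO)) (det3 (p pX) (p pY) (p pE))
    (cram (p pX) (p pY) (p pO) (p l)), ?_, ?_, ?_, ?_, ?_, ?_, ?_, ?_, ?_, ?_, ?_, ?_, ?_⟩
  · intro l₁ h₁ l₂ h₂ l₃ h₃
    rw [scal_det, cram_det, ← hp l₁ h₁ l₂ h₂ l₃ h₃]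
    have : det3 (p pE) (p pY) (p pO) * det3 (p pX) (p pY) (p pE) ≠ 0 := mul_ne_zero hE1 hE3
    rw [div_eq_zero_iff, or_iff_left this, mul_eq_zero, or_iff_right (pow_ne_zero 2 hD)]
  · exact div_ne_zero hD hE1
  · exact det3_aab _ _
  · simp [scal, cram, det3_aba]
  · simp [scal, cram, det3_aab]
  · exact hD
  · simp [scal, cram, det3_abb]
  · simp [scal, cram, det3_aba]
  · simp [scal, cram, det3_abb]
  · exact div_ne_zero hD hE3
  · exact div_self hE1
  · exact hE2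
  · exact div_self hE3

section

variable {G : List Gad} {q : Lab → Fin 3 → ℚ}

theorem x_iff (N : Nrm G q) {l : Lab} (hl : l ∈ labs G) : q l 0 = 0 ↔ dep G l pY pO = true := by
  rw [← N.hq l hl pY (mY G) pO (mO G)]
  simp [det3, N.Y0, N.Y1, N.Y2, N.O0, N.O1, N.O2]

theorem z_iff (N : Nrm G q) {l : Lab} (hl : l ∈ labs G) : q l 2 = 0 ↔ dep G pX pY l = true := by
  rw [← N.hq pX (mX G) pY (mY G) l hl]
  simp [det3, N.Y0, N.Y1, N.Y2, N.X0, N.X1, N.X2]

theorem y_iff (N : Nrm G q) {l : Lab} (hl : l ∈ labs G) : q l 1 = 0 ↔ dep G pX l pO = true := by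
  rw [← N.hq pX (mX G) l hl pO (mO G)]
  simp [det3, N.O0, N.O1, N.O2, N.X0, N.X1, N.X2]

theorem xz_iff (N : Nrm G q) {l : Lab} (hl : l ∈ labs G) :
    q l 0 = q l 2 ↔ dep G l pE pY = true := by
  rw [← N.hq l hl pE (mE G) pY (mY G)]
  have : det3 (q l) (q pE) (q pY) = q pY 1 * (q l 2 - q l 0) := by
    simp only [det3, N.Y0, N.Y2, N.E0, N.E1, N.E2]
    ring
  rw [this, mul_eq_zero, or_iff_right N.Y1, sub_eq_zero, eq_comm]

/-- points on the line at infinity -/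
theorem ptR (N : Nrm G q) {l : Lab} (hl : l ∈ labs G) (h1 : onR l = true)
    (h2 : ndK l.1 0 1 = true) : q l 2 = 0 ∧ q l 0 ≠ 0 := by
  refine ⟨(z_iff N hl).2 ?_, fun h => ?_⟩
  · rw [dep_iff]
    exact Or.inr (Or.inr (Or.inr (Or.inl ⟨rfl, rfl, h1⟩)))
  · have := (x_iff N hl).1 h
    rw [nd l pY pO h2] at this
    exact absurd this (by decide)

/-- points on the line `x = 0` -/
theorem ptP (N : Nrm G q) {l : Lab} (hl : l ∈ labs G) (h1 : onP l = true)
    (h2 : ndK 3 0 l.1 = true) : q l 0 = 0 ∧ q l 2 ≠ 0 := by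
  refine ⟨(x_iff N hl).2 ?_, fun h => ?_⟩
  · rw [dep_iff]
    exact Or.inr (Or.inl ⟨h1, rfl, rfl⟩)
  · have := (z_iff N hl).1 h
    rw [nd pX pY l h2] at this
    exact absurd this (by decide)

/-- points on the line `x = 1` -/
theorem ptQ (N : Nrm G q) {l : Lab} (hl : l ∈ labs G) (h1 : onQ l = true)
    (h2 : ndK 3 0 l.1 = true) : q l 0 = q l 2 ∧ q l 2 ≠ 0 := by
  refine ⟨(xz_iff N hl).2 ?_, fun h => ?_⟩
  · rw [dep_iff]
    exact Or.inr (Or.inr (Or.inl ⟨h1, rfl, rfl⟩))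
  · have := (z_iff N hl).1 h
    rw [nd pX pY l h2] at this
    exact absurd this (by decide)

/-- points on the line `y = 0` -/
theorem ptS (N : Nrm G q) {l : Lab} (hl : l ∈ labs G) (h1 : onS l = true)
    (h2 : ndK 3 0 l.1 = true) : q l 1 = 0 ∧ q l 2 ≠ 0 := by
  refine ⟨(y_iff N hl).2 ?_, fun h => ?_⟩
  · rw [dep_iff]
    exact Or.inr (Or.inr (Or.inr (Or.inr (Or.inl ⟨rfl, h1, rfl⟩))))
  · have := (z_iff N hl).1 h
    rw [nd pX pY l h2] at this
    exact absurd this (by decide)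

theorem y_ne (N : Nrm G q) {l : Lab} (hl : l ∈ labs G) (h2 : ndK 3 l.1 1 = true) : q l 1 ≠ 0 := by
  intro h
  have := (y_iff N hl).1 h
  rw [nd pX l pO h2] at this
  exact absurd this (by decide)

/-- value of a point on the lines `x = 0` and `x = 1` -/
def vQ (q : Lab → Fin 3 → ℚ) (l : Lab) : ℚ := q l 1 / q l 2
/-- value of a point at infinity -/
def vR (q : Lab → Fin 3 → ℚ) (l : Lab) : ℚ := q l 1 / q l 0
/-- value of a point on the line `y = 0` -/
def vS (q : Lab → Fin 3 → ℚ) (l : Lab) : ℚ := 1 - q l 0 / q l 2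

theorem mulRel (N : Nrm G q) {a b c : Lab} (ha : a ∈ labs G) (hb : b ∈ labs G) (hc : c ∈ labs G)
    (h1 : onR a = true) (h1' : ndK a.1 0 1 = true) (h2 : onS b = true) (h2' : ndK 3 0 b.1 = true)
    (h3 : onQ c = true) (h3' : ndK 3 0 c.1 = true) (h : dep G a b c = true) :
    vR q a * vS q b = vQ q c := by
  have A := ptR N ha h1 h1'
  have B := ptS N hb h2 h2'
  have C := ptQ N hc h3 h3'
  exact rel_RSQ A.1 A.2 B.1 B.2 C.1 C.2 ((N.hq a ha b hb c hc).2 h)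

theorem addRel (N : Nrm G q) {a b c : Lab} (ha : a ∈ labs G) (hb : b ∈ labs G) (hc : c ∈ labs G)
    (h1 : onP a = true) (h1' : ndK 3 0 a.1 = true) (h2 : onR b = true) (h2' : ndK b.1 0 1 = true)
    (h3 : onQ c = true) (h3' : ndK 3 0 c.1 = true) (h : dep G a b c = true) :
    vQ q a + vR q b = vQ q c := by
  have A := ptP N ha h1 h1'
  have B := ptR N hb h2 h2'
  have C := ptQ N hc h3 h3'
  rw [dep_swap23] at h
  exact rel_PQR A.1 A.2 C.1 C.2 B.1 B.2 ((N.hq a ha c hc b hb).2 h)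

/-- the value of a wire -/
def ww (q : Lab → Fin 3 → ℚ) (a : ℕ) : ℚ := vR q (pr a) / vR q (pu a)

/-- the labels of a wire of a gadget are present -/
def Wire (G : List Gad) (g a : ℕ) : Prop :=
  pu a ∈ labs G ∧ pr a ∈ labs G ∧ pU g ∈ labs G ∧ pV g a ∈ labs G ∧ pK g a ∈ labs G ∧
    dep G (pu a) (pK g a) (pU g) = true ∧ dep G (pr a) (pK g a) (pV g a) = true

theorem wire_x {d : Gad} {g : ℕ} (hdg : (d, g) ∈ G.zipIdx) : Wire G g d.2.1 := by
  refine ⟨mem_labs hdg ?_, mem_labs hdg ?_, mem_labs hdg ?_, mem_labs hdg ?_, mem_labs hdg ?_,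
    dep_line hdg ?_, dep_line hdg ?_⟩
  · simp [glabs]
  · simp [glabs]
  · simp [glabs]
  · simp [glabs]
  · simp [glabs]
  · simp [glines]
  · simp [glines]

theorem wire_y {d : Gad} {g : ℕ} (hdg : (d, g) ∈ G.zipIdx) : Wire G g d.2.2.1 := by
  refine ⟨mem_labs hdg ?_, mem_labs hdg ?_, mem_labs hdg ?_, mem_labs hdg ?_, mem_labs hdg ?_,
    dep_line hdg ?_, dep_line hdg ?_⟩
  · simp [glabs]
  · simp [glabs]
  · simp [glabs]
  · simp [glabs]
  · simp [glabs]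
  · simp [glines]
  · simp [glines]

theorem wire_z {d : Gad} {g : ℕ} (hdg : (d, g) ∈ G.zipIdx) : Wire G g d.2.2.2 := by
  refine ⟨mem_labs hdg ?_, mem_labs hdg ?_, mem_labs hdg ?_, mem_labs hdg ?_, mem_labs hdg ?_,
    dep_line hdg ?_, dep_line hdg ?_⟩
  · simp [glabs]
  · simp [glabs]
  · simp [glabs]
  · simp [glabs]
  · simp [glabs]
  · simp [glines]
  · simp [glines]

theorem vR_pu_ne (N : Nrm G q) {a : ℕ} (h : pu a ∈ labs G) : vR q (pu a) ≠ 0 :=
  div_ne_zero (y_ne N h rfl) (ptR N h rfl rfl).2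

theorem vR_pr_ne (N : Nrm G q) {a : ℕ} (h : pr a ∈ labs G) : vR q (pr a) ≠ 0 :=
  div_ne_zero (y_ne N h rfl) (ptR N h rfl rfl).2

theorem vQ_pU_ne (N : Nrm G q) {g : ℕ} (h : pU g ∈ labs G) : vQ q (pU g) ≠ 0 :=
  div_ne_zero (y_ne N h rfl) (ptQ N h rfl rfl).2

theorem vQ_pV (N : Nrm G q) {g a : ℕ} (h : Wire G g a) : vQ q (pV g a) = vQ q (pU g) * ww q a := by
  obtain ⟨h1, h2, h3, h4, h5, h6, h7⟩ := h
  have e1 := mulRel N h1 h5 h3 rfl rfl rfl rfl rfl rfl h6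
  have e2 := mulRel N h2 h5 h4 rfl rfl rfl rfl rfl rfl h7
  rw [← e1, ← e2, ww]
  have := vR_pu_ne N h1
  field_simp

theorem ww_ne_zero (N : Nrm G q) {g a : ℕ} (h : Wire G g a) : ww q a ≠ 0 :=
  div_ne_zero (vR_pr_ne N h.2.1) (vR_pu_ne N h.1)

theorem ww_ne_one (N : Nrm G q) {g a : ℕ} (h : Wire G g a) : ww q a ≠ 1 := by
  intro h1
  have e1 : vR q (pr a) = vR q (pu a) := by
    rw [ww, div_eq_one_iff_eq (vR_pu_ne N h.1)] at h1
    exact h1
  have A := ptR N h.1 rfl rfl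
  have B := ptR N h.2.1 rfl rfl
  rw [vR, vR, div_eq_div_iff B.2 A.2] at e1
  have : det3 (q (pu a)) (q (pr a)) (q pO) = 0 := by
    unfold det3
    rw [A.1, B.1, N.O0, N.O1]
    linear_combination q pO 2 * e1
  have h2 := (N.hq _ h.1 _ h.2.1 _ (mO G)).1 this
  rw [nd (pu a) (pr a) pO rfl] at h2
  exact absurd h2 (by decide)

theorem ww_ne (N : Nrm G q) {g a b : ℕ} (ha : Wire G g a) (hb : Wire G g b) (hab : a ≠ b) :
    ww q a ≠ ww q b := by
  intro h1
  have e1 : vQ q (pV g a) = vQ q (pV g b) := by rw [vQ_pV N ha, vQ_pV N hb, h1]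
  have A := ptQ N ha.2.2.2.1 rfl rfl
  have B := ptQ N hb.2.2.2.1 rfl rfl
  rw [vQ, vQ, div_eq_div_iff A.2 B.2] at e1
  have : det3 (q (pV g a)) (q (pV g b)) (q pO) = 0 := by
    unfold det3
    rw [A.1, B.1, N.O0, N.O1]
    linear_combination - q pO 2 * e1
  have h2 := (N.hq _ ha.2.2.2.1 _ hb.2.2.2.1 _ (mO G)).1 this
  rw [nd_VV g a b hab] at h2
  exact absurd h2 (by decide)

theorem gok (N : Nrm G q) (hG : Distinct G) {d : Gad} (hd : d ∈ G) : GOk (ww q) d := by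
  obtain ⟨g, hg⟩ := List.mem_iff_getElem?.1 hd
  have hdg : (d, g) ∈ G.zipIdx := List.mem_zipIdx_iff_getElem?.2 hg
  have Wx := wire_x hdg
  have Wy := wire_y hdg
  have Wz := wire_z hdg
  refine ⟨⟨ww_ne_zero N Wx, ww_ne_one N Wx⟩, ⟨ww_ne_zero N Wy, ww_ne_one N Wy⟩,
    ⟨ww_ne_zero N Wz, ww_ne_one N Wz⟩, ww_ne N Wx Wy (hG d hd).1, ?_⟩
  have hU := vQ_pU_ne N Wx.2.2.1
  have ex := vQ_pV N Wx
  have ey := vQ_pV N Wy
  have ez := vQ_pV N Wz
  by_cases hm : d.1 = true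
  · rw [if_pos hm]
    have mH : pH g d.2.1 d.2.2.1 ∈ labs G := mem_labs hdg (by simp [glabs, hm])
    have l1 : dep G (pu d.2.2.1) (pH g d.2.1 d.2.2.1) (pV g d.2.1) = true :=
      dep_line hdg (by simp [glines, hm])
    have l2 : dep G (pr d.2.2.1) (pH g d.2.1 d.2.2.1) (pV g d.2.2.2) = true :=
      dep_line hdg (by simp [glines, hm])
    have e1 := mulRel N Wy.1 mH Wx.2.2.2.1 rfl rfl rfl rfl rfl rfl l1
    have e2 := mulRel N Wy.2.1 mH Wz.2.2.2.1 rfl rfl rfl rfl rfl rfl l2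
    have hu := vR_pu_ne N Wy.1
    have hw : vR q (pr d.2.2.1) = ww q d.2.2.1 * vR q (pu d.2.2.1) := by
      rw [ww]; field_simp
    rw [ex] at e1
    rw [ez, hw] at e2
    apply mul_left_cancel₀ hU
    rw [← e2]
    linear_combination - ww q d.2.2.1 * e1
  · rw [if_neg hm]
    have mA : pA g d.2.1 ∈ labs G := mem_labs hdg (by simp [glabs, hm])
    have mN : pN g d.2.2.1 ∈ labs G := mem_labs hdg (by simp [glabs, hm])
    have l1 : dep G (pA g d.2.1) pX (pV g d.2.1) = true := by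
      rw [dep_swap23]
      exact dep_line hdg (by simp [glines, hm])
    have l2 : dep G pO (pN g d.2.2.1) (pV g d.2.2.1) = true :=
      dep_line hdg (by simp [glines, hm])
    have l3 : dep G (pA g d.2.1) (pN g d.2.2.1) (pV g d.2.2.2) = true :=
      dep_line hdg (by simp [glines, hm])
    have e1 := addRel N mA (mX G) Wx.2.2.2.1 rfl rfl rfl rfl rfl rfl l1
    have e2 := addRel N (mO G) mN Wy.2.2.2.1 rfl rfl rfl rfl rfl rfl l2
    have e3 := addRel N mA mN Wz.2.2.2.1 rfl rfl rfl rfl rfl rfl l3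
    have z1 : vR q pX = 0 := by rw [vR, N.X1, zero_div]
    have z2 : vQ q pO = 0 := by rw [vQ, N.O1, zero_div]
    rw [z1, ex] at e1
    rw [z2, ey] at e2
    rw [ez] at e3
    apply mul_left_cancel₀ hU
    linear_combination e3 - e1 - e2

end

end TaskW

theorem wsat_of_planeRep (G : List Gad) (hG : Distinct G) (h : PlaneRep G) : WSat G := by
  obtain ⟨q, N⟩ := TaskW.exists_nrm h
  exact ⟨TaskW.ww q, fun d hd => TaskW.gok N hG hd⟩

end Pool.Agent.H881R2.Mat
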